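import Pool.Agent.H558.KK.Ld

set_option autoImplicit false

/-!
# Almost all 2-adic `t`
-/

namespace Pool.Agent.H558.KK

open PowerSeries Finset MeasureTheory Pool.Agent.R836.PP
open Pool.Agent.K7.H72.MT hiding W few dis DD dis_stable dis_vary DD_stable DD_sum DD_block few_bad dis_le DD_le base count

/-- the function `exp (3 (log log x) ^ 2)` -/
noncomputable def Lx (x : ℕ) : ℝ := Real.exp (3 * Real.log (Real.log x) ^ 2)

theorem Lx_pos (x : ℕ) : 0 < Lx x := Real.exp_pos _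

theorem log_le {x : ℕ} (hx : 1 ≤ x) :
    ((Nat.log 2 x : ℕ) : ℝ) ≤ 3 / 2 * Real.exp (Real.log (Real.log x)) := by
  rcases Nat.lt_or_ge x 2 with h | h
  · have : x = 1 := by omega
    rw [this]
    simp
    norm_num
  · have hx1 : (1 : ℝ) < x := by exact_mod_cast h
    have hl : 0 < Real.log x := Real.log_pos hx1
    rw [Real.exp_log hl]
    have h1 : (2 : ℝ) ^ Nat.log 2 x ≤ x := by
      exact_mod_cast Nat.pow_log_le_self 2 (show x ≠ 0 by omega)
    have h2 := Real.log_le_log (by positivity) h1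
    rw [Real.log_pow] at h2
    have h3 := Real.log_two_gt_d9
    nlinarith

theorem lamx {A : ℝ} (hA : 0 ≤ A) : ∃ C : ℝ, 0 < C ∧ ∀ x : ℕ, 1 ≤ x →
    (lam (Nat.log 2 x) : ℝ) * (((Nat.log 2 x : ℕ) : ℝ) + 1) ^ A ≤ C * Lx x := by
  obtain ⟨C, hC, h⟩ := lam_log hA
  exact ⟨C, hC, fun x hx => h _ _ (log_le hx)⟩

theorem poly_exp {A ε : ℝ} (hA : 0 ≤ A) (hε : 0 < ε) : ∃ C : ℝ, 0 < C ∧ ∀ k : ℕ,
    ((k : ℝ) + 1) ^ A ≤ C * 2 ^ (ε * k) := by
  set δ : ℝ := ε / (A + 1) with hδ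
  have hδ0 : 0 < δ := by positivity
  have hl2 : 0 < Real.log 2 := Real.log_pos (by norm_num)
  set d : ℝ := min 1 (δ * Real.log 2) with hd
  have hd0 : 0 < d := lt_min one_pos (by positivity)
  refine ⟨(1 / d) ^ A, by positivity, fun k => ?_⟩
  have hk : (0 : ℝ) ≤ k := by positivity
  have h1 : (k : ℝ) + 1 ≤ 1 / d * 2 ^ (δ * k) := by
    have h2 : d * (k + 1) ≤ 2 ^ (δ * (k : ℝ)) := by
      rw [Real.rpow_def_of_pos (by norm_num)]
      have h3 := Real.add_one_le_exp (Real.log 2 * (δ * k))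
      have h4 : d * k ≤ δ * Real.log 2 * k := by
        gcongr
        exact min_le_right _ _
      have h5 : d ≤ 1 := min_le_left _ _
      linarith
    rw [div_mul_eq_mul_div, one_mul, le_div_iff₀ hd0]
    linarith
  calc ((k : ℝ) + 1) ^ A ≤ (1 / d * 2 ^ (δ * (k : ℝ))) ^ A := by gcongr
    _ = (1 / d) ^ A * 2 ^ (δ * k * A) := by
        rw [Real.mul_rpow (by positivity) (by positivity), ← Real.rpow_mul (by norm_num)]
    _ ≤ (1 / d) ^ A * 2 ^ (ε * k) := by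
        have h6 : δ * k * A ≤ ε * k := by
          have h7 : δ * A ≤ ε := by
            rw [hδ, div_mul_eq_mul_div, div_le_iff₀ (by linarith)]
            nlinarith
          nlinarith
        gcongr
        norm_num

theorem cntZ_mono (M ρ : ℕ) {L : ℕ} (c : Fin (L + 1) → ZMod 2) (w : ℕ → ZMod 2) (t : ℤ_[2])
    {x y : ℕ} (h : x ≤ y) : cntZ M ρ c w t x ≤ cntZ M ρ c w t y := by
  unfold cntZ
  apply card_le_card
  apply filter_subset_filter
  rw [range_subset_range]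
  omega

/-- one pattern, one progression -/
theorem ae_one' (M : ℕ) (hM : 0 < M) (ρ L : ℕ) (c : Fin (L + 1) → ZMod 2) (hc : c ≠ 0)
    (w : ℕ → ZMod 2) [MeasurableSpace ℤ_[2]] [BorelSpace ℤ_[2]] (μ : Measure ℤ_[2])
    [IsProbabilityMeasure μ] [μ.IsAddLeftInvariant] :
    ∀ᵐ t ∂μ, t.appr 1 = 1 → ∀ D : ℝ, 0 < D → ∃ x₀ : ℕ, ∀ x : ℕ, x₀ ≤ x →
      D * (x / Lx x) ≤ cntZ M ρ c w t x := by
  classical
  obtain ⟨a, ha, hmain⟩ := prog_prob M hM
  obtain ⟨C, hC, hb⟩ := hmain ρ L c hc w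
  -- the scales
  set A : ℝ := 2 / a with hA
  have hA0 : 0 < A := by positivity
  set Y : ℕ → ℝ := fun j => lam j * ((j : ℝ) + 1) ^ A with hY
  have hY1 : ∀ j, 1 ≤ Y j := by
    intro j
    have h1 : (1 : ℝ) ≤ lam j := by exact_mod_cast lam_pos j
    have h2 : (1 : ℝ) ≤ ((j : ℝ) + 1) ^ A := Real.one_le_rpow (by
      have : (0 : ℝ) ≤ j := by positivity
      linarith) hA0.le
    simp only [hY]
    nlinarith
  obtain ⟨Ca, hCa, hla⟩ := lam_exp (ε := 1 / 4) (by norm_num)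
  obtain ⟨Cb, hCb, hlb⟩ := poly_exp (A := A) (ε := 1 / 4) hA0.le (by norm_num)
  obtain ⟨j0, hj0⟩ : ∃ j0 : ℕ, ∀ j, j0 ≤ j → Y j ≤ 2 ^ j := by
    have h1 : Filter.Tendsto (fun j : ℕ => (2 : ℝ) ^ ((1 / 2 : ℝ) * j)) Filter.atTop Filter.atTop := by
      have h2 := tendsto_pow_atTop_atTop_of_one_lt (show (1 : ℝ) < 2 ^ (1 / 2 : ℝ) from
        Real.one_lt_rpow (by norm_num) (by norm_num))
      refine h2.congr fun j => ?_
      rw [← Real.rpow_natCast, ← Real.rpow_mul (by norm_num)]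
    obtain ⟨j0, hj0⟩ := Filter.eventually_atTop.1 (h1.eventually_ge_atTop (Ca * Cb))
    refine ⟨j0, fun j hj => ?_⟩
    have h3 := hj0 j hj
    calc Y j ≤ (Ca * 2 ^ (1 / 4 * (j : ℝ))) * (Cb * 2 ^ (1 / 4 * (j : ℝ))) :=
          mul_le_mul (hla j) (hlb j) (by positivity) (by positivity)
      _ = Ca * Cb * 2 ^ ((1 / 2 : ℝ) * j) := by
          have : (2 : ℝ) ^ ((1 / 2 : ℝ) * j) = 2 ^ (1 / 4 * (j : ℝ)) * 2 ^ (1 / 4 * (j : ℝ)) := by
            rw [← Real.rpow_add (by norm_num)]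
            congr 1
            ring
          rw [this]
          ring
      _ ≤ 2 ^ ((1 / 2 : ℝ) * j) * 2 ^ ((1 / 2 : ℝ) * j) := by gcongr
      _ = 2 ^ j := by
          rw [← Real.rpow_add (by norm_num), ← Real.rpow_natCast]
          congr 1
          ring
  let s : ℕ → Set ℤ_[2] := fun i => {t | t.appr 1 = 1 ∧
    (cntZ M ρ c w t (2 ^ (i + j0)) : ℝ) < 2 ^ (i + j0) / Y (i + j0)}
  have hs : ∀ i, μ (s i) ≤ ENNReal.ofReal (C * (1 / ((i : ℝ) + 1) ^ 2)) := by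
    intro i
    set j := i + j0 with hj
    set K := j + L + 1 with hK
    have hxK : 2 ^ j + L < 2 ^ K := by
      have h1 : L < 2 ^ L := Nat.lt_two_pow_self
      have h2 : 1 ≤ 2 ^ L := Nat.one_le_two_pow
      have h3 : 2 ^ K = 2 ^ j * 2 ^ L + 2 ^ j * 2 ^ L := by rw [hK]; ring
      have h4 : 1 ≤ 2 ^ j := Nat.one_le_two_pow
      rw [h3]
      nlinarith
    have hsub : s i ⊆ {t : ℤ_[2] | t.appr K ∈ ({t ∈ range (2 ^ K) | t % 2 = 1 ∧
        (cntP M ρ c w t (2 ^ j) : ℝ) < ((2 ^ j : ℕ) : ℝ) / Y j} : Finset ℕ)} := by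
      intro t ht
      obtain ⟨h1, h2⟩ := ht
      change t.appr K ∈ ({t ∈ range (2 ^ K) | t % 2 = 1 ∧
        (cntP M ρ c w t (2 ^ j) : ℝ) < ((2 ^ j : ℕ) : ℝ) / Y j} : Finset ℕ)
      rw [mem_filter, mem_range]
      refine ⟨PadicInt.appr_lt t K, ?_, ?_⟩
      · have h3 := appr_modEq t (show 1 ≤ K by omega)
        rw [pow_one] at h3
        have h4 : t.appr 1 % 2 = t.appr K % 2 := h3
        rw [← h4, h1]
      · rw [← cntZ_eq M ρ c w t hxK]
        push_cast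
        exact h2
    refine (measure_mono hsub).trans ?_
    refine (measure_finset μ K _ (filter_subset _ _)).trans ?_
    apply ENNReal.ofReal_le_ofReal
    rw [div_le_iff₀ (by positivity)]
    have h1 := hb K (2 ^ j) Nat.one_le_two_pow (by omega) (Y j) (hY1 j) (by
      push_cast
      exact hj0 j (by omega))
    rw [Nat.log_pow (by norm_num)] at h1
    refine h1.trans ?_
    have hj1 : (0 : ℝ) < (j : ℝ) + 1 := by positivity
    have e1 : (lam j : ℝ) / Y j = (((j : ℝ) + 1) ^ A)⁻¹ := by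
      have h2 : (0 : ℝ) < lam j := by exact_mod_cast lam_pos j
      simp only [hY]
      field_simp
    have e2 : ((((j : ℝ) + 1) ^ A)⁻¹) ^ a = 1 / ((j : ℝ) + 1) ^ 2 := by
      rw [Real.inv_rpow (by positivity), ← Real.rpow_mul hj1.le, hA, div_mul_cancel₀ _ ha.ne',
        one_div]
      norm_num
    rw [e1, e2]
    have h3 : 1 / ((j : ℝ) + 1) ^ 2 ≤ 1 / ((i : ℝ) + 1) ^ 2 := by
      have : (i : ℝ) ≤ j := by exact_mod_cast (show i ≤ j by omega)
      gcongr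
    calc C * 2 ^ K * (1 / ((j : ℝ) + 1) ^ 2) ≤ C * 2 ^ K * (1 / ((i : ℝ) + 1) ^ 2) := by gcongr
      _ = C * (1 / ((i : ℝ) + 1) ^ 2) * 2 ^ K := by ring
  have hsum : ∑' i, μ (s i) ≠ ⊤ := by
    have h1 : Summable fun i : ℕ => C * (1 / ((i : ℝ) + 1) ^ 2) := by
      apply Summable.mul_left
      have h2 := (summable_nat_add_iff 1).2 (Real.summable_one_div_nat_pow.2 (show 1 < 2 by norm_num))
      refine h2.congr fun i => ?_
      push_cast
      rfl
    exact ne_top_of_le_ne_top h1.tsum_ofReal_ne_top (ENNReal.tsum_le_tsum hs)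
  obtain ⟨Cl, hCl, hll⟩ := lamx (A := A + 1) (by positivity)
  filter_upwards [ae_eventually_notMem hsum] with t ht h1 D hD
  obtain ⟨i1, hi1⟩ := Filter.eventually_atTop.1 ht
  obtain ⟨i2, hi2⟩ := exists_nat_ge (2 * D * Cl)
  refine ⟨2 ^ (i1 + i2 + j0 + 1), fun x hx => ?_⟩
  have hx0 : x ≠ 0 := by
    have : 0 < 2 ^ (i1 + i2 + j0 + 1) := by positivity
    omega
  set j := Nat.log 2 x with hj
  have hjx : 2 ^ j ≤ x := Nat.pow_log_le_self 2 hx0
  have hjx2 : x < 2 ^ (j + 1) := Nat.lt_pow_succ_log_self (by norm_num) _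
  have hjge : i1 + i2 + j0 + 1 ≤ j := Nat.le_log_of_pow_le (by norm_num) hx
  obtain ⟨i, hi⟩ : ∃ i, j = i + j0 := ⟨j - j0, by omega⟩
  have h2 := hi1 i (by omega)
  have h3 : ¬ (t.appr 1 = 1 ∧ (cntZ M ρ c w t (2 ^ (i + j0)) : ℝ) < 2 ^ (i + j0) / Y (i + j0)) := h2
  rw [not_and, not_lt] at h3
  have h4 := h3 h1
  rw [← hi] at h4
  have h5 : (cntZ M ρ c w t (2 ^ j) : ℝ) ≤ cntZ M ρ c w t x := by
    exact_mod_cast cntZ_mono M ρ c w t hjx
  refine le_trans ?_ (h4.trans h5)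
  have hY0 : 0 < Y j := by linarith [hY1 j]
  have hL := Lx_pos x
  have h6 := hll x (by omega)
  have hj1 : (0 : ℝ) < (j : ℝ) + 1 := by positivity
  have h7 : Y j * ((j : ℝ) + 1) ≤ Cl * Lx x := by
    have e : Y j * ((j : ℝ) + 1) = lam j * ((j : ℝ) + 1) ^ (A + 1) := by
      simp only [hY]
      rw [Real.rpow_add hj1, Real.rpow_one]
      ring
    rw [e]
    exact h6
  have h8 : 2 * D * Cl ≤ (j : ℝ) + 1 := by
    have : (i2 : ℝ) ≤ j := by exact_mod_cast (show i2 ≤ j by omega)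
    linarith
  have h9 : 2 * D * Y j ≤ Lx x := by
    have h10 : 2 * D * Cl * Y j ≤ Cl * Lx x := by
      calc 2 * D * Cl * Y j ≤ ((j : ℝ) + 1) * Y j := by gcongr
        _ = Y j * ((j : ℝ) + 1) := by ring
        _ ≤ Cl * Lx x := h7
    nlinarith
  have hx2 : (x : ℝ) ≤ 2 * 2 ^ j := by
    have : (x : ℝ) ≤ 2 ^ (j + 1) := by exact_mod_cast hjx2.le
    rw [pow_succ] at this
    linarith
  rw [mul_div_assoc', div_le_div_iff₀ hL hY0]
  calc D * x * Y j ≤ D * (2 * 2 ^ j) * Y j := by gcongr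
    _ = 2 ^ j * (2 * D * Y j) := by ring
    _ ≤ 2 ^ j * Lx x := by gcongr

/-- all patterns, all progressions -/
theorem ae_all' (w : ℕ → ZMod 2)
    [MeasurableSpace ℤ_[2]] [BorelSpace ℤ_[2]] (μ : Measure ℤ_[2]) [IsProbabilityMeasure μ]
    [μ.IsAddLeftInvariant] :
    ∀ᵐ t ∂μ, t.appr 1 = 1 → ∀ M : ℕ, 0 < M → ∀ (ρ L : ℕ) (c : Fin (L + 1) → ZMod 2), c ≠ 0 →
      Filter.Tendsto (fun x : ℕ => (cntZ M ρ c w t x : ℝ) / (x / Lx x)) Filter.atTop
        Filter.atTop := by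
  have h : ∀ᵐ t ∂μ, ∀ (M ρ L : ℕ) (c : Fin (L + 1) → ZMod 2), 0 < M → c ≠ 0 →
      t.appr 1 = 1 → ∀ D : ℝ, 0 < D → ∃ x₀ : ℕ, ∀ x : ℕ, x₀ ≤ x →
        D * (x / Lx x) ≤ cntZ M ρ c w t x := by
    rw [MeasureTheory.ae_all_iff]
    intro M
    rw [MeasureTheory.ae_all_iff]
    intro ρ
    rw [MeasureTheory.ae_all_iff]
    intro L
    rw [MeasureTheory.ae_all_iff]
    intro c
    by_cases hM : 0 < M
    · by_cases hc : c ≠ 0
      · filter_upwards [ae_one' M hM ρ L c hc w μ] with t ht _ _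
        exact ht
      · exact Filter.Eventually.of_forall fun t _ h => absurd h hc
    · exact Filter.Eventually.of_forall fun t h => absurd h hM
  filter_upwards [h] with t ht h1 M hM ρ L c hc
  rw [Filter.tendsto_atTop]
  intro B
  obtain ⟨x₀, hx₀⟩ := ht M ρ L c hM hc h1 (max B 1) (by positivity)
  filter_upwards [Filter.eventually_ge_atTop (max x₀ 1)] with x hx
  have hx1 : (0 : ℝ) < x := by
    exact_mod_cast (le_max_right x₀ 1).trans hx
  have hL := Lx_pos x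
  rw [le_div_iff₀ (by positivity)]
  refine le_trans ?_ (hx₀ x ((le_max_left _ _).trans hx))
  gcongr
  exact le_max_left _ _

end Pool.Agent.H558.KK
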