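import Pool.Graph.R_pool_sql_team_seeded_35f281b4.K7.H91.SQ.Norm
import Pool.Graph.R_seed8.R836.RD.EX0

set_option autoImplicit false

/-!
# Automorphisms over `kk(D)` act by all classes `1 + 8 a`
-/

namespace Pool.Agent.H558.KK

open PowerSeries Pool.Agent.TH693.QQ Pool.Agent.H397R2.PP
open Pool.Agent.TH693.PP (S)
open Pool.Agent.R836.RD Pool.Agent.K7.H91.SQ

theorem two_OB : (2 : OB) = 0 := by
  have h : (2 : kk) = 0 := CharTwo.two_eq_zero
  have h2 : algebraMap kk OB 2 = 2 := map_ofNat _ 2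
  rw [← h2, h, map_zero]

/-- `Q ^ 2 + Q = X` has no polynomial solution -/
theorem no_poly (Q : Polynomial kk) : Q ^ 2 + Q ≠ Polynomial.X := by
  intro h
  rcases Nat.eq_zero_or_pos Q.natDegree with h0 | h0
  · obtain ⟨a, ha⟩ := Polynomial.natDegree_eq_zero.1 h0
    rw [← ha, ← Polynomial.C_pow, ← Polynomial.C_add] at h
    have h1 := congrArg Polynomial.natDegree h
    rw [Polynomial.natDegree_C, Polynomial.natDegree_X] at h1
    exact zero_ne_one h1
  · have h1 : (Q ^ 2 + Q).natDegree = 2 * Q.natDegree := by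
      rw [Polynomial.natDegree_add_eq_left_of_natDegree_lt]
      · rw [Polynomial.natDegree_pow]
      · rw [Polynomial.natDegree_pow]
        omega
    rw [h, Polynomial.natDegree_X] at h1
    omega

/-- `y ^ 2 + y = D` has no solution in `kk(D)` -/
theorem not_mem {y : OB} (hy : y ^ 2 + y = dB 1 1) :
    y ∉ IntermediateField.adjoin kk {dB 1 1} := by
  intro hm
  have ht : Transcendental kk (dB 1 1) := EX0Aux.trans_D 1 one_ne_zero
  have hi : Ie (dB 1 1) y := by
    apply Ie.quad (y' := y + 1)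
    · have e : y + (y + 1) = 1 := by
        linear_combination y * two_OB
      rw [e]
      exact ie_one _
    · have e : y * (y + 1) = dB 1 1 := by
        rw [← hy]
        ring
      rw [e]
      exact ie_self _
  obtain ⟨Q, hQ⟩ := mem_of_ie ht hm hi
  apply no_poly Q
  have hinj : Function.Injective (Polynomial.aeval (R := kk) (dB 1 1)) :=
    transcendental_iff_injective.1 ht
  apply hinj
  rw [map_add, map_pow, Polynomial.aeval_X, ← hQ, hy]

/-- an automorphism over `kk(D)` that moves a root of `y ^ 2 + y = D` -/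
theorem exists_auto : ∃ (ρ : OB ≃ₐ[kk] OB) (y : OB), ρ (dB 1 1) = dB 1 1 ∧
    y ^ 2 + y = dB 1 1 ∧ ρ y = y + 1 := by
  obtain ⟨y, hy⟩ : ∃ y : OB, y ^ 2 + y = dB 1 1 := by
    obtain ⟨y, hy⟩ := IsAlgClosed.exists_root
      (Polynomial.X ^ 2 + (Polynomial.X - Polynomial.C (dB 1 1)) : Polynomial OB) (by
        have hd : (Polynomial.X ^ 2 + (Polynomial.X - Polynomial.C (dB 1 1)) :
            Polynomial OB).degree = 2 := by
          rw [Polynomial.degree_add_eq_left_of_degree_lt]
          · rw [Polynomial.degree_X_pow]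
            rfl
          · rw [Polynomial.degree_X_sub_C, Polynomial.degree_X_pow]
            norm_num
        rw [hd]
        norm_num)
    refine ⟨y, ?_⟩
    rw [Polynomial.IsRoot.def] at hy
    simp only [Polynomial.eval_add, Polynomial.eval_pow, Polynomial.eval_X, Polynomial.eval_sub,
      Polynomial.eval_C] at hy
    linear_combination hy
  set F := IntermediateField.adjoin kk {dB 1 1} with hF
  have hDF : dB 1 1 ∈ F := IntermediateField.mem_adjoin_simple_self kk _
  set d : F := ⟨dB 1 1, hDF⟩ with hd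
  set p : Polynomial F := Polynomial.X ^ 2 + (Polynomial.X - Polynomial.C d) with hp
  have hpd : p.degree = 2 := by
    rw [hp, Polynomial.degree_add_eq_left_of_degree_lt]
    · rw [Polynomial.degree_X_pow]
      rfl
    · rw [Polynomial.degree_X_sub_C, Polynomial.degree_X_pow]
      norm_num
  have hpn : p.natDegree = 2 := Polynomial.natDegree_eq_of_degree_eq_some hpd
  have hpm : p.Monic := by
    rw [hp]
    apply Polynomial.monic_X_pow_add
    rw [Polynomial.degree_X_sub_C]
    norm_num
  have hroot : ∀ z : OB, Polynomial.aeval z p = z ^ 2 + z - dB 1 1 := by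
    intro z
    rw [hp, map_add, map_sub, map_pow, Polynomial.aeval_X, Polynomial.aeval_C]
    change z ^ 2 + (z - dB 1 1) = _
    ring
  have hpy : Polynomial.aeval y p = 0 := by
    rw [hroot, hy, sub_self]
  have hint : IsIntegral F y := ⟨p, hpm, hpy⟩
  have hpy1 : Polynomial.aeval (y + 1) p = 0 := by
    rw [hroot]
    linear_combination hy + two_OB * (y + 1)
  have hne : y ∉ F := not_mem hy
  have hmin : minpoly F y = p := by
    obtain ⟨q, hq⟩ := minpoly.dvd F y hpy
    have hm := minpoly.monic hint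
    have hq0 : q.Monic := hm.of_mul_monic_left (by rw [← hq]; exact hpm)
    have hdeg : (minpoly F y).natDegree + q.natDegree = 2 := by
      have h4 := congrArg Polynomial.natDegree hq
      rw [hm.natDegree_mul hq0, hpn] at h4
      exact h4.symm
    have h1 : (minpoly F y).natDegree ≠ 1 := by
      intro h1
      have := (minpoly.natDegree_eq_one_iff (A := F) (x := y)).1 h1
      obtain ⟨z, hz⟩ := this
      apply hne
      rw [← hz]
      exact z.2
    have h0 : 0 < (minpoly F y).natDegree := minpoly.natDegree_pos hint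
    have h2 : q.natDegree = 0 := by omega
    have h3 : q = 1 := Polynomial.eq_one_of_monic_natDegree_zero hq0 h2
    rw [hq, h3, mul_one]
  obtain ⟨ρ, h1, h2⟩ := aut F y (y + 1) hint (by rw [hmin]; exact hpy1)
  exact ⟨ρ, y, h1 _ hDF, hy, h2⟩

/-- composition -/
theorem CompT.comp {κ : ℕ} {ρ ρ' : OB ≃ₐ[kk] OB} {u u' : ZMod (2 ^ κ)} {f f' f'' : Om}
    (h : CompT κ ρ u f f') (h' : CompT κ ρ' u' f' f'') : CompT κ (ρ.trans ρ') (u' * u) f f'' := by
  intro γ
  rw [AlgEquiv.trans_apply, h γ, h' (u * γ), mul_assoc]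

theorem exists_pow_auto {κ : ℕ} {ρ : OB ≃ₐ[kk] OB} {u : ZMod (2 ^ κ)}
    (hρ : ρ (dB 1 1) = dB 1 1) (h : CompT κ ρ u (dO 1 1) (dO 1 1)) (n : ℕ) :
    ∃ ρ' : OB ≃ₐ[kk] OB, ρ' (dB 1 1) = dB 1 1 ∧ CompT κ ρ' (u ^ n) (dO 1 1) (dO 1 1) := by
  induction n with
  | zero =>
    refine ⟨AlgEquiv.refl, rfl, fun γ => ?_⟩
    rw [pow_zero, one_mul]
    rfl
  | succ n ih =>
    obtain ⟨ρ', h1, h2⟩ := ih
    refine ⟨ρ'.trans ρ, ?_, ?_⟩
    · rw [AlgEquiv.trans_apply, h1, hρ]
    · rw [pow_succ, mul_comm]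
      exact CompT.comp h2 h

end Pool.Agent.H558.KK
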