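import Pool.Agent.H558.KK.Auto

set_option autoImplicit false

/-!
# Automorphisms over `kk(D)` act by all classes `1 + 8 a`, continued
-/

namespace Pool.Agent.H558.KK

open PowerSeries Pool.Agent.TH693.QQ Pool.Agent.H397R2.PP
open Pool.Agent.TH693.PP (S)
open Pool.Agent.R836.RD Pool.Agent.K7.H91.SQ

/-- powers of a number congruent to 9 modulo 16 -/
theorem nine_pow {h : ℤ} (hh : (16 : ℤ) ∣ h - 9) (m : ℕ) :
    ∃ q : ℤ, Odd q ∧ h ^ 2 ^ m = 1 + 2 ^ (m + 3) * q := by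
  induction m with
  | zero =>
    obtain ⟨z, hz⟩ := hh
    exact ⟨1 + 2 * z, ⟨z, by ring⟩, by rw [pow_zero, pow_one]; linear_combination hz⟩
  | succ m ih =>
    obtain ⟨q, hq, h'⟩ := ih
    refine ⟨q + 2 ^ (m + 2) * q ^ 2, ?_, ?_⟩
    · apply hq.add_even
      rw [pow_succ 2 (m + 1)]
      exact (even_two.mul_left _).mul_right _
    · rw [pow_succ 2 m, pow_mul, h']
      ring

/-- they generate the residues congruent to 1 modulo 8 -/
theorem nine_gen {h : ℤ} (hh : (16 : ℤ) ∣ h - 9) (k : ℕ) (v : ℤ) (hv : (8 : ℤ) ∣ v - 1) :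
    ∃ n : ℕ, (2 ^ k : ℤ) ∣ h ^ n - v := by
  have ho : Odd h := by
    obtain ⟨z, hz⟩ := hh
    exact ⟨4 + 8 * z, by linear_combination hz⟩
  induction k with
  | zero => exact ⟨0, by norm_num⟩
  | succ k ih =>
    rcases Nat.lt_or_ge k 3 with hk | hk
    · refine ⟨0, ?_⟩
      have h8 : (2 ^ (k + 1) : ℤ) ∣ 8 := by
        have : (8 : ℤ) = 2 ^ 3 := by norm_num
        rw [this]
        exact pow_dvd_pow 2 (by omega)
      rw [pow_zero, ← dvd_neg, neg_sub]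
      exact h8.trans hv
    · obtain ⟨m, rfl⟩ : ∃ m, k = m + 3 := ⟨k - 3, by omega⟩
      obtain ⟨q, hq, h3⟩ := nine_pow hh m
      obtain ⟨n, z, hz⟩ := ih
      rcases Int.even_or_odd z with ⟨y, hy⟩ | hz'
      · exact ⟨n, y, by rw [hz, hy]; ring⟩
      · obtain ⟨y, hy⟩ := hz'.add_odd ((ho.pow (n := n)).mul hq)
        refine ⟨n + 2 ^ m, y, ?_⟩
        rw [pow_add, h3]
        have e : (2 : ℤ) ^ (m + 3 + 1) * y = 2 ^ (m + 3) * (y + y) := by ring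
        rw [e, ← hy]
        linear_combination hz

/-- the part at a lower level is a sum of parts -/
theorem prO_low {κ κ' : ℕ} (hκ : κ' ≤ κ) (γ' : ZMod (2 ^ κ')) (f : Om) :
    prO κ' γ' f = ∑ γ : ZMod (2 ^ κ) with
      ZMod.castHom (pow_dvd_pow 2 hκ) (ZMod (2 ^ κ')) γ = γ', prO κ γ f := by
  ext n
  rw [DEL813.prO_coeff, HahnSeries.coeff_sum]
  simp only [DEL813.prO_coeff]
  rw [Finset.sum_ite_eq]
  have h1 : ZMod.castHom (pow_dvd_pow 2 hκ) (ZMod (2 ^ κ')) ((n : ℤ) : ZMod (2 ^ κ)) =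
      ((n : ℤ) : ZMod (2 ^ κ')) := map_intCast _ n
  simp only [Finset.mem_filter, Finset.mem_univ, true_and, h1]

theorem CompT.low {κ κ' : ℕ} (hκ : κ' ≤ κ) {ρ : OB ≃ₐ[kk] OB} {u : ZMod (2 ^ κ)} (hu : IsUnit u)
    {f f' : Om} (h : CompT κ ρ u f f') :
    CompT κ' ρ (ZMod.castHom (pow_dvd_pow 2 hκ) (ZMod (2 ^ κ')) u) f f' := by
  classical
  intro γ'
  set c := ZMod.castHom (pow_dvd_pow 2 hκ) (ZMod (2 ^ κ')) with hc
  rw [prO_low hκ, prO_low hκ, map_sum, map_sum, map_sum, ← hc]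
  have e : ∀ γ : ZMod (2 ^ κ), ρ (io' (prO κ γ f)) = io' (prO κ (u * γ) f') := h
  simp only [e]
  obtain ⟨v, rfl⟩ := hu
  have hcv : IsUnit (c (v : ZMod (2 ^ κ))) := v.isUnit.map c
  refine Finset.sum_bij (fun γ _ => (v : ZMod (2 ^ κ)) * γ) ?_ ?_ ?_ ?_
  · intro γ hγ
    rw [Finset.mem_filter] at hγ ⊢
    refine ⟨Finset.mem_univ _, ?_⟩
    rw [map_mul, hγ.2]
  · intro a _ b _ hab
    exact v.isUnit.mul_left_cancel hab
  · intro b hb
    rw [Finset.mem_filter] at hb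
    refine ⟨((v⁻¹ : (ZMod (2 ^ κ))ˣ) : ZMod (2 ^ κ)) * b, ?_, ?_⟩
    · rw [Finset.mem_filter]
      refine ⟨Finset.mem_univ _, ?_⟩
      apply hcv.mul_left_cancel
      rw [← map_mul, Units.mul_inv_cancel_left, hb.2]
    · rw [Units.mul_inv_cancel_left]
  · intro a _
    rfl

/-- the theta functions modulo 8 -/
theorem th8 : ∃ a b : (ZMod 2)⟦X⟧, a + b = Db ∧ a * b = Db ^ 10 ∧
    prO 4 1 (dO 1 1) = ev 1 1 a ∧ prO 4 9 (dO 1 1) = ev 1 1 b ∧ coeff 1 a = 1 ∧ coeff 1 b = 0 := by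
  have hq := D1.qd1
  have e3 : (8 : ℕ) = 2 ^ 3 := by norm_num
  have hadd : th 8 1 + th 8 5 = Db := by
    have h1 := hq.split 2 1 odd_one
    norm_num at h1
    rw [h1]
    exact hq.four 1 odd_one
  have hmul : th 8 1 * th 8 5 = Db ^ 10 := by
    have h1 := hq.prod 2 1 le_rfl odd_one
    norm_num at h1
    rw [h1, hq.four 3 (by decide)]
    ring
  have c1 : coeff 1 (th 8 1) = 1 := by
    rw [D1.coeff_th _ _ 1 1 le_rfl]
    decide
  have c5 : coeff 1 (th 8 5) = 0 := by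
    rw [D1.coeff_th _ _ 1 1 le_rfl]
    decide
  have s1 : ∀ n : ℤ, (ev 1 1 (th 8 1)).coeff n ≠ 0 → (n : ZMod (2 ^ 4)) = 1 := by
    intro n hn
    have h1 := ev_th_supp 1 one_ne_zero 1 1 n hn
    rw [h1]
    norm_num
  have s5 : ∀ n : ℤ, (ev 1 1 (th 8 5)).coeff n ≠ 0 → (n : ZMod (2 ^ 4)) = 9 := by
    intro n hn
    have h1 := ev_th_supp 1 one_ne_zero 1 5 n hn
    rw [h1]
    decide
  have hd : dO 1 1 = ev 1 1 (th 8 1) + ev 1 1 (th 8 5) := by
    unfold dO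
    rw [← map_add, hadd]
  refine ⟨th 8 1, th 8 5, hadd, hmul, ?_, ?_, c1, c5⟩
  · rw [hd, DEL813.prO_add, prO_single_class 4 1 1 _ s1, prO_single_class 4 1 9 _ s5, if_pos rfl,
      if_neg (by decide), add_zero]
  · rw [hd, DEL813.prO_add, prO_single_class 4 9 1 _ s1, prO_single_class 4 9 9 _ s5, if_pos rfl,
      if_neg (by decide), zero_add]

/-- every class congruent to 1 modulo 8 is the multiplier of an automorphism -/
theorem auto_all (m : ℕ) (a : ℤ) : ∃ ρ : OB ≃ₐ[kk] OB, ρ (dB 1 1) = dB 1 1 ∧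
    CompT (m + 4) ρ ((1 + 8 * a : ℤ) : ZMod (2 ^ (m + 4))) (dO 1 1) (dO 1 1) := by
  obtain ⟨ρ, y, hρ, hy, hρy⟩ := exists_auto
  obtain ⟨A, B, hAB, hAB', hA, hB, cA, cB⟩ := th8
  set φ : (ZMod 2)⟦X⟧ →+* OB := io'.comp (ev 1 1) with hφ
  have hφD : φ Db = dB 1 1 := rfl
  have hφi : Function.Injective φ := by
    rw [injective_iff_map_eq_zero]
    intro f hf
    rw [hφ, RingHom.comp_apply, _root_.map_eq_zero] at hf
    ext n
    have h1 : (ev 1 1 f).coeff ((1 * n : ℕ) : ℤ) = 0 := by rw [hf]; rfl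
    rw [ev_coeff' 1 one_ne_zero, if_neg (by omega), if_pos (one_dvd _), Int.natAbs_natCast,
      Nat.div_one, one_mul, one_pow, one_mul, _root_.map_eq_zero] at h1
    rw [h1, map_zero]
  have h2 := two_OB
  have e1 : φ A + φ B = dB 1 1 := by rw [← map_add, hAB, hφD]
  have e2 : φ A * φ B = dB 1 1 ^ 10 := by rw [← map_mul, hAB', map_pow, hφD]
  have key : (φ A - dB 1 1 * (1 + y) ^ 8) * (φ A - dB 1 1 * y ^ 8) = 0 := by
    have p8 : (1 + y) ^ 8 = 1 + y ^ 8 := by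
      have : (1 + y) ^ 8 = 1 + y ^ 8 + 2 * (4 * y + 14 * y ^ 2 + 28 * y ^ 3 + 35 * y ^ 4 +
        28 * y ^ 5 + 14 * y ^ 6 + 4 * y ^ 7) := by ring
      rw [this, h2, zero_mul, add_zero]
    have p9 : (1 + y ^ 8) * y ^ 8 = dB 1 1 ^ 8 := by
      rw [← p8, ← mul_pow, ← hy]
      ring
    have e3 : φ B = dB 1 1 - φ A := by linear_combination e1
    rw [e3] at e2
    rw [p8]
    linear_combination -e2 + dB 1 1 ^ 2 * p9 - φ A * dB 1 1 * y ^ 8 * h2
  have hswap : ρ (φ A) = φ B := by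
    rcases mul_eq_zero.1 key with h | h
    · have h' : φ A = dB 1 1 * (1 + y) ^ 8 := sub_eq_zero.1 h
      have h3 : φ B = dB 1 1 * y ^ 8 := by
        have p8 : (1 + y) ^ 8 = 1 + y ^ 8 := by
          have : (1 + y) ^ 8 = 1 + y ^ 8 + 2 * (4 * y + 14 * y ^ 2 + 28 * y ^ 3 + 35 * y ^ 4 +
            28 * y ^ 5 + 14 * y ^ 6 + 4 * y ^ 7) := by ring
          rw [this, h2, zero_mul, add_zero]
        rw [p8] at h'
        linear_combination e1 - h' - dB 1 1 * y ^ 8 * h2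
      rw [h', h3, map_mul, map_pow, map_add, map_one, hρ, hρy]
      congr 2
      linear_combination h2
    · have h' : φ A = dB 1 1 * y ^ 8 := sub_eq_zero.1 h
      have h3 : φ B = dB 1 1 * (y + 1) ^ 8 := by
        have p8 : (y + 1) ^ 8 = 1 + y ^ 8 := by
          have : (y + 1) ^ 8 = 1 + y ^ 8 + 2 * (4 * y + 14 * y ^ 2 + 28 * y ^ 3 + 35 * y ^ 4 +
            28 * y ^ 5 + 14 * y ^ 6 + 4 * y ^ 7) := by ring
          rw [this, h2, zero_mul, add_zero]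
        rw [p8]
        linear_combination e1 - h' - dB 1 1 * y ^ 8 * h2
      rw [h', h3, map_mul, map_pow, hρ, hρy]
  have hne : φ A ≠ φ B := by
    intro h
    have h3 := hφi h
    rw [h3, cB] at cA
    exact zero_ne_one cA
  -- the class of the automorphism
  obtain ⟨g, hg, hcomp⟩ := act_part 1 one_ne_zero 1 (m + 1) ρ one_ne_zero hρ
  have hun : IsUnit ((g : ZMod (2 ^ (m + 1 + 3))) ^ 2) := (isUnit_odd _ hg).pow 2
  have h4 := CompT.low (show 4 ≤ m + 1 + 3 by omega) hun hcomp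
  have h5 := h4 1
  rw [hA, mul_one] at h5
  have h6 : ZMod.castHom (pow_dvd_pow 2 (show 4 ≤ m + 1 + 3 by omega)) (ZMod (2 ^ 4))
      ((g : ZMod (2 ^ (m + 1 + 3))) ^ 2) = ((g ^ 2 : ℤ) : ZMod (2 ^ 4)) := by
    rw [map_pow, map_intCast]
    push_cast
    rfl
  rw [h6] at h5
  have hg16 : (16 : ℤ) ∣ g ^ 2 - 1 ∨ (16 : ℤ) ∣ g ^ 2 - 9 := by
    obtain ⟨d, hd⟩ := hg
    have h8 : d % 4 = 0 ∨ d % 4 = 1 ∨ d % 4 = 2 ∨ d % 4 = 3 := by omega
    have hd4 : d = 4 * (d / 4) + d % 4 := by omega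
    rcases h8 with h | h | h | h
    · left
      rw [h] at hd4
      exact ⟨d / 4 * (4 * (d / 4) + 1), by rw [hd]; generalize d / 4 = z at *; subst hd4; ring⟩
    · right
      rw [h] at hd4
      exact ⟨4 * (d / 4) ^ 2 + 3 * (d / 4), by rw [hd]; generalize d / 4 = z at *; subst hd4; ring⟩
    · right
      rw [h] at hd4
      exact ⟨4 * (d / 4) ^ 2 + 5 * (d / 4) + 1, by
        rw [hd]; generalize d / 4 = z at *; subst hd4; ring⟩
    · left
      rw [h] at hd4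
      exact ⟨4 * (d / 4) ^ 2 + 7 * (d / 4) + 3, by
        rw [hd]; generalize d / 4 = z at *; subst hd4; ring⟩
  have h9 : (16 : ℤ) ∣ g ^ 2 - 9 := by
    rcases hg16 with h | h
    · exfalso
      have h7 : ((g ^ 2 : ℤ) : ZMod (2 ^ 4)) = 1 := by
        have := (ZMod.intCast_zmod_eq_zero_iff_dvd (g ^ 2 - 1) 16).2 (by exact_mod_cast h)
        push_cast at this ⊢
        exact sub_eq_zero.1 this
      rw [h7, hA] at h5
      exact hne (h5.symm.trans hswap)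
    · exact h
  obtain ⟨n, hn⟩ := nine_gen h9 (m + 4) (1 + 8 * a) ⟨a, by ring⟩
  obtain ⟨ρ', hρ', hc'⟩ := exists_pow_auto hρ hcomp n
  refine ⟨ρ', hρ', ?_⟩
  have h10 : ((1 + 8 * a : ℤ) : ZMod (2 ^ (m + 4))) = ((g : ZMod (2 ^ (m + 1 + 3))) ^ 2) ^ n := by
    have h11 := (ZMod.intCast_zmod_eq_zero_iff_dvd ((g ^ 2) ^ n - (1 + 8 * a)) (2 ^ (m + 4))).2
      (by exact_mod_cast hn)
    push_cast at h11 ⊢
    exact (sub_eq_zero.1 h11).symm
  rw [h10]
  exact hc'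

end Pool.Agent.H558.KK
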