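import Mathlib

set_option autoImplicit false

/-!
# Lines in all directions modulo `2 ^ l`
-/

namespace Pool.Agent.H558.KK

open Finset

/-- multiples of `2 ^ i` below `2 ^ l` -/
theorem card_mult {l i : ℕ} (hi : i ≤ l) : #{a ∈ range (2 ^ l) | 2 ^ i ∣ a} ≤ 2 ^ (l - i) := by
  have hp : 0 < 2 ^ i := by positivity
  have e : 2 ^ l = 2 ^ i * 2 ^ (l - i) := by rw [← pow_add]; congr 1; omega
  calc _ ≤ #(range (2 ^ (l - i))) := by
        refine card_le_card_of_injOn (fun a => a / 2 ^ i) ?_ ?_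
        · intro a ha
          rw [mem_coe, mem_filter, mem_range] at ha
          rw [mem_coe, mem_range]
          rw [e] at ha
          exact Nat.div_lt_of_lt_mul ha.1
        · intro a ha b hb h
          rw [mem_coe, mem_filter] at ha hb
          simp only at h
          rw [← Nat.div_mul_cancel ha.2, ← Nat.div_mul_cancel hb.2, h]
    _ = 2 ^ (l - i) := card_range _

/-- factors of multiples of `2 ^ l` -/
theorem split_two {l a s : ℕ} (h : 2 ^ l ∣ a * s) : ∃ i ≤ l, 2 ^ i ∣ a ∧ 2 ^ (l - i) ∣ s := by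
  obtain ⟨d1, d2, h1, h2, h3⟩ := exists_dvd_and_dvd_of_dvd_mul h
  have h4 : d1 ∣ 2 ^ l := Dvd.intro _ h3.symm
  obtain ⟨i, hi, rfl⟩ := (Nat.dvd_prime_pow Nat.prime_two).1 h4
  refine ⟨i, hi, h1, ?_⟩
  have e : 2 ^ l = 2 ^ i * 2 ^ (l - i) := by rw [← pow_add]; congr 1; omega
  rw [e] at h3
  have h5 := Nat.eq_of_mul_eq_mul_left (show 0 < 2 ^ i by positivity) h3
  rw [h5]
  exact h2

theorem card_pairs (l : ℕ) :
    #{p ∈ range (2 ^ l) ×ˢ range (2 ^ l) | 2 ^ l ∣ p.1 * p.2} ≤ (l + 1) * 2 ^ l := by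
  calc _ ≤ #((range (l + 1)).biUnion fun i =>
        {a ∈ range (2 ^ l) | 2 ^ i ∣ a} ×ˢ {a ∈ range (2 ^ l) | 2 ^ (l - i) ∣ a}) := by
        refine card_le_card fun p hp => ?_
        rw [mem_filter, mem_product] at hp
        obtain ⟨⟨h1, h2⟩, h3⟩ := hp
        obtain ⟨i, hi, h4, h5⟩ := split_two h3
        rw [mem_biUnion]
        refine ⟨i, mem_range.2 (by omega), ?_⟩
        rw [mem_product, mem_filter, mem_filter]
        exact ⟨⟨h1, h4⟩, h2, h5⟩
    _ ≤ ∑ i ∈ range (l + 1), #({a ∈ range (2 ^ l) | 2 ^ i ∣ a} ×ˢ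
        {a ∈ range (2 ^ l) | 2 ^ (l - i) ∣ a}) := card_biUnion_le
    _ ≤ ∑ i ∈ range (l + 1), 2 ^ l := by
        refine sum_le_sum fun i hi => ?_
        rw [mem_range] at hi
        rw [card_product]
        calc _ ≤ 2 ^ (l - i) * 2 ^ (l - (l - i)) :=
              Nat.mul_le_mul (card_mult (by omega)) (card_mult (by omega))
          _ = 2 ^ l := by rw [← pow_add]; congr 1; omega
    _ = (l + 1) * 2 ^ l := by rw [sum_const, card_range, smul_eq_mul]

/-- the number of the pairs with product 0 -/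
theorem card_ann (l : ℕ) : ∑ a : ZMod (2 ^ l), #{s : ZMod (2 ^ l) | a * s = 0} ≤ (l + 1) * 2 ^ l := by
  have e : ∑ a : ZMod (2 ^ l), #{s : ZMod (2 ^ l) | a * s = 0} =
      #{p : ZMod (2 ^ l) × ZMod (2 ^ l) | p.1 * p.2 = 0} := by
    simp only [card_filter]
    rw [← univ_product_univ, sum_product]
  rw [e]
  refine le_trans ?_ (card_pairs l)
  refine card_le_card_of_injOn (fun p => (p.1.val, p.2.val)) ?_ ?_
  · intro p hp
    rw [mem_coe, mem_filter] at hp
    rw [mem_coe, mem_filter, mem_product, mem_range, mem_range]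
    refine ⟨⟨ZMod.val_lt _, ZMod.val_lt _⟩, ?_⟩
    rw [← ZMod.natCast_eq_zero_iff]
    push_cast
    rw [ZMod.natCast_zmod_val, ZMod.natCast_zmod_val]
    exact hp.2
  · intro p _ q _ h
    simp only [Prod.mk.injEq] at h
    exact Prod.ext (ZMod.val_injective _ h.1) (ZMod.val_injective _ h.2)

theorem card_sol_le {R : Type*} [CommRing R] [Fintype R] [DecidableEq R] (a b : R) :
    #{s : R | a * s = b} ≤ #{s : R | a * s = 0} := by
  rcases ({s : R | a * s = b} : Finset R).eq_empty_or_nonempty with h | ⟨s0, h⟩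
  · rw [h, card_empty]
    exact Nat.zero_le _
  · rw [mem_filter] at h
    refine card_le_card_of_injOn (fun s => s - s0) ?_ ?_
    · intro s hs
      rw [mem_coe, mem_filter] at hs
      rw [mem_coe, mem_filter]
      refine ⟨mem_univ _, ?_⟩
      rw [mul_sub, hs.2, h.2, sub_self]
    · intro s _ s' _ h
      exact sub_left_injective h

/-- the number of the pairs of lines that meet over `s` -/
def NN2 (l : ℕ) (r : ZMod (2 ^ l) → ZMod (2 ^ l)) (s : ZMod (2 ^ l)) : ℕ :=
  #{p : ZMod (2 ^ l) × ZMod (2 ^ l) | p.1 * s + r p.1 = p.2 * s + r p.2}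

theorem sum_NN2 (l : ℕ) (r : ZMod (2 ^ l) → ZMod (2 ^ l)) :
    ∑ s : ZMod (2 ^ l), NN2 l r s ≤ (l + 1) * (2 ^ l) ^ 2 := by
  unfold NN2
  have e : ∑ s : ZMod (2 ^ l), #{p : ZMod (2 ^ l) × ZMod (2 ^ l) | p.1 * s + r p.1 = p.2 * s + r p.2} =
      ∑ p : ZMod (2 ^ l) × ZMod (2 ^ l), #{s : ZMod (2 ^ l) | (p.1 - p.2) * s = r p.2 - r p.1} := by
    simp only [card_filter]
    rw [sum_comm]
    refine sum_congr rfl fun p _ => sum_congr rfl fun s _ => ?_
    have : (p.1 * s + r p.1 = p.2 * s + r p.2) ↔ ((p.1 - p.2) * s = r p.2 - r p.1) := by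
      constructor
      · intro h
        linear_combination h
      · intro h
        linear_combination h
    simp only [this]
  rw [e]
  calc _ ≤ ∑ p : ZMod (2 ^ l) × ZMod (2 ^ l), #{s : ZMod (2 ^ l) | (p.1 - p.2) * s = 0} :=
        sum_le_sum fun p _ => card_sol_le _ _
    _ = ∑ b : ZMod (2 ^ l), ∑ a : ZMod (2 ^ l), #{s : ZMod (2 ^ l) | (a - b) * s = 0} := by
        rw [← univ_product_univ, sum_product, sum_comm]
    _ = ∑ _b : ZMod (2 ^ l), ∑ a : ZMod (2 ^ l), #{s : ZMod (2 ^ l) | a * s = 0} := by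
        refine sum_congr rfl fun b _ => ?_
        exact Fintype.sum_equiv (Equiv.subRight b) _ _ fun a => rfl
    _ ≤ ∑ _b : ZMod (2 ^ l), (l + 1) * 2 ^ l := sum_le_sum fun _ _ => card_ann l
    _ = (l + 1) * (2 ^ l) ^ 2 := by
        rw [sum_const, card_univ, ZMod.card, smul_eq_mul]
        ring

/-- the inequality of Cauchy and Schwarz for the fibres of a map -/
theorem cs_image {α β : Type*} [Fintype α] [DecidableEq α] [DecidableEq β] (f : α → β) :
    (Fintype.card α) ^ 2 ≤ #(univ.image f) * #{p : α × α | f p.1 = f p.2} := by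
  have h1 : Fintype.card α = ∑ b ∈ univ.image f, #{a : α | f a = b} := by
    rw [← card_univ]
    exact card_eq_sum_card_image f univ
  have h2 : #{p : α × α | f p.1 = f p.2} = ∑ b ∈ univ.image f, #{a : α | f a = b} ^ 2 := by
    have h3 : ∀ p ∈ ({p : α × α | f p.1 = f p.2} : Finset (α × α)), f p.1 ∈ univ.image f :=
      fun p _ => mem_image_of_mem f (mem_univ _)
    rw [card_eq_sum_card_fiberwise h3]
    refine sum_congr rfl fun b _ => ?_
    rw [sq, ← card_product]
    congr 1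
    ext p
    simp only [mem_filter, mem_univ, true_and, mem_product]
    constructor
    · rintro ⟨h4, h5⟩
      exact ⟨h5, by rw [← h4]; exact h5⟩
    · rintro ⟨h4, h5⟩
      exact ⟨h4.trans h5.symm, h4⟩
  rw [h1, h2]
  exact sq_sum_le_card_mul_sum_sq

end Pool.Agent.H558.KK
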