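import Pool.Agent.H558.KK.Line
import Pool.Agent.H558.KK.Comb
import Pool.Graph.R_pool_sql_team_seeded_35f281b4.K7.H91.SQ.Fin1

set_option autoImplicit false

/-!
# The growth of the number of good sections over one block of digits
-/

namespace Pool.Agent.H558.KK

open PowerSeries Finset
open Pool.Agent.K7.H72.MT hiding W
open Pool.Agent.K7.H91.SQ (dl qq dl_val)

/-- some coefficient with index less than `V` is nonzero -/
def Gv (V : ℕ) (U : S) : Prop := ∃ i < V, coeff i U ≠ 0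

theorem Gv.mono {V V' : ℕ} {U : S} (h : Gv V U) (hV : V ≤ V') : Gv V' U := by
  obtain ⟨i, h1, h2⟩ := h
  exact ⟨i, by omega, h2⟩

open scoped Classical in
/-- the number of the good elements -/
noncomputable def gv (V : ℕ) (L : List El) : ℕ := (L.map fun x => if Gv V x.1 then 1 else 0).sum

open scoped Classical in
/-- the number of the good sections of one element -/
noncomputable def nv (V l s : ℕ) (U : S) : ℕ := #{β ∈ range (2 ^ l) | Gv V (node P2 l β s U)}

open scoped Classical in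
theorem nv_zero (V s : ℕ) (U : S) : nv V 0 s U = if Gv V U then 1 else 0 := by
  unfold nv
  rw [pow_zero, range_one, filter_singleton]
  by_cases h : Gv V U
  · have h' : Gv V (node P2 0 0 s U) := h
    rw [if_pos h', if_pos h, card_singleton]
  · have h' : ¬ Gv V (node P2 0 0 s U) := h
    rw [if_neg h', if_neg h, card_empty]

theorem nv_succ (V l s : ℕ) (U : S) : nv V (l + 1) s U =
    nv V l (s / 2) (step P2 0 (s % 2) U) + nv V l (s / 2) (step P2 1 (s % 2) U) := by
  classical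
  unfold nv
  rw [pow_succ', card_split]
  congr 2
  · refine filter_congr fun β _ => ?_
    rw [node, Nat.mul_div_cancel_left _ (by norm_num), Nat.mul_mod_right]
  · refine filter_congr fun β _ => ?_
    rw [node, show (2 * β + 1) / 2 = β by omega, show (2 * β + 1) % 2 = 1 by omega]

theorem gv_nil (V : ℕ) : gv V [] = 0 := by simp [gv]

theorem gv_cons (V : ℕ) (x : El) (L : List El) : gv V (x :: L) = nv V 0 0 x.1 + gv V L := by
  rw [nv_zero]
  simp [gv]

theorem gv_desc (V l : ℕ) : ∀ (L : List El) (s : ℕ),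
    gv V (desc P2 l L s) = (L.map fun x => nv V l s x.1).sum := by
  induction l with
  | zero =>
    intro L s
    simp only [nv_zero, desc, gv]
  | succ l ih =>
    intro L s
    rw [desc, ih]
    induction L with
    | nil => simp [ch]
    | cons x L ihL =>
      have e1 : ch P2 (s % 2) (x :: L) = (step P2 0 (s % 2) x.1, fun n => x.2.1 (2 * n),
        fun n => x.2.2 (2 * n)) :: (step P2 1 (s % 2) x.1, fun n => x.2.1 (2 * n + 1),
        fun n => x.2.2 (2 * n + 1)) :: ch P2 (s % 2) L := by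
        simp [ch]
      rw [e1, List.map_cons, List.map_cons, List.sum_cons, List.sum_cons, ihL, List.map_cons,
        List.sum_cons, nv_succ]
      ring

theorem gv_desc_cons (V l s : ℕ) (x : El) (L : List El) :
    gv V (desc P2 l (x :: L) s) = nv V l s x.1 + gv V (desc P2 l L s) := by
  rw [gv_desc, gv_desc, List.map_cons, List.sum_cons]

/-- the bound for the exponents -/
theorem BB_le (m : ℕ) : BB m ≤ 8 * (4 * (2 ^ (m + 1)) ^ 4) := by
  have h := dl_val (m + 1)
  have e : m + 1 + 3 = m + 4 := rfl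
  rw [e] at h
  have h1 : dl qq (m + 4) ≤ 4 * 4 ^ (m + 1) := by
    have : 1 ≤ 4 ^ (m + 1) := Nat.one_le_pow _ _ (by norm_num)
    omega
  unfold BB
  calc 2 ^ (m + 4) * (2 ^ (m + 1) * dl qq (m + 4)) ≤
      2 ^ (m + 4) * (2 ^ (m + 1) * (4 * 4 ^ (m + 1))) := by gcongr
    _ = 8 * (4 * (2 ^ (m + 1)) ^ 4) := by
        have e4 : 4 ^ (m + 1) = (2 ^ (m + 1)) ^ 2 := by
          rw [← pow_mul, mul_comm (m + 1) 2, pow_mul]
          norm_num
        rw [e4]
        ring

theorem exists_low' {V : ℕ} {U : S} (hU : Gv V U) :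
    ∃ v < V, (∀ i < v, coeff i U = 0) ∧ coeff 0 (unsh v U) = 1 := by
  classical
  obtain ⟨i, h1, h2⟩ := hU
  have hex : ∃ i, coeff i U ≠ 0 := ⟨i, h2⟩
  refine ⟨Nat.find hex, (Nat.find_min' hex h2).trans_lt h1, fun j hj => ?_, ?_⟩
  · have := Nat.find_min hex hj
    push Not at this
    exact this
  · rw [unsh, coeff_mk, zero_add]
    exact eq_one_of_ne (Nat.find_spec hex)

/-- good sections on a line in every direction -/
theorem line_node {m V V' : ℕ} (hV : V + 4 * (2 ^ (m + 1)) ^ 4 ≤ 2 ^ (m + 1) * V') {U : S}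
    (hU : Gv V U) (c : ZMod (2 ^ (m + 1))) : ∃ r : ZMod (2 ^ (m + 1)), ∀ s : ZMod (2 ^ (m + 1)),
      Gv V' (node P2 (m + 1) (c * s + r).val s.val U) := by
  obtain ⟨v, hvV, hv0, hv1⟩ := exists_low' hU
  obtain ⟨c', rfl⟩ := ZMod.intCast_surjective c
  obtain ⟨r, hr⟩ := line_P m (unsh v U) hv1 c'
  refine ⟨((r + v : ℤ) : ZMod (2 ^ (m + 1))), fun s => ?_⟩
  obtain ⟨n, h1, h2, h3⟩ := hr s.val
  have hn : n ≤ 4 * (2 ^ (m + 1)) ^ 4 := by
    have := h1.trans (BB_le m)
    omega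
  have h4 : coeff (n + v) (U * P2 ^ s.val) ≠ 0 := by
    rw [unsh_mul hv0]
    exact h3
  have hL : 0 < 2 ^ (m + 1) := by positivity
  have h5 : ((c' : ZMod (2 ^ (m + 1))) * s + ((r + v : ℤ) : ZMod (2 ^ (m + 1)))).val =
      (n + v) % 2 ^ (m + 1) := by
    have h6 : (c' : ZMod (2 ^ (m + 1))) * s + ((r + v : ℤ) : ZMod (2 ^ (m + 1))) =
        ((n + v : ℕ) : ZMod (2 ^ (m + 1))) := by
      have h7 : (((c' * s.val + r : ℤ)) : ZMod (2 ^ (m + 1))) = ((n : ℤ) : ZMod (2 ^ (m + 1))) := by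
        rw [ZMod.intCast_eq_intCast_iff_dvd_sub]
        push_cast
        exact h2
      push_cast at h7 ⊢
      rw [ZMod.natCast_zmod_val] at h7
      rw [← h7]
      ring
    rw [h6, ZMod.val_natCast]
  rw [h5]
  refine ⟨(n + v) / 2 ^ (m + 1), ?_, ?_⟩
  · apply Nat.div_lt_of_lt_mul
    omega
  · have h8 := coeff_node P2 (m + 1) ((n + v) % 2 ^ (m + 1)) s.val ((n + v) / 2 ^ (m + 1)) U
      (Nat.mod_lt _ hL)
    rw [Nat.mod_add_div, Nat.div_eq_of_lt (ZMod.val_lt s), pow_zero, mul_one] at h8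
    rw [← h8]
    exact h4

/-- one element -/
theorem one_elem {m V V' : ℕ} (hV : V + 4 * (2 ^ (m + 1)) ^ 4 ≤ 2 ^ (m + 1) * V') {U : S}
    (hU : Gv V U) : ∃ N : ℕ → ℕ, (∀ s < 2 ^ (m + 1), (2 ^ (m + 1)) ^ 2 ≤ nv V' (m + 1) s U * N s) ∧
      ∑ s ∈ range (2 ^ (m + 1)), N s ≤ (m + 2) * (2 ^ (m + 1)) ^ 2 := by
  classical
  choose r hr using line_node hV hU
  refine ⟨fun s => NN2 (m + 1) r (s : ZMod (2 ^ (m + 1))), fun s hs => ?_, ?_⟩
  · set z : ZMod (2 ^ (m + 1)) := (s : ZMod (2 ^ (m + 1))) with hz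
    have hzv : z.val = s := ZMod.val_cast_of_lt hs
    have h1 := cs_image (fun c : ZMod (2 ^ (m + 1)) => c * z + r c)
    rw [ZMod.card] at h1
    refine h1.trans (Nat.mul_le_mul ?_ le_rfl)
    unfold nv
    refine card_le_card_of_injOn ZMod.val ?_ (fun a _ b _ h => ZMod.val_injective _ h)
    intro b hb
    rw [mem_coe, mem_image] at hb
    obtain ⟨c, -, rfl⟩ := hb
    rw [mem_coe, mem_filter, mem_range]
    refine ⟨ZMod.val_lt _, ?_⟩
    have h2 := hr c z
    rw [hzv] at h2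
    exact h2
  · have h1 := sum_NN2 (m + 1) r
    refine le_trans (le_of_eq ?_) h1
    rw [← Pool.Agent.K7.H91.SQ.sum_val (2 ^ (m + 1))
      (fun s => NN2 (m + 1) r (s : ZMod (2 ^ (m + 1))))]
    refine sum_congr rfl fun s _ => ?_
    rw [ZMod.natCast_zmod_val]

theorem cs_add {p P a A b B : ℕ} (h1 : p ^ 2 ≤ a * b) (h2 : P ^ 2 ≤ A * B) :
    (p + P) ^ 2 ≤ (a + A) * (b + B) := by
  have h3 : (2 * (p * P)) ^ 2 ≤ (a * B + A * b) ^ 2 := by
    calc (2 * (p * P)) ^ 2 = 4 * (p ^ 2 * P ^ 2) := by ring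
      _ ≤ 4 * ((a * b) * (A * B)) := by gcongr
      _ = 4 * ((a * B) * (A * b)) := by ring
      _ ≤ (a * B + A * b) ^ 2 := by
          zify
          nlinarith [sq_nonneg ((a : ℤ) * B - A * b)]
  have h4 : 2 * (p * P) ≤ a * B + A * b := (Nat.pow_le_pow_iff_left (by norm_num)).1 h3
  nlinarith

/-- all elements -/
theorem all_elem {m V V' : ℕ} (hV : V + 4 * (2 ^ (m + 1)) ^ 4 ≤ 2 ^ (m + 1) * V') (L : List El) :
    ∃ N : ℕ → ℕ, (∀ s < 2 ^ (m + 1), (2 ^ (m + 1) * gv V L) ^ 2 ≤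
      gv V' (desc P2 (m + 1) L s) * N s) ∧
      ∑ s ∈ range (2 ^ (m + 1)), N s ≤ (m + 2) * (2 ^ (m + 1)) ^ 2 * gv V L := by
  classical
  induction L with
  | nil =>
    refine ⟨fun _ => 0, fun s _ => ?_, ?_⟩
    · rw [gv_nil]
      simp
    · simp
  | cons x L ih =>
    obtain ⟨N, h1, h2⟩ := ih
    by_cases hx : Gv V x.1
    · obtain ⟨N', h3, h4⟩ := one_elem hV hx
      have e1 : nv V 0 0 x.1 = 1 := by rw [nv_zero, if_pos hx]
      refine ⟨fun s => N' s + N s, fun s hs => ?_, ?_⟩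
      · rw [gv_cons, gv_desc_cons, e1, mul_add, mul_one]
        exact cs_add (h3 s hs) (h1 s hs)
      · rw [sum_add_distrib, gv_cons, e1, mul_add, mul_one]
        exact add_le_add h4 h2
    · have e1 : nv V 0 0 x.1 = 0 := by rw [nv_zero, if_neg hx]
      refine ⟨N, fun s hs => ?_, ?_⟩
      · rw [gv_cons, gv_desc_cons, e1, zero_add]
        refine (h1 s hs).trans (Nat.mul_le_mul ?_ le_rfl)
        exact Nat.le_add_left _ _
      · rw [gv_cons, e1, zero_add]
        exact h2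

end Pool.Agent.H558.KK
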