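import Pool.Agent.H558.KK.Ae

set_option autoImplicit false

/-!
# The dimension of the exceptional sets
-/

namespace Pool.Agent.H558.KK

open PowerSeries Finset MeasureTheory Pool.Agent.R836.PP
open Pool.Agent.K7.H72.MT hiding W few dis DD dis_stable dis_vary DD_stable DD_sum DD_block few_bad dis_le DD_le base count Bd

/-- the exceptional set of one pattern -/
def Bd (M ρ : ℕ) {L : ℕ} (c : Fin (L + 1) → ZMod 2) (w : ℕ → ZMod 2) (ε D : ℝ) : Set ℤ_[2] :=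
  {t | t.appr 1 = 1 ∧ ¬ ∃ x₀ : ℕ, ∀ x : ℕ, x₀ ≤ x → D * (x : ℝ) ^ (1 - ε) ≤ cntZ M ρ c w t x}

theorem dim_gen {M ρ L : ℕ} {c : Fin (L + 1) → ZMod 2} {w : ℕ → ZMod 2} {a C : ℝ} (ha : 0 < a)
    (hC : 0 < C) (hb : ∀ K x : ℕ, 1 ≤ x → x < 2 ^ K → ∀ Y : ℝ, 1 ≤ Y → Y ≤ x →
      (#{t ∈ range (2 ^ K) | t % 2 = 1 ∧ (cntP M ρ c w t x : ℝ) < x / Y} : ℝ) ≤
        C * 2 ^ K * ((lam (Nat.log 2 x) : ℝ) / Y) ^ a) {ε D s : ℝ} (hε : 0 < ε) (hε1 : ε ≤ 1)
    (hD : 1 ≤ D) (hs : 0 < s) (hs1 : 1 - ε * a < s) :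
    dimH (Bd M ρ c w ε D) ≤ ENNReal.ofReal s := by
  classical
  set δ : ℝ := (s - (1 - ε * a)) / 2 with hδ
  have hδ0 : 0 < δ := by
    rw [hδ]
    linarith
  obtain ⟨Cl, hCl, hlam⟩ := lam_exp (ε := δ / a) (by positivity)
  -- the first scale
  obtain ⟨j0, hj0⟩ : ∃ j0 : ℕ, ∀ j : ℕ, j0 ≤ j → 2 * D ≤ 2 ^ (ε * (j : ℝ)) := by
    have h1 : Filter.Tendsto (fun j : ℕ => (2 : ℝ) ^ (ε * j)) Filter.atTop Filter.atTop := by
      have h2 := tendsto_pow_atTop_atTop_of_one_lt (show (1 : ℝ) < 2 ^ ε from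
        Real.one_lt_rpow (by norm_num) hε)
      refine h2.congr fun j => ?_
      rw [← Real.rpow_natCast, ← Real.rpow_mul (by norm_num)]
    exact Filter.eventually_atTop.1 (h1.eventually_ge_atTop (2 * D))
  refine dim_limsup (E := fun K => {t ∈ range (2 ^ K) | t % 2 = 1 ∧
      (cntP M ρ c w t (2 ^ (K - 2)) : ℝ) <
        ((2 ^ (K - 2) : ℕ) : ℝ) / (2 ^ (ε * ((K - 2 : ℕ) : ℝ)) / (2 * D))})
    (C := C * (Cl * (2 * D)) ^ a * (4 * 2 ^ (2 * |s - δ|))) (δ := δ) (K₀ := j0 + 2) hs hδ0 (by positivity) ?_ ?_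
  · intro K hK
    obtain ⟨j, rfl⟩ : ∃ j, K = j + 2 := ⟨K - 2, by omega⟩
    rw [Nat.add_sub_cancel]
    have h1 := hj0 j (by omega)
    have h2 := hb (j + 2) (2 ^ j) Nat.one_le_two_pow (Nat.pow_lt_pow_right (by norm_num) (by omega))
      (2 ^ (ε * (j : ℝ)) / (2 * D)) (by rwa [le_div_iff₀ (by positivity), one_mul]) (by
        push_cast
        calc (2 : ℝ) ^ (ε * (j : ℝ)) / (2 * D) ≤ 2 ^ (ε * (j : ℝ)) :=
              div_le_self (by positivity) (by linarith)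
          _ ≤ 2 ^ (1 * (j : ℝ)) := by
              gcongr
              norm_num
          _ = 2 ^ j := by rw [one_mul, Real.rpow_natCast])
    rw [Nat.log_pow (by norm_num)] at h2
    refine h2.trans ?_
    have h3 : (lam j : ℝ) / (2 ^ (ε * (j : ℝ)) / (2 * D)) ≤
        Cl * (2 * D) * 2 ^ ((δ / a - ε) * (j : ℝ)) := by
      calc (lam j : ℝ) / (2 ^ (ε * (j : ℝ)) / (2 * D)) ≤
          (Cl * 2 ^ (δ / a * (j : ℝ))) / (2 ^ (ε * (j : ℝ)) / (2 * D)) := by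
            have := hlam j
            gcongr
        _ = Cl * (2 * D) * (2 ^ (δ / a * (j : ℝ)) / 2 ^ (ε * (j : ℝ))) := by
            field_simp
        _ = Cl * (2 * D) * 2 ^ ((δ / a - ε) * (j : ℝ)) := by
            rw [← Real.rpow_sub (by norm_num), sub_mul]
    have h4 : ((lam j : ℝ) / (2 ^ (ε * (j : ℝ)) / (2 * D))) ^ a ≤
        (Cl * (2 * D)) ^ a * 2 ^ ((δ - ε * a) * (j : ℝ)) := by
      calc _ ≤ (Cl * (2 * D) * 2 ^ ((δ / a - ε) * (j : ℝ))) ^ a := by gcongr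
        _ = (Cl * (2 * D)) ^ a * 2 ^ ((δ / a - ε) * (j : ℝ) * a) := by
            rw [Real.mul_rpow (by positivity) (by positivity), ← Real.rpow_mul (by norm_num)]
        _ = _ := by
            congr 2
            field_simp
    have e1 : (2 : ℝ) ^ (j + 2) * 2 ^ ((δ - ε * a) * (j : ℝ)) ≤
        4 * 2 ^ (2 * |s - δ|) * 2 ^ ((s - δ) * ((j + 2 : ℕ) : ℝ)) := by
      have e2 : (2 : ℝ) ^ (j + 2) * 2 ^ ((δ - ε * a) * (j : ℝ)) =
          4 * 2 ^ ((s - δ) * (j : ℝ)) := by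
        have e3 : (2 : ℝ) ^ (j + 2) = 4 * 2 ^ (j : ℝ) := by
          rw [pow_add, Real.rpow_natCast]
          ring
        rw [e3, mul_assoc, ← Real.rpow_add (by norm_num)]
        congr 2
        rw [hδ]
        ring
      rw [e2, mul_assoc, ← Real.rpow_add (by norm_num)]
      have h6 : (s - δ) * (j : ℝ) ≤ 2 * |s - δ| + (s - δ) * ((j + 2 : ℕ) : ℝ) := by
        have h7 := neg_abs_le (s - δ)
        push_cast
        linarith
      gcongr
      norm_num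
    calc C * 2 ^ (j + 2) * ((lam j : ℝ) / (2 ^ (ε * (j : ℝ)) / (2 * D))) ^ a ≤
          C * 2 ^ (j + 2) * ((Cl * (2 * D)) ^ a * 2 ^ ((δ - ε * a) * (j : ℝ))) := by gcongr
        _ = C * (Cl * (2 * D)) ^ a * (2 ^ (j + 2) * 2 ^ ((δ - ε * a) * (j : ℝ))) := by ring
        _ ≤ C * (Cl * (2 * D)) ^ a *
            (4 * 2 ^ (2 * |s - δ|) * 2 ^ ((s - δ) * ((j + 2 : ℕ) : ℝ))) := by gcongr
        _ = _ := by ring
  · intro n hn t ht
    obtain ⟨ht1, ht2⟩ := ht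
    push Not at ht2
    obtain ⟨x, hx1, hx2⟩ := ht2 (2 ^ (n + L))
    have hpos : 0 < 2 ^ (n + L) := by positivity
    have hx0 : x ≠ 0 := by omega
    set j := Nat.log 2 x with hj
    have hjx : 2 ^ j ≤ x := Nat.pow_log_le_self 2 hx0
    have hjx2 : x < 2 ^ (j + 1) := Nat.lt_pow_succ_log_self (by norm_num) _
    have hjge : n + L ≤ j := Nat.le_log_of_pow_le (by norm_num) hx1
    rw [Set.mem_iUnion]
    refine ⟨j + 2 - n, ?_⟩
    have hK : n + (j + 2 - n) = j + 2 := by omega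
    change t.appr (n + (j + 2 - n)) ∈ ({t ∈ range (2 ^ (n + (j + 2 - n))) | t % 2 = 1 ∧
      (cntP M ρ c w t (2 ^ (n + (j + 2 - n) - 2)) : ℝ) <
        ((2 ^ (n + (j + 2 - n) - 2) : ℕ) : ℝ) /
          (2 ^ (ε * ((n + (j + 2 - n) - 2 : ℕ) : ℝ)) / (2 * D))} : Finset ℕ)
    rw [hK, Nat.add_sub_cancel, mem_filter, mem_range]
    refine ⟨PadicInt.appr_lt t _, ?_, ?_⟩
    · have h3 := appr_modEq t (show 1 ≤ j + 2 by omega)
      rw [pow_one] at h3
      have h4 : t.appr 1 % 2 = t.appr (j + 2) % 2 := h3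
      rw [← h4, ht1]
    · have h1 : L < 2 ^ L := Nat.lt_two_pow_self
      have h2 : 2 ^ L ≤ 2 ^ j := Nat.pow_le_pow_right (by norm_num) (by omega)
      have h3 : 2 ^ j + L < 2 ^ (j + 2) := by
        rw [pow_add]
        omega
      rw [← cntZ_eq M ρ c w t h3]
      have h4 : (cntZ M ρ c w t (2 ^ j) : ℝ) ≤ cntZ M ρ c w t x := by
        exact_mod_cast cntZ_mono M ρ c w t hjx
      refine (h4.trans_lt hx2).trans_le ?_
      have h5 : (x : ℝ) ≤ 2 * 2 ^ j := by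
        have : (x : ℝ) ≤ 2 ^ (j + 1) := by exact_mod_cast hjx2.le
        rw [pow_succ] at this
        linarith
      push_cast
      have hε2 : 0 ≤ 1 - ε := by linarith
      calc D * (x : ℝ) ^ (1 - ε) ≤ D * (2 * 2 ^ j) ^ (1 - ε) := by gcongr
        _ = D * (2 ^ (1 - ε) * 2 ^ ((j : ℝ) * (1 - ε))) := by
            rw [Real.mul_rpow (by norm_num) (by positivity), ← Real.rpow_natCast,
              ← Real.rpow_mul (by norm_num)]
        _ ≤ D * (2 ^ (1 : ℝ) * 2 ^ ((j : ℝ) * (1 - ε))) := by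
            gcongr
            · norm_num
            · linarith
        _ = 2 ^ j / (2 ^ (ε * (j : ℝ)) / (2 * D)) := by
            have e3 : (2 : ℝ) ^ ((j : ℝ) * (1 - ε)) = 2 ^ j / 2 ^ (ε * (j : ℝ)) := by
              rw [← Real.rpow_natCast, ← Real.rpow_sub (by norm_num)]
              congr 1
              ring
            rw [e3, Real.rpow_one]
            field_simp

end Pool.Agent.H558.KK
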