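import Pool.Agent.H558.KK.Dim

set_option autoImplicit false

/-!
# The dimension of the exceptional sets, all patterns
-/

namespace Pool.Agent.H558.KK

open PowerSeries Finset MeasureTheory Pool.Agent.R836.PP
open Pool.Agent.K7.H72.MT hiding W few dis DD dis_stable dis_vary DD_stable DD_sum DD_block few_bad dis_le DD_le base count Bd

/-- one pattern -/
theorem dim_pat {M ρ L : ℕ} {c : Fin (L + 1) → ZMod 2} {w : ℕ → ZMod 2} {a C : ℝ} (ha : 0 < a)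
    (hC : 0 < C) (hb : ∀ K x : ℕ, 1 ≤ x → x < 2 ^ K → ∀ Y : ℝ, 1 ≤ Y → Y ≤ x →
      (#{t ∈ range (2 ^ K) | t % 2 = 1 ∧ (cntP M ρ c w t x : ℝ) < x / Y} : ℝ) ≤
        C * 2 ^ K * ((lam (Nat.log 2 x) : ℝ) / Y) ^ a) {ε : ℝ} (hε : 0 < ε) (hε1 : ε ≤ 1) :
    dimH {t : ℤ_[2] | t.appr 1 = 1 ∧ ¬ Filter.Tendsto (fun x : ℕ =>
      (cntZ M ρ c w t x : ℝ) / (x : ℝ) ^ (1 - ε)) Filter.atTop Filter.atTop} ≤
      ENNReal.ofReal (1 - a * ε) := by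
  have hsub : {t : ℤ_[2] | t.appr 1 = 1 ∧ ¬ Filter.Tendsto (fun x : ℕ =>
      (cntZ M ρ c w t x : ℝ) / (x : ℝ) ^ (1 - ε)) Filter.atTop Filter.atTop} ⊆
      ⋃ D : ℕ, Bd M ρ c w ε ((D + 1 : ℕ) : ℝ) := by
    rintro t ⟨h1, hT⟩
    rw [Filter.tendsto_atTop, not_forall] at hT
    obtain ⟨B, hB⟩ := hT
    obtain ⟨D, hD⟩ := exists_nat_ge B
    rw [Set.mem_iUnion]
    refine ⟨D, h1, ?_⟩
    rintro ⟨x₀, hx₀⟩
    apply hB
    filter_upwards [Filter.eventually_ge_atTop (max x₀ 1)] with x hx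
    have hx1 : (0 : ℝ) < x := by
      exact_mod_cast (le_max_right x₀ 1).trans hx
    have hxp : 0 < (x : ℝ) ^ (1 - ε) := by positivity
    rw [le_div_iff₀ hxp]
    refine le_trans ?_ (hx₀ x ((le_max_left _ _).trans hx))
    push_cast
    gcongr
    linarith
  refine (dimH_mono hsub).trans ?_
  rw [dimH_iUnion]
  refine iSup_le fun D => ?_
  refine le_of_forall_gt_imp_ge_of_dense fun b hb' => ?_
  rcases eq_or_ne b ⊤ with h | h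
  · rw [h]
    exact le_top
  · obtain ⟨s, hs, rfl⟩ : ∃ s : ℝ, 0 ≤ s ∧ b = ENNReal.ofReal s :=
      ⟨b.toReal, ENNReal.toReal_nonneg, (ENNReal.ofReal_toReal h).symm⟩
    rw [ENNReal.ofReal_lt_ofReal_iff'] at hb'
    refine dim_gen ha hC hb hε hε1 ?_ hb'.2 ?_
    · push_cast
      have : (0 : ℝ) ≤ D := by positivity
      linarith
    · have := hb'.1
      linarith

/-- all patterns and all residue classes modulo `M` -/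
theorem dim_all' (M : ℕ) (hM : 0 < M) : ∃ a : ℝ, 0 < a ∧ ∀ (w : ℕ → ZMod 2) (ε : ℝ), 0 < ε → ε ≤ 1 →
    dimH {t : ℤ_[2] | t.appr 1 = 1 ∧ ∃ (ρ L : ℕ) (c : Fin (L + 1) → ZMod 2), c ≠ 0 ∧
      ¬ Filter.Tendsto (fun x : ℕ => (cntZ M ρ c w t x : ℝ) / (x : ℝ) ^ (1 - ε)) Filter.atTop
        Filter.atTop} ≤ ENNReal.ofReal (1 - a * ε) := by
  obtain ⟨a, ha, hmain⟩ := prog_prob M hM
  refine ⟨a, ha, fun w ε hε hε1 => ?_⟩
  have hsub : {t : ℤ_[2] | t.appr 1 = 1 ∧ ∃ (ρ L : ℕ) (c : Fin (L + 1) → ZMod 2), c ≠ 0 ∧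
      ¬ Filter.Tendsto (fun x : ℕ => (cntZ M ρ c w t x : ℝ) / (x : ℝ) ^ (1 - ε)) Filter.atTop
        Filter.atTop} ⊆ ⋃ i : ℕ × ((L : ℕ) × {c : Fin (L + 1) → ZMod 2 // c ≠ 0}),
          {t : ℤ_[2] | t.appr 1 = 1 ∧ ¬ Filter.Tendsto (fun x : ℕ =>
            (cntZ M i.1 i.2.2.1 w t x : ℝ) / (x : ℝ) ^ (1 - ε)) Filter.atTop Filter.atTop} := by
    rintro t ⟨h1, ρ, L, c, hc, hT⟩
    rw [Set.mem_iUnion]
    exact ⟨(ρ, ⟨L, c, hc⟩), h1, hT⟩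
  refine (dimH_mono hsub).trans ?_
  rw [dimH_iUnion]
  refine iSup_le fun i => ?_
  obtain ⟨ρ, ⟨L, c, hc⟩⟩ := i
  obtain ⟨C, hC, hb⟩ := hmain ρ L c hc w
  exact dim_pat ha hC hb hε hε1

/-- the exceptional set for `x ^ α` has dimension at most `α` -/
theorem dim_alpha (α : ℝ) (hα : 0 ≤ α) (hα1 : α < 1) :
    dimH {t : ℤ_[2] | t.appr 1 = 1 ∧ ∃ (b ρ L : ℕ) (c : Fin (L + 1) → ZMod 2), c ≠ 0 ∧
      ¬ Filter.Tendsto (fun x : ℕ => (cntZ (2 ^ b) ρ c (fun _ => 0) t x : ℝ) / (x : ℝ) ^ α)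
        Filter.atTop Filter.atTop} ≤ ENNReal.ofReal α := by
  have hsub : {t : ℤ_[2] | t.appr 1 = 1 ∧ ∃ (b ρ L : ℕ) (c : Fin (L + 1) → ZMod 2), c ≠ 0 ∧
      ¬ Filter.Tendsto (fun x : ℕ => (cntZ (2 ^ b) ρ c (fun _ => 0) t x : ℝ) / (x : ℝ) ^ α)
        Filter.atTop Filter.atTop} ⊆ ⋃ i : ℕ × ℕ × ((L : ℕ) × {c : Fin (L + 1) → ZMod 2 // c ≠ 0}),
          {t : ℤ_[2] | t.appr 1 = 1 ∧ ¬ Filter.Tendsto (fun x : ℕ =>
            (cntZ (2 ^ i.1) i.2.1 i.2.2.2.1 (fun _ => 0) t x : ℝ) / (x : ℝ) ^ (1 - (1 - α)))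
              Filter.atTop Filter.atTop} := by
    rintro t ⟨h1, b, ρ, L, c, hc, hT⟩
    rw [Set.mem_iUnion]
    refine ⟨(b, ρ, ⟨L, c, hc⟩), h1, ?_⟩
    rw [sub_sub_cancel]
    exact hT
  refine (dimH_mono hsub).trans ?_
  rw [dimH_iUnion]
  refine iSup_le fun i => ?_
  obtain ⟨b, ρ, ⟨L, c, hc⟩⟩ := i
  obtain ⟨C, hC, hb⟩ := prog_ld b ρ L c hc
  have h := dim_pat (a := 1) one_pos hC hb (ε := 1 - α) (by linarith) (by linarith)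
  have e : 1 - 1 * (1 - α) = α := by ring
  rw [e] at h
  exact h

end Pool.Agent.H558.KK
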