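import Pool.Agent.H558.KK.Mom

set_option autoImplicit false

/-!
# Disagreement with a prescribed sequence
-/

namespace Pool.Agent.H558.KK

open PowerSeries Finset
open Pool.Agent.K7.H72.MT hiding W few dis DD dis_stable dis_vary DD_stable DD_sum DD_block few_bad dis_le DD_le base count

theorem low_sp {V : ℕ} {U : S} (h : Gv V U) :
    low U < V ∧ coeff (low U) U = 1 ∧ ∀ i < low U, coeff i U = 0 := by
  classical
  obtain ⟨i, hi, hc⟩ := h
  have hex : ∃ i, coeff i U ≠ 0 := ⟨i, hc⟩
  have hl : low U = Nat.find hex := by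
    unfold low
    rw [dif_pos hex]
  rw [hl]
  refine ⟨(Nat.find_min' hex hc).trans_lt hi, eq_one_of_ne (Nat.find_spec hex), fun j hj => ?_⟩
  have := Nat.find_min hex hj
  push Not at this
  exact this

theorem low_co {V : ℕ} {G : S} (hG : IsP G) {U : S} (h : Gv V U) (t : ℕ) :
    (∀ i < low U, coeff i (U * G ^ t) = 0) ∧ coeff (low U) (U * G ^ t) = 1 := by
  obtain ⟨-, h1, h2⟩ := low_sp h
  exact ⟨coeff_lt h2, by rw [coeff_low h2 (coeff_zero_pow hG.zero t)]; exact h1⟩

open scoped Classical in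
/-- is the coefficient of `x G ^ t` at the position different from the forbidden value? -/
noncomputable def dis (G : S) (R j : ℕ) (x : El) (t : ℕ) : ℕ :=
  if Gv 128 x.1 then
    (if coeff (pos R j x) (x.1 * G ^ t) = x.2.1 (pos R j x) then 0 else 1) else 0

/-- the number of the elements with a different value -/
noncomputable def DD (G : S) (R j : ℕ) (L : List El) (t : ℕ) : ℕ :=
  (L.map fun x => dis G R j x t).sum

theorem dis_stable {G : S} (hG : IsP G) {R : ℕ} (x : El) (hx : Dn R x.2.2) {j J t : ℕ} (hj : j < J)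
    (e : ℕ) : dis G R j x (t + 2 ^ (R * J) * e) = dis G R j x t := by
  unfold dis
  by_cases h : Gv 128 x.1
  swap
  · rw [if_neg h, if_neg h]
  · rw [if_pos h, if_pos h, pow_add, ← mul_assoc]
    have hg := h
    rw [coeff_stable hG.zero (x.1 * G ^ t) (R * J) e _ (low x.1) (low_co hG hg t).1]
    obtain ⟨d, -, h2, h3, -⟩ := pos_spec hx j
    have h4 := pow_le_pow_blocks (R := R) hj
    have h5 : 2 ^ (R * j) * d < 2 ^ (R * j) * 2 ^ R := Nat.mul_lt_mul_of_pos_left h2 (by positivity)
    rw [h3]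
    omega

theorem dis_vary {G : S} (hG : IsP G) {R : ℕ} (x : El) (hx : Dn R x.2.2) (j t : ℕ)
    (h : Gv 128 x.1) : ∃ τ < 2 ^ R, dis G R j x (t + 2 ^ (R * j) * τ) = 1 := by
  have hg := h
  obtain ⟨d, h1, h2, h3, -⟩ := pos_spec hx j
  obtain ⟨g1, g2⟩ := low_co hG hg t
  obtain ⟨τ, hτ, h4⟩ := vary hG (R * j) R (x.1 * G ^ t) (low x.1) g1 g2 d h1 h2
    (x.2.1 (pos R j x) + 1)
  refine ⟨τ, hτ, ?_⟩
  unfold dis
  rw [if_pos h, pow_add, ← mul_assoc, if_neg]
  rw [h3] at h4 ⊢
  rw [h4]
  have : ∀ a : ZMod 2, a + 1 ≠ a := by decide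
  exact this _

theorem DD_stable {G : S} (hG : IsP G) {R : ℕ} {L : List El} (hL : AD R L) {j J t : ℕ} (hj : j < J)
    (e : ℕ) : DD G R j L (t + 2 ^ (R * J) * e) = DD G R j L t := by
  unfold DD
  congr 1
  refine List.map_congr_left fun x hx => dis_stable hG x (hL x hx) hj e

theorem DD_sum {G : S} (hG : IsP G) {R : ℕ} (j t : ℕ) : ∀ {L : List El}, AD R L →
    gv 128 L ≤ ∑ τ ∈ range (2 ^ R), DD G R j L (t + 2 ^ (R * j) * τ) := by
  classical
  intro L
  induction L with
  | nil =>
    intro _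
    rw [gv_nil]
    exact Nat.zero_le _
  | cons x L ih =>
    intro hL
    have h1 : gv 128 (x :: L) = (if Gv 128 x.1 then 1 else 0) + gv 128 L := by
      simp [gv]
    have h2 : ∀ s, DD G R j (x :: L) s = dis G R j x s + DD G R j L s := by
      intro s
      simp [DD]
    have h3 := ih (fun y hy => hL y (List.mem_cons_of_mem _ hy))
    simp only [h1, h2, sum_add_distrib]
    refine add_le_add ?_ h3
    split_ifs with h
    · obtain ⟨τ, hτ, h4⟩ := dis_vary hG x (hL x List.mem_cons_self) j t h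
      calc 1 = dis G R j x (t + 2 ^ (R * j) * τ) := h4.symm
        _ ≤ _ := single_le_sum (f := fun τ => dis G R j x (t + 2 ^ (R * j) * τ))
          (fun _ _ => Nat.zero_le _) (mem_range.2 hτ)
    · exact Nat.zero_le _

/-- in each block of digits at least one value is good -/
theorem DD_block {G : S} (hG : IsP G) {R : ℕ} (j t : ℕ) {L : List El} (hL : AD R L) :
    #{τ ∈ range (2 ^ R) | 2 ^ R * DD G R j L (t + 2 ^ (R * j) * τ) < gv 128 L} ≤ 2 ^ R - 1 := by
  have h1 := DD_sum hG j t hL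
  have h2 : ∃ τ ∈ range (2 ^ R), gv 128 L ≤ 2 ^ R * DD G R j L (t + 2 ^ (R * j) * τ) := by
    by_contra hne
    push Not at hne
    have h3 : ∑ τ ∈ range (2 ^ R), 2 ^ R * DD G R j L (t + 2 ^ (R * j) * τ) <
        ∑ τ ∈ range (2 ^ R), gv 128 L :=
      sum_lt_sum_of_nonempty ⟨0, mem_range.2 (by positivity)⟩ hne
    rw [← mul_sum, sum_const, card_range, smul_eq_mul] at h3
    have := Nat.lt_of_mul_lt_mul_left h3
    omega
  obtain ⟨τ, h3, h4⟩ := h2
  calc _ ≤ #((range (2 ^ R)).erase τ) := by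
        refine card_le_card fun s hs => ?_
        rw [mem_filter] at hs
        rw [mem_erase]
        refine ⟨?_, hs.1⟩
        rintro rfl
        omega
    _ = 2 ^ R - 1 := by rw [card_erase_of_mem h3, card_range]

/-- the number of disagreements is small for few `t` -/
theorem few_bad {G : S} (hG : IsP G) {R : ℕ} {L : List El} (hL : AD R L) (J : ℕ) :
    #{t ∈ range (2 ^ (R * J)) | ∀ j < J, 2 ^ R * DD G R j L t < gv 128 L} ≤ (2 ^ R - 1) ^ J := by
  induction J with
  | zero =>
    refine (card_filter_le _ _).trans ?_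
    simp
  | succ J ih =>
    set s : Finset ℕ := {t ∈ range (2 ^ (R * (J + 1))) | ∀ j < J + 1, 2 ^ R * DD G R j L t < gv 128 L}
      with hs
    have hpos : 0 < 2 ^ (R * J) := by positivity
    have himg : s.image (fun t => t % 2 ^ (R * J)) ⊆
        {t ∈ range (2 ^ (R * J)) | ∀ j < J, 2 ^ R * DD G R j L t < gv 128 L} := by
      intro a ha
      rw [mem_image] at ha
      obtain ⟨t, ht, rfl⟩ := ha
      rw [hs, mem_filter] at ht
      rw [mem_filter, mem_range]
      refine ⟨Nat.mod_lt _ hpos, fun j hj => ?_⟩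
      have h := ht.2 j (by omega)
      rw [← Nat.mod_add_div t (2 ^ (R * J)), DD_stable hG hL hj] at h
      exact h
    have hfib : ∀ a ∈ s.image (fun t => t % 2 ^ (R * J)),
        #{t ∈ s | t % 2 ^ (R * J) = a} ≤ 2 ^ R - 1 := by
      intro a _
      refine le_trans ?_ (DD_block hG J a hL)
      refine card_le_card_of_injOn (fun t => t / 2 ^ (R * J)) ?_ ?_
      · intro t ht
        rw [mem_coe, mem_filter, hs, mem_filter, mem_range] at ht
        obtain ⟨⟨h1, h2⟩, h3⟩ := ht
        rw [mem_coe, mem_filter, mem_range]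
        refine ⟨?_, ?_⟩
        · rw [mul_add, mul_one, pow_add] at h1
          exact Nat.div_lt_of_lt_mul h1
        · have h := h2 J (by omega)
          simp only
          rw [← h3, Nat.mod_add_div]
          exact h
      · intro t1 h1 t2 h2 h
        rw [mem_coe, mem_filter] at h1 h2
        simp only at h
        rw [← Nat.mod_add_div t1 (2 ^ (R * J)), ← Nat.mod_add_div t2 (2 ^ (R * J)), h, h1.2, h2.2]
    calc #s ≤ (2 ^ R - 1) * #(s.image (fun t => t % 2 ^ (R * J))) :=
          card_le_mul_card_image _ _ hfib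
      _ ≤ (2 ^ R - 1) * (2 ^ R - 1) ^ J := Nat.mul_le_mul_left _ ((card_le_card himg).trans ih)
      _ = (2 ^ R - 1) ^ (J + 1) := (pow_succ' _ _).symm

theorem dis_le {G : S} {R : ℕ} (x : El) (hx : Dn R x.2.2) {j J : ℕ} (hj : j < J) (X t : ℕ)
    (hX : 128 + 2 ^ (R * J) ≤ X) : dis G R j x t ≤ N1 G X x t := by
  classical
  unfold dis
  by_cases h : Gv 128 x.1
  swap
  · rw [if_neg h]
    exact Nat.zero_le _
  · rw [if_pos h]
    split_ifs with h2
    · exact Nat.zero_le _
    · unfold N1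
      rw [Nat.one_le_iff_ne_zero, Finset.card_ne_zero]
      refine ⟨pos R j x, ?_⟩
      rw [mem_filter, mem_range]
      obtain ⟨d, -, h3, h4, h5⟩ := pos_spec hx j
      refine ⟨?_, h5, h2⟩
      have h6 := pow_le_pow_blocks (R := R) hj
      have h7 : 2 ^ (R * j) * d < 2 ^ (R * j) * 2 ^ R :=
        Nat.mul_lt_mul_of_pos_left h3 (by positivity)
      have h8 := (low_sp h).1
      omega

theorem DD_le {G : S} {R : ℕ} {L : List El} (hL : AD R L) {j J : ℕ} (hj : j < J) (X t : ℕ)
    (hX : 128 + 2 ^ (R * J) ≤ X) : DD G R j L t ≤ NN G X L t := by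
  unfold DD NN
  exact List.sum_le_sum fun x hx => dis_le x (hL x hx) hj X t hX

theorem base {G : S} (hG : IsP G) {R : ℕ} {L : List El} (hL : AD R L) (J Z X : ℕ)
    (hX : 128 + 2 ^ (R * J) ≤ X) :
    #{t ∈ range (2 ^ (R * J + Z)) | 2 ^ R * NN G X L t < gv 128 L} ≤ 2 ^ Z * (2 ^ R - 1) ^ J := by
  set s : Finset ℕ := {t ∈ range (2 ^ (R * J + Z)) | 2 ^ R * NN G X L t < gv 128 L} with hs
  have hpos : 0 < 2 ^ (R * J) := by positivity
  have himg : s.image (fun t => t % 2 ^ (R * J)) ⊆
      {t ∈ range (2 ^ (R * J)) | ∀ j < J, 2 ^ R * DD G R j L t < gv 128 L} := by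
    intro a ha
    rw [mem_image] at ha
    obtain ⟨t, ht, rfl⟩ := ha
    rw [hs, mem_filter] at ht
    rw [mem_filter, mem_range]
    refine ⟨Nat.mod_lt _ hpos, fun j hj => ?_⟩
    have h1 := DD_le (G := G) hL hj X t hX
    rw [← Nat.mod_add_div t (2 ^ (R * J)), DD_stable hG hL hj, Nat.mod_add_div] at h1
    exact (Nat.mul_le_mul_left _ h1).trans_lt ht.2
  have hfib : ∀ a ∈ s.image (fun t => t % 2 ^ (R * J)),
      #{t ∈ s | t % 2 ^ (R * J) = a} ≤ 2 ^ Z := by
    intro a _
    calc _ ≤ #(range (2 ^ Z)) := by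
          refine card_le_card_of_injOn (fun t => t / 2 ^ (R * J)) ?_ ?_
          · intro t ht
            rw [mem_coe, mem_filter, hs, mem_filter, mem_range, pow_add] at ht
            rw [mem_coe, mem_range]
            exact Nat.div_lt_of_lt_mul ht.1.1
          · intro t1 h1 t2 h2 h
            rw [mem_coe, mem_filter] at h1 h2
            simp only at h
            rw [← Nat.mod_add_div t1 (2 ^ (R * J)), ← Nat.mod_add_div t2 (2 ^ (R * J)), h, h1.2,
              h2.2]
      _ = 2 ^ Z := card_range _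
  calc #s ≤ 2 ^ Z * #(s.image (fun t => t % 2 ^ (R * J))) := card_le_mul_card_image _ _ hfib
    _ ≤ 2 ^ Z * (2 ^ R - 1) ^ J := Nat.mul_le_mul_left _ ((card_le_card himg).trans
        (few_bad hG hL J))

/-- the number of the `t` with few disagreements -/
theorem count {G : S} (hG : IsP G) {R : ℕ} (J Z X B : ℕ) (hX : 128 + 2 ^ (R * J) ≤ X) (k : ℕ) :
    ∀ L : List El, AD R L →
    #{t ∈ range (2 ^ (k + (R * J + Z))) | 2 ^ R * NN G (2 ^ k * X) L t < B} ≤
      2 ^ (R * J + Z) * #{t ∈ range (2 ^ k) | gv 128 (desc G k L t) < B} +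
        2 ^ k * (2 ^ Z * (2 ^ R - 1) ^ J) := by
  induction k with
  | zero =>
    intro L hL
    simp only [zero_add, pow_zero, one_mul, desc]
    by_cases h : gv 128 L < B
    · rw [filter_true_of_mem (s := range 1) (fun _ _ => h), card_range, mul_one]
      refine (card_filter_le _ _).trans ?_
      rw [card_range]
      exact Nat.le_add_right _ _
    · rw [filter_false_of_mem (s := range 1) (fun _ _ => h), card_empty, mul_zero, zero_add]
      refine (card_le_card ?_).trans (base hG hL J Z X hX)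
      intro t ht
      rw [mem_filter] at ht ⊢
      exact ⟨ht.1, by omega⟩
  | succ k ih =>
    intro L hL
    rw [show k + 1 + (R * J + Z) = (k + (R * J + Z)) + 1 by ring, pow_succ' 2 (k + (R * J + Z)),
      card_split, pow_succ' 2 k, card_split]
    have h0 : ∀ t, desc G (k + 1) L (2 * t) = desc G k (ch G 0 L) t := by
      intro t
      rw [desc, Nat.mul_div_cancel_left _ (by norm_num), Nat.mul_mod_right]
    have h1 : ∀ t, desc G (k + 1) L (2 * t + 1) = desc G k (ch G 1 L) t := by
      intro t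
      rw [desc, show (2 * t + 1) / 2 = t by omega, show (2 * t + 1) % 2 = 1 by omega]
    have h2 : ∀ t, NN G (2 * 2 ^ k * X) L (2 * t) = NN G (2 ^ k * X) (ch G 0 L) t := by
      intro t
      rw [mul_assoc, NN_split, Nat.mul_div_cancel_left _ (by norm_num), Nat.mul_mod_right]
    have h3 : ∀ t, NN G (2 * 2 ^ k * X) L (2 * t + 1) = NN G (2 ^ k * X) (ch G 1 L) t := by
      intro t
      rw [mul_assoc, NN_split, show (2 * t + 1) / 2 = t by omega,
        show (2 * t + 1) % 2 = 1 by omega]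
    simp only [h0, h1, h2, h3]
    have e1 := ih (ch G 0 L) (hL.ch G 0)
    have e2 := ih (ch G 1 L) (hL.ch G 1)
    refine (add_le_add e1 e2).trans (le_of_eq ?_)
    ring

/-- nonzero coefficients -/
theorem gv_le_NN {G : S} (hG : IsP G) (V : ℕ) (L : List El) (t : ℕ)
    (hL : ∀ x ∈ L, x.2 = (fun _ => 0, fun _ => True)) : gv V L ≤ NN G V L t := by
  classical
  unfold gv NN
  refine List.sum_le_sum fun x hx => ?_
  by_cases h : Gv V x.1
  swap
  · rw [if_neg h]
    exact Nat.zero_le _
  · rw [if_pos h]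
    unfold N1
    rw [Nat.one_le_iff_ne_zero, Finset.card_ne_zero]
    refine ⟨low x.1, ?_⟩
    rw [mem_filter, mem_range, (low_co hG h t).2, hL x hx]
    exact ⟨(low_sp h).1, trivial, one_ne_zero⟩

theorem gv_desc_le {G : S} (hG : IsP G) (V k : ℕ) (L : List El) (t : ℕ)
    (hL : ∀ x ∈ L, x.2 = (fun _ => 0, fun _ => True)) :
    gv V (desc G k L t) ≤ NN G (2 ^ k * V) L t := by
  rw [NN_desc]
  exact gv_le_NN hG V _ _ (desc_zero G k L t hL)

end Pool.Agent.H558.KK
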