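import Pool.Agent.H558.KK.Prog

set_option autoImplicit false

/-!
# Large deviations
-/

namespace Pool.Agent.H558.KK

open PowerSeries Finset Pool.Agent.R836.PP
open Pool.Agent.K7.H72.MT hiding W few dis DD dis_stable dis_vary DD_stable DD_sum DD_block few_bad dis_le DD_le base count

theorem ld_final (b' ρ L : ℕ) (c : Fin (L + 1) → ZMod 2) (hc : c ≠ 0) : ∃ C : ℝ, 0 < C ∧
    ∀ (K : ℕ) (B : ℝ), 1 ≤ B → (#{t ∈ range (2 ^ K) | t % 2 = 1 ∧
      (#{n ∈ range (2 ^ K) | n % 2 ^ b' = ρ % 2 ^ b' ∧ pat c (P2 ^ t) n ≠ 0} : ℝ) < B} : ℝ) ≤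
      C * B * lam K := by
  obtain ⟨C, hC, h⟩ := prog_ld b' ρ L c hc
  refine ⟨2 * C + 2, by positivity, ?_⟩
  intro K B hB
  have hlam : (1 : ℝ) ≤ lam K := by exact_mod_cast lam_pos K
  have h2K : 1 ≤ 2 ^ K := Nat.one_le_two_pow
  set x : ℕ := 2 ^ K - 1 with hx
  have hx1 : x + 1 = 2 ^ K := by omega
  have hx1r : (x : ℝ) + 1 = 2 ^ K := by exact_mod_cast hx1
  rcases lt_or_ge (x : ℝ) B with hxB | hxB
  · calc _ ≤ ((range (2 ^ K)).card : ℝ) := by exact_mod_cast card_filter_le _ _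
      _ = 2 ^ K := by rw [card_range]; push_cast; rfl
      _ ≤ 2 * B := by linarith
      _ ≤ (2 * C + 2) * B * lam K := by
          have h1 : 0 ≤ C * B * lam K := by positivity
          nlinarith
  · have hx1' : (1 : ℝ) ≤ x := hB.trans hxB
    have hx1n : 1 ≤ x := by exact_mod_cast hx1'
    have hx0 : (0 : ℝ) < x := by linarith
    have hB0 : 0 < B := by linarith
    have h1 := h K x hx1n (by omega) (x / B) (by rwa [le_div_iff₀ hB0, one_mul])
      (div_le_self hx0.le hB)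
    have e : (x : ℝ) / (x / B) = B := by field_simp
    rw [e, Real.rpow_one] at h1
    have hset : ∀ t, #{n ∈ range (2 ^ K) | n % 2 ^ b' = ρ % 2 ^ b' ∧ pat c (P2 ^ t) n ≠ 0} =
        cntP (2 ^ b') ρ c (fun _ => 0) t x := by
      intro t
      unfold cntP
      rw [hx1]
    simp only [hset]
    refine h1.trans ?_
    have hl : (lam (Nat.log 2 x) : ℝ) ≤ lam K := by
      have h2 : Nat.log 2 x ≤ K := by
        have := Nat.log_mono_right (b := 2) (show x ≤ 2 ^ K by omega)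
        rwa [Nat.log_pow (by norm_num)] at this
      exact_mod_cast lam_mono h2
    have h3 : (2 : ℝ) ^ K ≤ 2 * x := by linarith
    calc C * 2 ^ K * ((lam (Nat.log 2 x) : ℝ) / (x / B)) ≤ C * (2 * x) * ((lam K : ℝ) / (x / B)) := by
          gcongr
      _ = 2 * C * B * lam K := by
          field_simp
      _ ≤ (2 * C + 2) * B * lam K := by
          have h4 : 0 ≤ B * lam K := by positivity
          nlinarith

/-- the loss is smaller than every power -/
theorem lam_exp {ε : ℝ} (hε : 0 < ε) : ∃ C : ℝ, 0 < C ∧ ∀ k : ℕ, (lam k : ℝ) ≤ C * 2 ^ (ε * k) := by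
  have h1 : Filter.Tendsto (fun m : ℕ => ((m : ℝ) + 2) ^ 2 / 2 ^ m) Filter.atTop (nhds 0) := by
    have h2 := (tendsto_pow_const_div_const_pow_of_one_lt 2 (show (1 : ℝ) < 2 by norm_num))
    have h3 := (Filter.tendsto_add_atTop_iff_nat 2).2 h2
    have h4 := h3.const_mul 4
    rw [mul_zero] at h4
    refine h4.congr fun m => ?_
    push_cast
    rw [pow_add]
    field_simp
    norm_num
  have h5 := h1.eventually (gt_mem_nhds (show 0 < ε / 2 by positivity))
  obtain ⟨m0, hm0⟩ := Filter.eventually_atTop.1 h5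
  refine ⟨2 ^ (2 * (m0 + 2) ^ 2 : ℝ) * 2 ^ ε, by positivity, fun k => ?_⟩
  unfold lam
  set m := Nat.log 2 (k / 4 + 1) with hm
  have h6 : 2 ^ m ≤ k / 4 + 1 := Nat.pow_log_le_self 2 (by omega)
  have h7 : (2 : ℝ) ^ m ≤ k + 1 := by
    have : 2 ^ m ≤ k + 1 := by omega
    exact_mod_cast this
  push_cast
  rw [← Real.rpow_natCast, ← Real.rpow_add (by norm_num), ← Real.rpow_add (by norm_num)]
  apply Real.rpow_le_rpow_of_exponent_le (by norm_num)
  push_cast
  have h8 : (0 : ℝ) ≤ m := by positivity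
  have h9 : 2 * (((m : ℝ) + 1) * (m + 2)) ≤ 2 * (m + 2) ^ 2 := by nlinarith
  rcases Nat.lt_or_ge m m0 with h | h
  · have h10 : (m : ℝ) ≤ m0 := by exact_mod_cast h.le
    have h11 : ((m : ℝ) + 2) ^ 2 ≤ (m0 + 2) ^ 2 := by gcongr
    have h12 : 0 ≤ ε * k := by positivity
    linarith
  · have h10 := hm0 m h
    rw [div_lt_iff₀ (by positivity)] at h10
    have h11 : ε / 2 * 2 ^ m ≤ ε / 2 * (k + 1) := by gcongr
    have h12 : (0 : ℝ) ≤ 2 * (m0 + 2) ^ 2 := by positivity
    linarith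

/-- the loss in terms of the logarithm -/
theorem lam_log {A : ℝ} (hA : 0 ≤ A) : ∃ C : ℝ, 0 < C ∧ ∀ k : ℕ, ∀ u : ℝ, (k : ℝ) ≤ 3 / 2 * Real.exp u →
    (lam k : ℝ) * ((k : ℝ) + 1) ^ A ≤ C * Real.exp (3 * u ^ 2) := by
  set l2 := Real.log 2 with hl2
  have g1 : 0.6931 < l2 := by have := Real.log_two_gt_d9; rw [hl2]; linarith
  have g2 : l2 < 0.6932 := by have := Real.log_two_lt_d9; rw [hl2]; linarith
  -- a constant for the quadratic inequality
  set b : ℝ := 10 + A with hb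
  refine ⟨Real.exp (100 * b ^ 2 + 100), by positivity, fun k u hk => ?_⟩
  set m := Nat.log 2 (k / 4 + 1) with hm
  have h6 : 2 ^ m ≤ k / 4 + 1 := Nat.pow_log_le_self 2 (by omega)
  have hk0 : (0 : ℝ) ≤ k := by positivity
  have h7 : (2 : ℝ) ^ m ≤ k / 4 + 1 := by
    have h8 : (2 : ℝ) ^ m ≤ ((k / 4 : ℕ) : ℝ) + 1 := by exact_mod_cast h6
    have h9 : ((k / 4 : ℕ) : ℝ) ≤ k / 4 := Nat.cast_div_le
    linarith
  have hm0 : (0 : ℝ) ≤ m := by positivity
  -- logarithms
  set v : ℝ := max u 0 with hv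
  have hv0 : 0 ≤ v := le_max_right _ _
  have huv : u ≤ v := le_max_left _ _
  have he1 : 1 ≤ Real.exp v := Real.one_le_exp hv0
  have hku : (k : ℝ) ≤ 3 / 2 * Real.exp v := hk.trans (by
    have := Real.exp_le_exp.2 huv
    linarith)
  have h8 : (m : ℝ) * l2 ≤ v + 1 := by
    have h9 : (2 : ℝ) ^ m ≤ Real.exp (v + 1) := by
      rw [Real.exp_add]
      have : (2.7 : ℝ) < Real.exp 1 := by have := Real.exp_one_gt_d9; linarith
      nlinarith
    have h10 := Real.log_le_log (by positivity) h9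
    rw [Real.log_pow, Real.log_exp] at h10
    exact h10
  have h9 : Real.log ((k : ℝ) + 1) ≤ v + 1 := by
    have h10 : (k : ℝ) + 1 ≤ Real.exp (v + 1) := by
      rw [Real.exp_add]
      have : (2.7 : ℝ) < Real.exp 1 := by have := Real.exp_one_gt_d9; linarith
      nlinarith
    have h11 := Real.log_le_log (by positivity) h10
    rwa [Real.log_exp] at h11
  have e1 : (lam k : ℝ) = Real.exp (2 * ((m + 1) * (m + 2)) * l2) := by
    unfold lam
    rw [← hm]
    push_cast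
    rw [← Real.rpow_natCast, Real.rpow_def_of_pos (by norm_num), ← hl2]
    push_cast
    congr 1
    ring
  have e2 : ((k : ℝ) + 1) ^ A = Real.exp (Real.log ((k : ℝ) + 1) * A) :=
    Real.rpow_def_of_pos (by positivity) _
  rw [e1, e2, ← Real.exp_add, ← Real.exp_add]
  apply Real.exp_le_exp.2
  have h10 : Real.log ((k : ℝ) + 1) * A ≤ (v + 1) * A := by gcongr
  have hm1 : (m : ℝ) ≤ 1.443 * (v + 1) := by nlinarith
  have h11 : 2 * (((m : ℝ) + 1) * (m + 2)) * l2 ≤ 2.887 * v ^ 2 + 20 * v + 20 := by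
    have h12 : (m : ℝ) * (m * l2) ≤ (1.443 * (v + 1)) * (v + 1) := by
      apply mul_le_mul hm1 h8 (by positivity) (by positivity)
    nlinarith
  have hvu : v ^ 2 ≤ u ^ 2 := by
    rcases le_or_gt 0 u with hu | hu
    · rw [hv, max_eq_left hu]
    · rw [hv, max_eq_right hu.le]
      nlinarith [sq_nonneg u]
  have hA2 : 0 ≤ b := by positivity
  have h13 : 20 * v + 20 + (v + 1) * A ≤ 0.1 * v ^ 2 + 100 * b ^ 2 + 100 := by
    have : A = b - 10 := by rw [hb]; ring
    rw [this]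
    nlinarith [sq_nonneg (v - 10 * b), sq_nonneg (v - 50), sq_nonneg (b - 1), mul_nonneg hv0 hA2]
  nlinarith

end Pool.Agent.H558.KK
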