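import Pool.Agent.H558.KK.Ord
import Pool.Graph.R_pool_sql_team_seeded_35f281b4.K7.H72.MT.N

set_option autoImplicit false

/-!
# The line lemma: nonvanishing along a line of classes, with a bound for the exponents
-/

namespace Pool.Agent.H558.KK

open PowerSeries Pool.Agent.H397R2.PP
open Pool.Agent.TH693.PP (S T E P P_mul_E)
open Pool.Agent.K7.H91.SQ (dl qq)

/-- the bound for the order -/
def BB (m : ℕ) : ℕ := 2 ^ (m + 4) * (2 ^ (m + 1) * dl qq (m + 4))

theorem coeff_mul_eq_zero {f g : S} {n : ℕ} (hg : ∀ i ≤ n, coeff i g = 0) : coeff n (f * g) = 0 := by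
  rw [coeff_mul]
  refine Finset.sum_eq_zero fun p hp => ?_
  rw [Finset.HasAntidiagonal.mem_antidiagonal] at hp
  rw [hg _ (by omega), mul_zero]

theorem line_T (m : ℕ) (U : S) (hU : coeff 0 U = 1) (c : ℤ) : ∃ r : Fin (2 ^ (m + 1)), ∀ s : ℕ,
    ∃ n : ℕ, 8 * n ≤ BB m ∧ (2 ^ (m + 1) : ℤ) ∣ (n : ℤ) - (c * s + ((r : ℕ) : ℤ)) ∧
      coeff n (U * T ^ s) ≠ 0 := by
  classical
  by_contra hcon
  push Not at hcon
  choose σ hσ using hcon
  obtain ⟨n1, hn1, hne1⟩ := order_bound m σ c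
  set M := Ms (m + 1) σ c 1 with hM
  have hex : ∃ n, coeff n M.det ≠ 0 := ⟨n1, hne1⟩
  set n0 := Nat.find hex with hn0
  have hle : n0 ≤ n1 := Nat.find_min' hex hne1
  have hne0 : coeff n0 M.det ≠ 0 := Nat.find_spec hex
  have hlow : ∀ i < n0, coeff i M.det = 0 := by
    intro i hi
    have := Nat.find_min hex hi
    push Not at this
    exact this
  have hB : 8 * n0 ≤ BB m := le_trans (Nat.mul_le_mul_left _ hle) hn1
  set u : Fin (2 ^ (m + 1)) → S := fun b => sc (m + 1) ((b : ℕ) : ℤ) U with hu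
  have hMu : ∀ r, (M.mulVec u) r = sc (m + 1) (c * σ r + ((r : ℕ) : ℤ)) (U * T ^ σ r) := by
    intro r
    rw [sc_mul, Matrix.mulVec, dotProduct]
    refine Finset.sum_congr rfl fun b _ => ?_
    rw [hM, hu, mul_comm]
    unfold Ms
    congr 2
    ring
  have hzero : ∀ r, ∀ i ≤ n0, coeff i ((M.mulVec u) r) = 0 := by
    intro r i hi
    rw [hMu, coeff_sc]
    split_ifs with h
    · exact hσ r i (by omega) h
    · rfl
  have hadj : M.adjugate.mulVec (M.mulVec u) = M.det • u := by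
    rw [Matrix.mulVec_mulVec, Matrix.adjugate_mul, Matrix.smul_mulVec, Matrix.one_mulVec]
  have hpos : 0 < 2 ^ (m + 1) := by positivity
  have h0 := congrFun hadj ⟨0, hpos⟩
  have h1 := congrArg (coeff n0) h0
  rw [Pi.smul_apply, smul_eq_mul, Matrix.mulVec, dotProduct, map_sum,
    Finset.sum_eq_zero (fun r _ => coeff_mul_eq_zero (hzero r)),
    Pool.Agent.K7.H72.MT.coeff_low hlow] at h1
  · exact hne0 h1.symm
  · rw [hu]
    simp only
    rw [coeff_sc, if_pos (by simp), hU]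

theorem exists_exp (l : ℕ) : ∃ j : ℕ, 3 * j + 1 = 2 ^ l * 2 ^ l := by
  have h4 : 4 ^ l % 3 = 1 := by
    rw [Nat.pow_mod]
    norm_num
  have e : 2 ^ l * 2 ^ l = 4 ^ l := (mul_pow 2 2 l).symm
  rw [e]
  exact ⟨4 ^ l / 3, by omega⟩

theorem P_pow_eq (l s j : ℕ) (hj : 3 * j + 1 = 2 ^ l * 2 ^ l) :
    P ^ s = T ^ (s * j) * P ^ (2 ^ l * (s * 2 ^ l)) := by
  have e : 2 ^ l * (s * 2 ^ l) = 3 * (s * j) + s := by
    have : 2 ^ l * (s * 2 ^ l) = s * (2 ^ l * 2 ^ l) := by ring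
    rw [this, ← hj]
    ring
  rw [e, pow_add, ← mul_assoc]
  unfold T
  rw [← pow_mul, ← mul_pow, mul_comm E P, P_mul_E, one_pow, one_mul]

theorem P_zero : coeff 0 P = 1 := Pool.Agent.K7.H72.MT.isP_P2.zero

theorem line_P (m : ℕ) (U : S) (hU : coeff 0 U = 1) (c : ℤ) : ∃ r : ℤ, ∀ s : ℕ,
    ∃ n : ℕ, 8 * n ≤ BB m ∧ (2 ^ (m + 1) : ℤ) ∣ (n : ℤ) - (c * s + r) ∧
      coeff n (U * P ^ s) ≠ 0 := by
  classical
  obtain ⟨j, hj⟩ := exists_exp (m + 1)
  obtain ⟨r, hr⟩ := line_T m U hU (-3 * c)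
  refine ⟨((r : ℕ) : ℤ), fun s => ?_⟩
  obtain ⟨n1, h1, h2, h3⟩ := hr (s * j)
  have hcong : (2 ^ (m + 1) : ℤ) ∣ (-3 * c * ((s * j : ℕ) : ℤ) + ((r : ℕ) : ℤ)) -
      (c * s + ((r : ℕ) : ℤ)) := by
    have hj' : (3 * (j : ℤ) + 1) = 2 ^ (m + 1) * 2 ^ (m + 1) := by exact_mod_cast hj
    refine ⟨-c * s * 2 ^ (m + 1), ?_⟩
    push_cast
    linear_combination (-c * s) * hj'
  have hex : ∃ n : ℕ, (2 ^ (m + 1) : ℤ) ∣ (n : ℤ) - (c * s + ((r : ℕ) : ℤ)) ∧
      coeff n (U * T ^ (s * j)) ≠ 0 := by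
    refine ⟨n1, ?_, h3⟩
    have := dvd_add h2 hcong
    rwa [sub_add_sub_cancel] at this
  set n := Nat.find hex with hn
  obtain ⟨g1, g2⟩ := Nat.find_spec hex
  have hle : n ≤ n1 := Nat.find_min' hex ⟨by
    have := dvd_add h2 hcong
    rwa [sub_add_sub_cancel] at this, h3⟩
  refine ⟨n, le_trans (Nat.mul_le_mul_left _ hle) h1, g1, ?_⟩
  rw [P_pow_eq (m + 1) s j hj, ← mul_assoc, coeff_mul, Finset.sum_eq_single (n, 0)]
  · simp only
    rw [Pool.Agent.K7.H72.MT.coeff_zero_pow P_zero, mul_one]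
    exact g2
  · intro p hp hne
    rw [Finset.HasAntidiagonal.mem_antidiagonal] at hp
    rw [Pool.Agent.K7.H72.MT.coeff_pow_two]
    split_ifs with h
    · have h5 : p.2 ≠ 0 := by
        intro h0
        apply hne
        ext
        · simp only
          omega
        · simp only
          omega
      have h6 : p.1 < n := by omega
      have h7 := Nat.find_min hex h6
      have h8 : coeff p.1 (U * T ^ (s * j)) = 0 := by
        by_contra h9
        apply h7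
        refine ⟨?_, h9⟩
        obtain ⟨q, hq⟩ := h
        have e : (p.1 : ℤ) - (c * s + ((r : ℕ) : ℤ)) = (n - (c * s + ((r : ℕ) : ℤ))) -
            2 ^ (m + 1) * q := by
          have e1 : (n : ℤ) = p.1 + 2 ^ (m + 1) * q := by
            rw [← hp, hq]
            push_cast
            ring
          rw [e1]
          ring
        rw [e]
        exact dvd_sub g1 (Dvd.intro _ rfl)
      rw [h8, zero_mul]
    · rw [mul_zero]
  · intro h
    exfalso
    apply h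
    rw [Finset.HasAntidiagonal.mem_antidiagonal]
    simp

end Pool.Agent.H558.KK
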