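import Pool.Agent.H558.KK.Sec

set_option autoImplicit false

/-!
# The determinants of the matrices of parts: nonvanishing and order
-/

namespace Pool.Agent.H558.KK

open PowerSeries Pool.Agent.TH693.QQ Pool.Agent.H397R2.PP
open Pool.Agent.TH693.PP (S T E P P_mul_E)
open Pool.Agent.R836.RD Pool.Agent.K7.H91.SQ Pool.Agent.R836.RD.FINBaux

/-- the matrix of the parts of the powers of `T` -/
noncomputable def Ms (l : ℕ) (σ : Fin (2 ^ l) → ℕ) (x y : ℤ) :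
    Matrix (Fin (2 ^ l)) (Fin (2 ^ l)) S :=
  fun r b => sc l (x * σ r + y * (((r : ℕ) : ℤ) - ((b : ℕ) : ℤ))) (T ^ σ r)

/-- the classes of the entries -/
def cls (l : ℕ) (σ : Fin (2 ^ l) → ℕ) (c : ℤ) (r b : Fin (2 ^ l)) : ℤ :=
  8 * (((r : ℕ) : ℤ) - ((b : ℕ) : ℤ)) + (1 + 8 * c) * σ r

/-- the matrix of the normalised parts of the powers of `D` -/
noncomputable def Nm (l : ℕ) (σ : Fin (2 ^ l) → ℕ) (c : ℤ) (γ : ZMod (2 ^ (l + 3))) :
    Matrix (Fin (2 ^ l)) (Fin (2 ^ l)) OB :=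
  fun r b => Xn (l + 3) (γ * (cls l σ c r b : ZMod (2 ^ (l + 3)))) (dO 1 1 ^ σ r)

/-- the matrix of the normalised parts of the powers of `D`, as Laurent series -/
noncomputable def Hm (l : ℕ) (σ : Fin (2 ^ l) → ℕ) (c : ℤ) (γ : ZMod (2 ^ (l + 3))) :
    Matrix (Fin (2 ^ l)) (Fin (2 ^ l)) Om :=
  fun r b => prO (l + 3) (γ * (cls l σ c r b : ZMod (2 ^ (l + 3)))) (dO 1 1 ^ σ r) / dO 1 1 ^ σ r

theorem Nm_eq (l : ℕ) (σ : Fin (2 ^ l) → ℕ) (c : ℤ) (γ : ZMod (2 ^ (l + 3))) :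
    (Nm l σ c γ).det = io' (Hm l σ c γ).det := by
  rw [RingHom.map_det]
  congr 1
  ext r b
  rw [RingHom.mapMatrix_apply, Matrix.map_apply]
  unfold Nm Hm Xn
  rw [map_div₀]

/-- the common denominator -/
noncomputable def u0 (l : ℕ) (σ : Fin (2 ^ l) → ℕ) : Om := ∏ r, e8 (T ^ σ r)

theorem lead_prod {ι : Type*} (s : Finset ι) (f : ι → Om) (h : ∀ i ∈ s, Lead (f i) 0) :
    Lead (∏ i ∈ s, f i) 0 := by
  classical
  induction s using Finset.induction_on with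
  | empty =>
    rw [Finset.prod_empty]
    exact ⟨one_ne_zero, HahnSeries.order_one⟩
  | insert a s ha ih =>
    rw [Finset.prod_insert ha]
    have := (h a (Finset.mem_insert_self _ _)).mul (ih fun i hi => h i (Finset.mem_insert_of_mem hi))
    rwa [add_zero] at this

theorem u0_lead (l : ℕ) (σ : Fin (2 ^ l) → ℕ) : Lead (u0 l σ) 0 :=
  lead_prod _ _ fun r _ => e8_lead (T_pow_zero (σ r))

theorem Hm_val (l : ℕ) (σ : Fin (2 ^ l) → ℕ) (c a : ℤ) :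
    (Hm l σ c ((1 + 8 * a : ℤ) : ZMod (2 ^ (l + 3)))).det =
      e8 (Ms l σ (a + c + 8 * a * c) (1 + 8 * a)).det / u0 l σ := by
  have h1 : Hm l σ c ((1 + 8 * a : ℤ) : ZMod (2 ^ (l + 3))) = Matrix.of fun r b =>
      (e8 (T ^ σ r))⁻¹ * (e8.mapMatrix (Ms l σ (a + c + 8 * a * c) (1 + 8 * a))) r b := by
    ext1 r b
    rw [Matrix.of_apply, RingHom.mapMatrix_apply, Matrix.map_apply]
    unfold Hm Ms
    have h2 : ((1 + 8 * a : ℤ) : ZMod (2 ^ (l + 3))) * (cls l σ c r b : ZMod (2 ^ (l + 3))) =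
        ((8 * ((a + c + 8 * a * c) * σ r + (1 + 8 * a) * (((r : ℕ) : ℤ) - ((b : ℕ) : ℤ))) + σ r : ℤ) :
          ZMod (2 ^ (l + 3))) := by
      rw [← Int.cast_mul]
      congr 1
      unfold cls
      ring
    rw [h2, prO_dO]
    conv_lhs => rw [dO_pow]
    rw [mul_div_mul_left _ _ (Xs_ne _), div_eq_mul_inv, mul_comm]
  rw [h1, Matrix.det_mul_column, ← RingHom.map_det, Finset.prod_inv_distrib, div_eq_mul_inv,
    mul_comm]
  rfl

/-- the matrix with constant coefficients the identity -/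
theorem Ms_ne0 (l : ℕ) (σ : Fin (2 ^ l) → ℕ) {x y : ℤ} (hx : (2 ^ l : ℤ) ∣ x) (hy : Odd y) :
    (Ms l σ x y).det ≠ 0 := by
  intro h
  have h1 := congrArg constantCoeff h
  rw [RingHom.map_det, map_zero] at h1
  have h2 : (constantCoeff (R := ZMod 2)).mapMatrix (Ms l σ x y) = 1 := by
    ext r b
    rw [RingHom.mapMatrix_apply, Matrix.map_apply, ← coeff_zero_eq_constantCoeff_apply]
    unfold Ms
    rw [coeff_sc, T_pow_zero, Matrix.one_apply]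
    have h3 : (2 ^ l : ℤ) ∣ ((0 : ℕ) : ℤ) - (x * σ r + y * (((r : ℕ) : ℤ) - ((b : ℕ) : ℤ))) ↔ r = b := by
      have h4 : (2 ^ l : ℤ) ∣ ((0 : ℕ) : ℤ) - (x * σ r + y * (((r : ℕ) : ℤ) - ((b : ℕ) : ℤ))) ↔
          (2 ^ l : ℤ) ∣ y * (((b : ℕ) : ℤ) - ((r : ℕ) : ℤ)) := by
        apply dvd_congr
        have e : ((0 : ℕ) : ℤ) - (x * σ r + y * (((r : ℕ) : ℤ) - ((b : ℕ) : ℤ))) -
            y * (((b : ℕ) : ℤ) - ((r : ℕ) : ℤ)) = -(x * σ r) := by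
          push_cast
          ring
        rw [e, dvd_neg]
        exact hx.mul_right _
      rw [h4]
      constructor
      · intro h5
        have hco : IsCoprime ((2 : ℤ) ^ l) y := by
          apply IsCoprime.pow_left
          obtain ⟨d, rfl⟩ := hy
          exact ⟨-d, 1, by ring⟩
        have h6 := hco.dvd_of_dvd_mul_left h5
        have h7 : r.1 ≡ b.1 [MOD 2 ^ l] := by
          rw [Nat.modEq_iff_dvd]
          push_cast
          exact h6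
        ext
        exact Nat.ModEq.eq_of_lt_of_lt h7 r.2 b.2
      · rintro rfl
        rw [sub_self, mul_zero]
        exact dvd_zero _
    simp only [h3]
  rw [h2, Matrix.det_one] at h1
  exact one_ne_zero h1

theorem exists_inv (k : ℕ) (z : ℤ) : ∃ a : ℤ, (2 ^ k : ℤ) ∣ (1 + 8 * a) * (1 + 8 * z) - 1 := by
  refine ⟨-z * ∑ i ∈ Finset.range k, (-8 * z) ^ i, ?_⟩
  have h1 := mul_neg_geom_sum (-8 * z) k
  set s := ∑ i ∈ Finset.range k, (-8 * z) ^ i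
  have h2 : (1 + 8 * (-z * s)) * (1 + 8 * z) - 1 = (8 * z) * (-8 * z) ^ k := by
    linear_combination (-8 * z) * h1
  rw [h2]
  apply Dvd.dvd.mul_left
  apply pow_dvd_pow_of_dvd
  exact ⟨-4 * z, by ring⟩

theorem rho_Xn {κ : ℕ} {ρ : OB ≃ₐ[kk] OB} {u : (ZMod (2 ^ κ))ˣ} (hρ : ρ (dB 1 1) = dB 1 1)
    (h : CompT κ ρ u (dO 1 1) (dO 1 1)) (n : ℕ) (γ : ZMod (2 ^ κ)) :
    ρ (Xn κ γ (dO 1 1 ^ n)) = Xn κ (u * γ) (dO 1 1 ^ n) := by
  have h1 := h.pow n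
  have h2 : ρ (io' (dO 1 1 ^ n)) = io' (dO 1 1 ^ n) := by
    have : io' (dO 1 1 ^ n) = dB 1 1 ^ n := by rw [map_pow]; rfl
    rw [this, map_pow, hρ]
  unfold Xn
  rw [map_div₀, h2, h1 γ]

theorem rho_Nm {l : ℕ} {ρ : OB ≃ₐ[kk] OB} {u : (ZMod (2 ^ (l + 3)))ˣ} (hρ : ρ (dB 1 1) = dB 1 1)
    (h : CompT (l + 3) ρ u (dO 1 1) (dO 1 1)) (σ : Fin (2 ^ l) → ℕ) (c : ℤ)
    (γ : ZMod (2 ^ (l + 3))) : ρ (Nm l σ c γ).det = (Nm l σ c (u * γ)).det := by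
  rw [AlgEquiv.map_det]
  congr 1
  ext r b
  rw [AlgEquiv.mapMatrix_apply, Matrix.map_apply]
  unfold Nm
  rw [rho_Xn hρ h, mul_assoc]

/-- all these determinants are nonzero -/
theorem Ms_ne (m : ℕ) (σ : Fin (2 ^ (m + 1)) → ℕ) (c a : ℤ) :
    (Ms (m + 1) σ (a + c + 8 * a * c) (1 + 8 * a)).det ≠ 0 := by
  obtain ⟨a1, ha1⟩ := exists_inv (m + 4) (a + c + 8 * a * c)
  obtain ⟨ρ, hρ, hcomp⟩ := auto_all m a1
  have ho : Odd (1 + 8 * a1) := ⟨4 * a1, by ring⟩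
  obtain ⟨u, hu⟩ := isUnit_odd (m + 4) ho
  rw [← hu] at hcomp
  have h1 := rho_Nm (l := m + 1) hρ hcomp σ c ((1 + 8 * a : ℤ) : ZMod (2 ^ (m + 1 + 3)))
  intro h0
  have h2 : (Nm (m + 1) σ c ((1 + 8 * a : ℤ) : ZMod (2 ^ (m + 1 + 3)))).det = 0 := by
    rw [Nm_eq, Hm_val, h0, map_zero, zero_div, map_zero]
  rw [h2, map_zero] at h1
  have h3 : (u : ZMod (2 ^ (m + 1 + 3))) * ((1 + 8 * a : ℤ) : ZMod (2 ^ (m + 1 + 3))) =
      ((1 + 8 * (a1 + a + 8 * a1 * a) : ℤ) : ZMod (2 ^ (m + 1 + 3))) := by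
    have : (u : ZMod (2 ^ (m + 1 + 3))) = ((1 + 8 * a1 : ℤ) : ZMod (2 ^ (m + 1 + 3))) := hu
    rw [this, ← Int.cast_mul]
    congr 1
    ring
  rw [h3, Nm_eq, Hm_val, eq_comm, _root_.map_eq_zero, div_eq_zero_iff] at h1
  rcases h1 with h1 | h1
  · rw [map_eq_zero_iff e8 e8_inj] at h1
    refine Ms_ne0 (m + 1) σ ?_ ?_ h1
    · have e2 : (2 : ℤ) ^ (m + 4) = 8 * 2 ^ (m + 1) := by ring
      rw [e2] at ha1
      have e3 : (1 + 8 * a1) * (1 + 8 * (a + c + 8 * a * c)) - 1 =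
          8 * (a1 + a + 8 * a1 * a + c + 8 * (a1 + a + 8 * a1 * a) * c) := by ring
      rw [e3, mul_dvd_mul_iff_left (by norm_num)] at ha1
      exact ha1
    · exact ⟨4 * (a1 + a + 8 * a1 * a), by ring⟩
  · exact (u0_lead (m + 1) σ).1 h1

theorem Ie.det {t : OB} {ι : Type*} [Fintype ι] [DecidableEq ι] (A : Matrix ι ι OB)
    (h : ∀ i j, Ie t (A i j)) : Ie t A.det := by
  rw [Matrix.det_apply']
  refine Ie.sum _ _ fun σ _ => Ie.mul ?_ (Ie.prod _ _ fun i _ => h _ _)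
  rcases Int.units_eq_one_or (Equiv.Perm.sign σ) with h1 | h1
  · rw [h1]
    simpa using ie_one t
  · rw [h1]
    have : (((-1 : ℤˣ) : ℤ) : OB) = 1 := by
      push_cast
      linear_combination -two_OB
    rw [this]
    exact ie_one t

end Pool.Agent.H558.KK
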