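import Pool.Agent.H558.KK.Blk

set_option autoImplicit false

/-!
# The growth over all scales
-/

namespace Pool.Agent.H558.KK

open PowerSeries Finset
open Pool.Agent.K7.H72.MT hiding W few

/-- the sum of the reciprocals of the number of good sections -/
def Mom (V V' k : ℕ) (lam : ℝ) : Prop := ∀ L : List El, 0 < gv V L →
  (∀ t, 0 < gv V' (desc P2 k L t)) ∧
    ∑ t ∈ range (2 ^ k), ((gv V' (desc P2 k L t) : ℝ))⁻¹ ≤ lam / gv V L

theorem block_mom {m V V' : ℕ} (hV : V + 4 * (2 ^ (m + 1)) ^ 4 ≤ 2 ^ (m + 1) * V') :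
    Mom V V' (m + 1) (m + 2) := by
  intro L hL
  obtain ⟨N, h1, h2⟩ := all_elem hV L
  have hg : (0 : ℝ) < gv V L := by exact_mod_cast hL
  have hl : (0 : ℝ) < 2 ^ (m + 1) := by positivity
  have hpos : ∀ s < 2 ^ (m + 1), 0 < gv V' (desc P2 (m + 1) L s) := by
    intro s hs
    have h3 := h1 s hs
    have h4 : 0 < (2 ^ (m + 1) * gv V L) ^ 2 := by positivity
    exact Nat.pos_of_mul_pos_right (h4.trans_le h3)
  refine ⟨fun t => ?_, ?_⟩
  · rw [← desc_mod]
    exact hpos _ (Nat.mod_lt _ (by positivity))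
  · have h3 : ∀ s ∈ range (2 ^ (m + 1)), ((gv V' (desc P2 (m + 1) L s) : ℝ))⁻¹ ≤
        (N s : ℝ) / (2 ^ (m + 1) * gv V L) ^ 2 := by
      intro s hs
      rw [mem_range] at hs
      have h4 : (0 : ℝ) < gv V' (desc P2 (m + 1) L s) := by exact_mod_cast hpos s hs
      rw [inv_eq_one_div, div_le_div_iff₀ h4 (by positivity), one_mul]
      have h5 := h1 s hs
      have h6 : ((2 ^ (m + 1) * gv V L) ^ 2 : ℝ) ≤ gv V' (desc P2 (m + 1) L s) * N s := by
        exact_mod_cast h5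
      linarith
    refine (sum_le_sum h3).trans ?_
    rw [← sum_div]
    have h7 : (∑ s ∈ range (2 ^ (m + 1)), (N s : ℝ)) ≤ (m + 2) * (2 ^ (m + 1)) ^ 2 * gv V L := by
      exact_mod_cast h2
    calc _ ≤ ((m + 2) * (2 ^ (m + 1)) ^ 2 * gv V L : ℝ) / (2 ^ (m + 1) * gv V L) ^ 2 := by
          gcongr
      _ = (m + 2) / gv V L := by
          field_simp

theorem desc_add (G : S) (k k' : ℕ) : ∀ (L : List El) (t : ℕ),
    desc G (k + k') L t = desc G k' (desc G k L t) (t / 2 ^ k) := by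
  induction k with
  | zero =>
    intro L t
    rw [zero_add, pow_zero, Nat.div_one]
    rfl
  | succ k ih =>
    intro L t
    rw [show k + 1 + k' = (k + k') + 1 by ring, desc, desc, ih, Nat.div_div_eq_div_mul, pow_succ']

theorem sum_pow_add {M : Type*} [AddCommMonoid M] (k k' : ℕ) (f : ℕ → M) :
    ∑ t ∈ range (2 ^ (k + k')), f t = ∑ a ∈ range (2 ^ k), ∑ b ∈ range (2 ^ k'), f (a + 2 ^ k * b) := by
  have hp : 0 < 2 ^ k := by positivity
  rw [← sum_product']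
  refine sum_nbij' (fun t => (t % 2 ^ k, t / 2 ^ k)) (fun p => p.1 + 2 ^ k * p.2) ?_ ?_ ?_ ?_ ?_
  · intro t ht
    rw [mem_range, pow_add] at ht
    rw [mem_product, mem_range, mem_range]
    exact ⟨Nat.mod_lt _ hp, Nat.div_lt_of_lt_mul ht⟩
  · intro p hp'
    rw [mem_product, mem_range, mem_range] at hp'
    rw [mem_range, pow_add]
    calc p.1 + 2 ^ k * p.2 < 2 ^ k + 2 ^ k * p.2 := by omega
      _ = 2 ^ k * (p.2 + 1) := by ring
      _ ≤ 2 ^ k * 2 ^ k' := Nat.mul_le_mul_left _ hp'.2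
  · intro t _
    exact Nat.mod_add_div t (2 ^ k)
  · intro p hp'
    rw [mem_product, mem_range, mem_range] at hp'
    ext
    · simp only
      rw [Nat.add_mul_mod_self_left, Nat.mod_eq_of_lt hp'.1]
    · simp only
      rw [Nat.add_mul_div_left _ _ hp, Nat.div_eq_of_lt hp'.1, zero_add]
  · intro t _
    rw [Nat.mod_add_div]

theorem Mom.comp {V V' V'' k k' : ℕ} {a b : ℝ} (hb : 0 ≤ b) (h : Mom V V' k a)
    (h' : Mom V' V'' k' b) : Mom V V'' (k + k') (a * b) := by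
  intro L hL
  obtain ⟨h1, h2⟩ := h L hL
  refine ⟨fun t => ?_, ?_⟩
  · rw [desc_add]
    exact (h' _ (h1 t)).1 _
  · rw [sum_pow_add]
    have h3 : ∀ x ∈ range (2 ^ k), ∑ y ∈ range (2 ^ k'),
        ((gv V'' (desc P2 (k + k') L (x + 2 ^ k * y)) : ℝ))⁻¹ ≤ b * ((gv V' (desc P2 k L x) : ℝ))⁻¹ := by
      intro x hx
      rw [mem_range] at hx
      have h4 := (h' _ (h1 x)).2
      rw [← div_eq_mul_inv]
      refine le_trans (le_of_eq ?_) h4
      refine sum_congr rfl fun y _ => ?_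
      rw [desc_add, ← desc_mod P2 k L (x + 2 ^ k * y), Nat.add_mul_mod_self_left,
        Nat.mod_eq_of_lt hx, Nat.add_mul_div_left _ _ (by positivity), Nat.div_eq_of_lt hx, zero_add]
    refine (sum_le_sum h3).trans ?_
    rw [← mul_sum]
    calc _ ≤ b * (a / gv V L) := by gcongr
      _ = a * b / gv V L := by ring

theorem Mom.mono {V V' k : ℕ} {a b : ℝ} (h : Mom V V' k a) (hab : a ≤ b) : Mom V V' k b := by
  intro L hL
  obtain ⟨h1, h2⟩ := h L hL
  refine ⟨h1, h2.trans ?_⟩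
  gcongr

theorem gv_mono {V V' : ℕ} (h : V ≤ V') (L : List El) : gv V L ≤ gv V' L := by
  classical
  induction L with
  | nil => simp [gv]
  | cons x L ih =>
    rw [gv_cons, gv_cons]
    refine add_le_add ?_ ih
    rw [nv_zero, nv_zero]
    by_cases hx : Gv V x.1
    · rw [if_pos hx, if_pos (hx.mono h)]
    · rw [if_neg hx]
      exact Nat.zero_le _

theorem Mom.start {V V0 V' k : ℕ} {a : ℝ} (ha : 0 ≤ a) (h : Mom V V' k a) (hV : V0 ≤ V) :
    Mom V0 V' k a := by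
  intro L hL
  have h3 := gv_mono hV L
  obtain ⟨h1, h2⟩ := h L (by omega)
  refine ⟨h1, h2.trans ?_⟩
  have h4 : (gv V0 L : ℝ) ≤ gv V L := by exact_mod_cast h3
  have h5 : (0 : ℝ) < gv V0 L := by exact_mod_cast hL
  gcongr

theorem mom_zero (V : ℕ) : Mom V V 0 1 := by
  intro L hL
  refine ⟨fun t => hL, ?_⟩
  rw [pow_zero, range_one, sum_singleton, one_div]
  exact le_rfl

theorem block_mom' {l V V' : ℕ} (hl : 1 ≤ l) (hV : V + 4 * (2 ^ l) ^ 4 ≤ 2 ^ l * V') :
    Mom V V' l (l + 1) := by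
  obtain ⟨m, rfl⟩ : ∃ m, l = m + 1 := ⟨l - 1, by omega⟩
  have := block_mom hV
  push_cast
  rw [add_assoc]
  norm_num
  exact this

/-- the reduction of the threshold -/
theorem stage {l : ℕ} (hl : 1 ≤ l) : Mom (16 * 8 ^ (2 * l)) (16 * 8 ^ l) (4 * l) ((l + 1) ^ 4) := by
  have e8 : ∀ j, 8 ^ j = (2 ^ j) ^ 3 := by
    intro j
    rw [← pow_mul, mul_comm j 3, pow_mul]
    norm_num
  have e2 : 8 ^ (2 * l) = (2 ^ l) ^ 6 := by
    rw [e8, ← pow_mul, ← pow_mul]
    congr 1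
    ring
  rw [e2, e8]
  have h2 : 2 ≤ 2 ^ l := by
    calc 2 = 2 ^ 1 := by norm_num
      _ ≤ 2 ^ l := Nat.pow_le_pow_right (by norm_num) hl
  generalize hq : 2 ^ l = q at h2
  have b1 : Mom (16 * q ^ 6) (16 * q ^ 5 + 4 * q ^ 3) l (l + 1) := by
    apply block_mom' hl
    rw [hq]
    exact le_of_eq (by ring)
  have b2 : Mom (16 * q ^ 5 + 4 * q ^ 3) (16 * q ^ 4 + 4 * q ^ 3 + 4 * q ^ 2) l (l + 1) := by
    apply block_mom' hl
    rw [hq]
    exact le_of_eq (by ring)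
  have b3 : Mom (16 * q ^ 4 + 4 * q ^ 3 + 4 * q ^ 2) (20 * q ^ 3 + 4 * q ^ 2 + 4 * q) l (l + 1) := by
    apply block_mom' hl
    rw [hq]
    exact le_of_eq (by ring)
  have b4 : Mom (20 * q ^ 3 + 4 * q ^ 2 + 4 * q) (16 * q ^ 3) l (l + 1) := by
    apply block_mom' hl
    rw [hq]
    have h3 : 2 * q ≤ q ^ 2 := by nlinarith
    have h4 : 2 * q ^ 2 ≤ q ^ 3 := by nlinarith [sq_nonneg q]
    have h5 : 2 * q ^ 3 ≤ q ^ 4 := by nlinarith [pow_pos (show 0 < q by omega) 3]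
    have h6 : q * (16 * q ^ 3) = 16 * q ^ 4 := by ring
    rw [h6]
    omega
  have hl0 : (0 : ℝ) ≤ (l + 1 : ℝ) := by positivity
  have := ((b1.comp hl0 b2).comp hl0 b3).comp hl0 b4
  have e1 : l + l + l + l = 4 * l := by ring
  have e3 : ((l : ℝ) + 1) * (l + 1) * (l + 1) * (l + 1) = (l + 1) ^ 4 := by ring
  rw [e1, e3] at this
  exact this

/-- the loss over all scales -/
def Lam : ℕ → ℕ
  | 0 => 1
  | m + 1 => (2 ^ m + 1) ^ 4 * Lam m

theorem Lam_le (m : ℕ) : Lam m ≤ 2 ^ (2 * (m * (m + 1))) := by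
  induction m with
  | zero => simp [Lam]
  | succ m ih =>
    rw [Lam]
    have h1 : 2 ^ m + 1 ≤ 2 ^ (m + 1) := by
      have : 1 ≤ 2 ^ m := Nat.one_le_two_pow
      rw [pow_succ]
      omega
    calc (2 ^ m + 1) ^ 4 * Lam m ≤ (2 ^ (m + 1)) ^ 4 * 2 ^ (2 * (m * (m + 1))) := by gcongr
      _ = 2 ^ (2 * ((m + 1) * (m + 1 + 1))) := by
          rw [← pow_mul, ← pow_add]
          congr 1
          ring

theorem scales (m : ℕ) : Mom (16 * 8 ^ 2 ^ m) 128 (4 * (2 ^ m - 1)) (Lam m) := by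
  induction m with
  | zero =>
    have := mom_zero 128
    simpa [Lam] using this
  | succ m ih =>
    have h1 := stage (l := 2 ^ m) Nat.one_le_two_pow
    have h2 := h1.comp (by positivity) ih
    have e1 : 2 * 2 ^ m = 2 ^ (m + 1) := by ring
    have e2 : 4 * 2 ^ m + 4 * (2 ^ m - 1) = 4 * (2 ^ (m + 1) - 1) := by
      have : 1 ≤ 2 ^ m := Nat.one_le_two_pow
      rw [pow_succ]
      omega
    rw [e1, e2] at h2
    rw [Lam]
    push_cast at h2 ⊢
    exact h2

/-- blocks of constant length -/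
theorem rep_block {l : ℕ} (hl : 1 ≤ l) (q : ℕ) :
    Mom (16 * 8 ^ l) (16 * 8 ^ l) (q * l) ((l + 1) ^ q) := by
  have e8 : 8 ^ l = (2 ^ l) ^ 3 := by
    rw [← pow_mul, mul_comm l 3, pow_mul]
    norm_num
  have h2 : 2 ≤ 2 ^ l := by
    calc 2 = 2 ^ 1 := by norm_num
      _ ≤ 2 ^ l := Nat.pow_le_pow_right (by norm_num) hl
  have b : Mom (16 * 8 ^ l) (16 * 8 ^ l) l (l + 1) := by
    apply block_mom' hl
    rw [e8]
    generalize 2 ^ l = q at h2
    have h5 : 2 * q ^ 3 ≤ q ^ 4 := by nlinarith [pow_pos (show 0 < q by omega) 3]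
    have h6 : q * (16 * q ^ 3) = 16 * q ^ 4 := by ring
    rw [h6]
    omega
  induction q with
  | zero =>
    rw [zero_mul, pow_zero]
    exact mom_zero _
  | succ q ih =>
    have := ih.comp (by positivity) b
    rw [add_mul, one_mul, pow_succ]
    exact this

/-- a shorter block -/
theorem short_block {l r : ℕ} (hr : r < l) : Mom (16 * 8 ^ l) (16 * 8 ^ l) r (l + 1) := by
  rcases Nat.eq_zero_or_pos r with h0 | h0
  · rw [h0]
    refine (mom_zero _).mono ?_
    have : (0 : ℝ) ≤ l := by positivity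
    linarith
  · refine (block_mom' h0 ?_).mono ?_
    · have e1 : (2 ^ r) ^ 4 = 2 ^ r * 8 ^ r := by
        have : 8 ^ r = (2 ^ r) ^ 3 := by
          rw [← pow_mul, mul_comm r 3, pow_mul]
          norm_num
        rw [this]
        ring
      have h1 : 8 ^ r ≤ 8 ^ l := Nat.pow_le_pow_right (by norm_num) hr.le
      have h2 : 2 ≤ 2 ^ r := by
        calc 2 = 2 ^ 1 := by norm_num
          _ ≤ 2 ^ r := Nat.pow_le_pow_right (by norm_num) h0
      rw [e1]
      generalize 2 ^ r = q at h2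
      generalize 8 ^ r = a at h1
      generalize 8 ^ l = b at h1
      have h3 : q * a ≤ q * b := Nat.mul_le_mul_left _ h1
      have h4 : 2 * b ≤ q * b := Nat.mul_le_mul_right _ h2
      have h5 : q * (16 * b) = 16 * (q * b) := by ring
      rw [h5]
      omega
    · have : (r : ℝ) ≤ l := by exact_mod_cast hr.le
      linarith

/-- the loss for `k` digits -/
def lam (k : ℕ) : ℕ := 2 ^ (2 * ((Nat.log 2 (k / 4 + 1) + 1) * (Nat.log 2 (k / 4 + 1) + 2)))

theorem all_k (k : ℕ) : Mom (16 * 8 ^ 2 ^ Nat.log 2 (k / 4 + 1)) 128 k (lam k) := by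
  set m := Nat.log 2 (k / 4 + 1) with hm
  have h1 : 2 ^ m ≤ k / 4 + 1 := Nat.pow_log_le_self 2 (by omega)
  have h2 : k / 4 + 1 < 2 ^ (m + 1) := Nat.lt_pow_succ_log_self (by norm_num) _
  have h3 : 1 ≤ 2 ^ m := Nat.one_le_two_pow
  rw [pow_succ] at h2
  set k' := k - 4 * (2 ^ m - 1) with hk'
  have hk1 : k' < 4 * 2 ^ m := by omega
  set q := k' / 2 ^ m with hq
  have hq3 : q < 4 := Nat.div_lt_of_lt_mul (by rw [mul_comm]; exact hk1)
  have h4 := rep_block h3 q
  have h5 := short_block (Nat.mod_lt k' (show 2 ^ m > 0 by omega))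
  have h6 := (h4.comp (by positivity) h5).comp (by positivity) (scales m)
  have e1 : q * 2 ^ m + k' % 2 ^ m + 4 * (2 ^ m - 1) = k := by
    have : q * 2 ^ m + k' % 2 ^ m = k' := by
      rw [hq, mul_comm]
      exact Nat.div_add_mod k' (2 ^ m)
    omega
  rw [e1] at h6
  refine h6.mono ?_
  have h7 : ((2 ^ m : ℕ) + 1 : ℝ) ^ q * ((2 ^ m : ℕ) + 1) * Lam m ≤ Lam (m + 1) := by
    have h8 : (2 ^ m + 1) ^ q * (2 ^ m + 1) * Lam m ≤ Lam (m + 1) := by
      rw [Lam, ← pow_succ]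
      apply Nat.mul_le_mul_right
      exact Nat.pow_le_pow_right (by omega) (by omega)
    exact_mod_cast h8
  refine h7.trans ?_
  have h9 := Lam_le (m + 1)
  have h10 : Lam (m + 1) ≤ lam k := h9
  exact_mod_cast h10

/-- the number of the `t` with few good sections -/
theorem few (V0 : ℕ) : ∃ C : ℝ, 0 < C ∧ ∀ (k : ℕ) (L : List El), 0 < gv V0 L → ∀ B : ℝ, 1 ≤ B →
    (#{t ∈ range (2 ^ k) | (gv 128 (desc P2 k L t) : ℝ) < B} : ℝ) ≤ C * B * lam k := by
  refine ⟨2 ^ (8 * V0), by positivity, ?_⟩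
  intro k L hL B hB
  have hlam : (1 : ℝ) ≤ lam k := by
    have : 1 ≤ lam k := Nat.one_le_two_pow
    exact_mod_cast this
  set m := Nat.log 2 (k / 4 + 1) with hm
  have h1 : 2 ^ m ≤ k / 4 + 1 := Nat.pow_log_le_self 2 (by omega)
  have h2 : k / 4 + 1 < 2 ^ (m + 1) := Nat.lt_pow_succ_log_self (by norm_num) _
  rcases Nat.lt_or_ge (16 * 8 ^ 2 ^ m) V0 with h3 | h3
  · have h4 : 2 ^ m < 8 ^ 2 ^ m := Nat.lt_pow_self (by norm_num)
    have h5 : k ≤ 8 * V0 := by
      rw [pow_succ] at h2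
      omega
    calc _ ≤ ((range (2 ^ k)).card : ℝ) := by exact_mod_cast card_filter_le _ _
      _ = 2 ^ k := by rw [card_range]; push_cast; rfl
      _ ≤ 2 ^ (8 * V0) := pow_le_pow_right₀ (by norm_num) h5
      _ = 2 ^ (8 * V0) * 1 * 1 := by ring
      _ ≤ 2 ^ (8 * V0) * B * lam k := by gcongr
  · obtain ⟨h4, h5⟩ := (Mom.start (by positivity) (all_k k) h3) L hL
    have hg : (1 : ℝ) ≤ gv V0 L := by exact_mod_cast hL
    have h6 : (#{t ∈ range (2 ^ k) | (gv 128 (desc P2 k L t) : ℝ) < B} : ℝ) * B⁻¹ ≤ lam k := by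
      calc _ = ∑ t ∈ range (2 ^ k) with (gv 128 (desc P2 k L t) : ℝ) < B, B⁻¹ := by
            rw [sum_const, nsmul_eq_mul]
        _ ≤ ∑ t ∈ range (2 ^ k) with (gv 128 (desc P2 k L t) : ℝ) < B,
            ((gv 128 (desc P2 k L t) : ℝ))⁻¹ := by
            refine sum_le_sum fun t ht => ?_
            rw [mem_filter] at ht
            have h7 : (0 : ℝ) < gv 128 (desc P2 k L t) := by exact_mod_cast h4 t
            exact inv_anti₀ h7 ht.2.le
        _ ≤ ∑ t ∈ range (2 ^ k), ((gv 128 (desc P2 k L t) : ℝ))⁻¹ := by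
            refine sum_le_sum_of_subset_of_nonneg (filter_subset _ _) fun t _ _ => ?_
            positivity
        _ ≤ lam k / gv V0 L := h5
        _ ≤ lam k := div_le_self (by positivity) hg
    rw [mul_inv_le_iff₀ (by linarith)] at h6
    refine h6.trans ?_
    have h8 : (1 : ℝ) ≤ 2 ^ (8 * V0) := one_le_pow₀ (by norm_num)
    have h9 : (0 : ℝ) ≤ lam k * B := by positivity
    nlinarith

end Pool.Agent.H558.KK
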