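import Pool.Agent.H558.KK.Mat

set_option autoImplicit false

/-!
# The order of the determinants
-/

namespace Pool.Agent.H558.KK

open PowerSeries Pool.Agent.TH693.QQ Pool.Agent.H397R2.PP
open Pool.Agent.TH693.PP (S T E P P_mul_E)
open Pool.Agent.R836.RD Pool.Agent.K7.H91.SQ Pool.Agent.R836.RD.FINBaux

/-- the classes congruent to 1 modulo 8 -/
noncomputable def Gam (κ : ℕ) : Finset (ZMod (2 ^ κ)) := by
  classical
  exact Finset.univ.filter fun γ => ∃ a : ℤ, γ = ((1 + 8 * a : ℤ) : ZMod (2 ^ κ))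

theorem mem_Gam {κ : ℕ} {γ : ZMod (2 ^ κ)} :
    γ ∈ Gam κ ↔ ∃ a : ℤ, γ = ((1 + 8 * a : ℤ) : ZMod (2 ^ κ)) := by
  classical
  unfold Gam
  rw [Finset.mem_filter]
  simp

theorem one_mem_Gam (κ : ℕ) : (1 : ZMod (2 ^ κ)) ∈ Gam κ := mem_Gam.2 ⟨0, by push_cast; ring⟩

theorem card_Gam (κ : ℕ) : (Gam κ).card ≤ 2 ^ κ := by
  refine (Finset.card_le_univ _).trans ?_
  rw [ZMod.card]

theorem sq_mul_mem {κ : ℕ} {g : ℤ} (hg : Odd g) {γ : ZMod (2 ^ κ)} (h : γ ∈ Gam κ) :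
    (g : ZMod (2 ^ κ)) ^ 2 * γ ∈ Gam κ := by
  obtain ⟨a, rfl⟩ := mem_Gam.1 h
  obtain ⟨d, hd⟩ := hg
  obtain ⟨s, hs⟩ : ∃ s : ℤ, g ^ 2 = 1 + 8 * s := by
    rcases Int.even_or_odd' d with ⟨e, he | he⟩
    · exact ⟨e * (2 * e + 1), by rw [hd, he]; ring⟩
    · exact ⟨(2 * e + 1) * (e + 1), by rw [hd, he]; ring⟩
  rw [mem_Gam]
  refine ⟨s + a + 8 * s * a, ?_⟩
  rw [← Int.cast_pow, hs, ← Int.cast_mul]
  congr 1
  ring

theorem e8_order {f : S} (hf : f ≠ 0) : ∃ n : ℕ, coeff n f ≠ 0 ∧ (e8 f).order = 8 * n := by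
  have hne : e8 f ≠ 0 := fun h => hf ((map_eq_zero_iff e8 e8_inj).1 h)
  have h1 : (e8 f).coeff (e8 f).order ≠ 0 := fun h => hne (HahnSeries.coeff_order_eq_zero.mp h)
  rw [e8_coeff] at h1
  by_cases h2 : (e8 f).order < 0
  · rw [if_pos h2] at h1
    exact absurd rfl h1
  · rw [if_neg h2] at h1
    by_cases h3 : 8 ∣ (e8 f).order.natAbs
    · rw [if_pos h3] at h1
      obtain ⟨q, hq⟩ := h3
      rw [hq, Nat.mul_div_cancel_left _ (by norm_num)] at h1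
      refine ⟨q, fun h => h1 (by rw [h, map_zero]), by omega⟩
    · rw [if_neg h3] at h1
      exact absurd rfl h1

theorem prod_order {ι : Type*} (s : Finset ι) (f : ι → Om) (h : ∀ i ∈ s, f i ≠ 0) :
    Lead (∏ i ∈ s, f i) (∑ i ∈ s, (f i).order) := by
  classical
  induction s using Finset.induction_on with
  | empty =>
    rw [Finset.prod_empty, Finset.sum_empty]
    exact ⟨one_ne_zero, HahnSeries.order_one⟩
  | insert a s ha ih =>
    rw [Finset.prod_insert ha, Finset.sum_insert ha]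
    exact Lead.mul ⟨h a (Finset.mem_insert_self _ _), rfl⟩
      (ih fun i hi => h i (Finset.mem_insert_of_mem hi))

/-- the order of the determinant -/
theorem order_bound (m : ℕ) (σ : Fin (2 ^ (m + 1)) → ℕ) (c : ℤ) :
    ∃ n : ℕ, 8 * n ≤ 2 ^ (m + 4) * (2 ^ (m + 1) * dl qq (m + 4)) ∧
      coeff n (Ms (m + 1) σ c 1).det ≠ 0 := by
  classical
  set t := dB 1 1 with ht
  have ht0 : t ≠ 0 := dB_ne 1 one_ne_zero
  have hf0 : dO 1 1 ≠ 0 := by
    intro h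
    apply ht0
    rw [ht]
    unfold dB
    rw [h, map_zero]
  set δ : ZMod (2 ^ (m + 1 + 3)) → Om := fun γ => (Hm (m + 1) σ c γ).det with hδ
  have hval : ∀ a : ℤ, δ ((1 + 8 * a : ℤ) : ZMod (2 ^ (m + 1 + 3))) =
      e8 (Ms (m + 1) σ (a + c + 8 * a * c) (1 + 8 * a)).det / u0 (m + 1) σ :=
    fun a => Hm_val (m + 1) σ c a
  have hlead : ∀ a : ℤ, ∃ n : ℕ, coeff n (Ms (m + 1) σ (a + c + 8 * a * c) (1 + 8 * a)).det ≠ 0 ∧
      Lead (δ ((1 + 8 * a : ℤ) : ZMod (2 ^ (m + 1 + 3)))) (8 * n) := by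
    intro a
    have hne := Ms_ne m σ c a
    obtain ⟨n, hn, hn'⟩ := e8_order hne
    refine ⟨n, hn, ?_⟩
    rw [hval]
    have h1 : Lead (e8 (Ms (m + 1) σ (a + c + 8 * a * c) (1 + 8 * a)).det) (8 * n) :=
      ⟨fun h => hne ((map_eq_zero_iff e8 e8_inj).1 h), hn'⟩
    have h2 := h1.div (u0_lead (m + 1) σ)
    rwa [sub_zero] at h2
  set Γ := Gam (m + 1 + 3) with hΓ
  have hδne : ∀ γ ∈ Γ, δ γ ≠ 0 ∧ 0 ≤ (δ γ).order := by
    intro γ hγ
    obtain ⟨a, rfl⟩ := mem_Gam.1 hγ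
    obtain ⟨n, -, h1⟩ := hlead a
    refine ⟨h1.1, ?_⟩
    rw [h1.2]
    positivity
  set α : OB := ∏ γ ∈ Γ, (Nm (m + 1) σ c γ).det with hα
  set h : Om := ∏ γ ∈ Γ, δ γ with hh
  have hαh : io' h = α := by
    rw [hh, hα, map_prod]
    exact Finset.prod_congr rfl fun γ _ => (Nm_eq (m + 1) σ c γ).symm
  have hhl : Lead h (∑ γ ∈ Γ, (δ γ).order) := prod_order _ _ fun γ hγ => (hδne γ hγ).1
  have hα0 : α ≠ 0 := by
    rw [← hαh, Ne, _root_.map_eq_zero]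
    exact hhl.1
  have hfix : ∀ ρ : OB ≃ₐ[kk] OB, ρ t = t → ρ α = α := by
    intro ρ hρ
    obtain ⟨g, hg, hact⟩ := act_part 1 one_ne_zero 1 (m + 1) ρ one_ne_zero hρ
    obtain ⟨u, hu⟩ := (isUnit_odd (m + 1 + 3) hg).pow 2
    rw [← hu] at hact
    rw [hα, map_prod]
    simp only [rho_Nm hρ hact]
    have hmaps : ∀ γ ∈ Γ, (u : ZMod (2 ^ (m + 1 + 3))) * γ ∈ Γ := by
      intro γ hγ
      rw [hu]
      exact sq_mul_mem hg hγ
    have hinj : Set.InjOn (fun γ : ZMod (2 ^ (m + 1 + 3)) => (u : ZMod (2 ^ (m + 1 + 3))) * γ) Γ := by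
      intro x _ y _ hxy
      exact u.isUnit.mul_left_cancel hxy
    have himg : Γ.image (fun γ : ZMod (2 ^ (m + 1 + 3)) => (u : ZMod (2 ^ (m + 1 + 3))) * γ) = Γ := by
      apply Finset.eq_of_subset_of_card_le
      · intro x hx
        rw [Finset.mem_image] at hx
        obtain ⟨y, hy, rfl⟩ := hx
        exact hmaps y hy
      · rw [Finset.card_image_of_injOn hinj]
    conv_rhs => rw [← himg]
    rw [Finset.prod_image hinj]
  set d := dl qq (m + 1 + 3) with hd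
  have hG : ∀ n : ℕ, Gdd t (m + 1 + 3) (dO 1 1 ^ n) d := fun n =>
    gdd_pow hf0 qq (gdd_D 1 one_ne_zero) (m + 1 + 3) n
  set B := Γ.card * (2 ^ (m + 1) * d) with hB
  have hint : Ie t α := Ie.prod _ _ fun γ _ => Ie.det _ fun r b => (hG (σ r) _).1
  have hint' : Ie t⁻¹ (α * t⁻¹ ^ B) := by
    have e1 : α * t⁻¹ ^ B = ∏ γ ∈ Γ, ((Nm (m + 1) σ c γ).det * t⁻¹ ^ (2 ^ (m + 1) * d)) := by
      rw [Finset.prod_mul_distrib, Finset.prod_const, ← pow_mul, hB,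
        mul_comm (2 ^ (m + 1) * d)]
    rw [e1]
    refine Ie.prod _ _ fun γ _ => ?_
    have e2 : (Nm (m + 1) σ c γ).det * t⁻¹ ^ (2 ^ (m + 1) * d) =
        ((t⁻¹ ^ d) • Nm (m + 1) σ c γ).det := by
      rw [Matrix.det_smul, Fintype.card_fin, ← pow_mul, mul_comm d]
      ring
    rw [e2]
    refine Ie.det _ fun r b => ?_
    rw [Matrix.smul_apply, smul_eq_mul, mul_comm]
    exact (hG (σ r) _).2
  have htr : Transcendental kk t := EX0Aux.trans_D 1 one_ne_zero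
  have htr' : Transcendental kk t⁻¹ := by
    intro h
    exact htr (by
      have := h.inv
      rwa [inv_inv] at this)
  obtain ⟨e, he, Q, hQ⟩ := fixed_pow htr hint hfix
  obtain ⟨e', he', Q', hQ'⟩ := fixed_pow htr' hint' (by
    intro ρ hρ
    have h1 : ρ t = t := by
      rw [map_inv₀] at hρ
      exact inv_injective hρ
    rw [map_mul, map_pow, hρ, hfix ρ h1])
  obtain ⟨hQ0, hdeg⟩ := deg_le htr hα0 he' hQ hQ'
  rw [← hαh] at hQ
  have h4 := order_le (L := 1) one_ne_zero hhl.1 hQ0 hQ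
  rw [hhl.2] at h4
  have h5 : (Q.natDegree : ℤ) ≤ B * e := by exact_mod_cast hdeg
  have h6 : (e : ℤ) * ∑ γ ∈ Γ, (δ γ).order ≤ e * B := by
    refine h4.trans ?_
    push_cast at h5 ⊢
    linarith
  have h7 := le_of_mul_le_mul_left h6 (by exact_mod_cast he)
  have h1mem : (1 : ZMod (2 ^ (m + 1 + 3))) ∈ Γ := one_mem_Gam _
  have h8 : (δ 1).order ≤ ∑ γ ∈ Γ, (δ γ).order :=
    Finset.single_le_sum (f := fun γ => (δ γ).order) (fun γ hγ => (hδne γ hγ).2) h1mem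
  obtain ⟨n, hn, hn'⟩ := hlead 0
  have e1 : (((1 + 8 * 0 : ℤ)) : ZMod (2 ^ (m + 1 + 3))) = 1 := by push_cast; ring
  have e2 : (0 + c + 8 * 0 * c) = c := by ring
  have e3 : (1 + 8 * 0 : ℤ) = 1 := by ring
  rw [e1] at hn'
  rw [e2, e3] at hn
  refine ⟨n, ?_, hn⟩
  have h9 : (8 * n : ℤ) ≤ B := by
    rw [← hn'.2]
    exact h8.trans h7
  have h10 : 8 * n ≤ B := by exact_mod_cast h9
  refine h10.trans ?_
  rw [hB]
  exact Nat.mul_le_mul_right _ (card_Gam _)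

end Pool.Agent.H558.KK
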