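import Pool.Agent.H558.KK.Unit

set_option autoImplicit false

/-!
# The probability of a small number of disagreements in a progression
-/

namespace Pool.Agent.H558.KK

open PowerSeries Finset Pool.Agent.R836.PP
open Pool.Agent.K7.H72.MT hiding W few dis DD dis_stable dis_vary DD_stable DD_sum DD_block few_bad dis_le DD_le base count

open scoped Classical in
theorem class_of_unit {a : ℝ} (ha : 0 < a) (U : S) (b β t₀ L : ℕ) (hβ : β < 2 ^ b)
    (w : ℕ → ZMod 2) (A : ℕ → Prop) {C' : ℝ} (hC' : 0 < C')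
    (hunit : ∀ K i : ℕ, i ≤ K → ∀ Y : ℝ, 1 ≤ Y → Y ≤ 2 ^ i →
      (#{t ∈ range (2 ^ K) | (N1 P2 (2 ^ i) (node P2 b β t₀ U, (fun a => w (β + 2 ^ b * a)),
        fun a => A (β + 2 ^ b * a)) t : ℝ) < 2 ^ i / Y} : ℝ) ≤
        C' * 2 ^ K * ((lam i : ℝ) / Y) ^ a) :
    ∃ C : ℝ, 0 < C ∧ ∀ K x : ℕ, 1 ≤ x → x < 2 ^ K → ∀ Y : ℝ, 1 ≤ Y → Y ≤ x →
      (#{t ∈ range (2 ^ K) | t % 2 ^ b = t₀ ∧ (cnt P2 b β L U w A t x : ℝ) < x / Y} : ℝ) ≤
        C * 2 ^ K * ((lam (Nat.log 2 x) : ℝ) / Y) ^ a := by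
  set D : ℝ := (L + 1) * 2 ^ (b + 1) with hD
  have hD0 : 0 < D := by positivity
  have hD1 : (2 : ℝ) ^ b ≤ D := by
    rw [hD, pow_succ]
    have h1 : (0 : ℝ) < 2 ^ b := by positivity
    have h2 : (0 : ℝ) ≤ L := by positivity
    nlinarith
  refine ⟨C' * D ^ a + D ^ a, by positivity, ?_⟩
  intro K x hx1 hxK Y hY1 hYx
  have hY0 : 0 < Y := by linarith
  set lm : ℝ := (lam (Nat.log 2 x) : ℝ) with hlm
  have hlm1 : (1 : ℝ) ≤ lm := by
    rw [hlm]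
    exact_mod_cast lam_pos _
  set q : ℝ := lm / Y with hq
  have hq0 : 0 < q := by positivity
  have htriv : (#{t ∈ range (2 ^ K) | t % 2 ^ b = t₀ ∧ (cnt P2 b β L U w A t x : ℝ) < x / Y} : ℝ) ≤
      2 ^ K := by
    have := card_filter_le (range (2 ^ K))
      (fun t => t % 2 ^ b = t₀ ∧ (cnt P2 b β L U w A t x : ℝ) < x / Y)
    rw [card_range] at this
    exact_mod_cast this
  have htriv2 : Y ≤ D → (2 : ℝ) ^ K ≤ (C' * D ^ a + D ^ a) * 2 ^ K * q ^ a := by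
    intro hYD
    have h1 : (1 : ℝ) ≤ D ^ a * q ^ a := by
      rw [← Real.mul_rpow hD0.le hq0.le]
      apply Real.one_le_rpow _ ha.le
      rw [hq, mul_div_assoc', le_div_iff₀ hY0]
      nlinarith
    have h2 : 0 ≤ C' * D ^ a * 2 ^ K * q ^ a := by positivity
    nlinarith [show (0 : ℝ) < 2 ^ K by positivity]
  rcases Nat.lt_or_ge (Nat.log 2 x) b with hlog | hlog
  · have h1 : x < 2 ^ b := Nat.lt_pow_of_log_lt (by norm_num) hlog
    refine htriv.trans (htriv2 ?_)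
    have h2 : (x : ℝ) ≤ 2 ^ b := by exact_mod_cast h1.le
    linarith
  · obtain ⟨i, hi⟩ := Nat.exists_eq_add_of_le hlog
    have hx2 : 2 ^ (b + i) ≤ x := by
      rw [← hi]
      exact Nat.pow_log_le_self 2 (by omega)
    have hx3 : x < 2 ^ (b + i + 1) := by
      rw [← hi]
      exact Nat.lt_pow_succ_log_self (by norm_num) _
    rcases lt_or_ge Y D with hYD | hYD
    · exact htriv.trans (htriv2 hYD.le)
    · have hbK : b + i < K := by
        have : 2 ^ (b + i) < 2 ^ K := by omega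
        exact (Nat.pow_lt_pow_iff_right (by norm_num)).1 this
      have hP : 0 < 2 ^ b := by positivity
      have hx3r : (x : ℝ) ≤ 2 ^ (b + 1) * 2 ^ i := by
        rw [← pow_add, show b + 1 + i = b + i + 1 by ring]
        exact_mod_cast hx3.le
      have hY' : 1 ≤ Y / D := by rwa [le_div_iff₀ hD0, one_mul]
      have hY'' : Y / D ≤ 2 ^ i := by
        rw [div_le_iff₀ hD0]
        calc Y ≤ x := hYx
          _ ≤ 2 ^ (b + 1) * 2 ^ i := hx3r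
          _ ≤ 2 ^ i * D := by
              rw [hD]
              have h1 : (0 : ℝ) ≤ L := by positivity
              have h2 : (0 : ℝ) < 2 ^ (b + 1) * 2 ^ i := by positivity
              nlinarith
      have h1 := hunit (K - b) i (by omega) (Y / D) hY' hY''
      have hcard : #{t ∈ range (2 ^ K) | t % 2 ^ b = t₀ ∧ (cnt P2 b β L U w A t x : ℝ) < x / Y} ≤
          #{t ∈ range (2 ^ (K - b)) | (N1 P2 (2 ^ i) (node P2 b β t₀ U,
            (fun a => w (β + 2 ^ b * a)), fun a => A (β + 2 ^ b * a)) t : ℝ) < 2 ^ i / (Y / D)} := by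
        refine card_le_card_of_injOn (fun t => t / 2 ^ b) ?_ ?_
        · intro t ht
          obtain ⟨htK, ht0, h3⟩ := mem_filter.1 ht
          rw [mem_range] at htK
          have hKb : 2 ^ K = 2 ^ b * 2 ^ (K - b) := by
            rw [← pow_add]
            congr 1
            omega
          rw [mem_coe, mem_filter, mem_range]
          refine ⟨Nat.div_lt_of_lt_mul (by rw [← hKb]; exact htK), ?_⟩
          have hi1 : 1 ≤ 2 ^ i := Nat.one_le_two_pow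
          have h4 := N1_cnt P2 (b := b) (β := β) (t := t) (x := x) (y := 2 ^ i - 1) L U w A hβ (by
            rw [pow_add] at hx2
            have h5 : 2 ^ b * (2 ^ i - 1) + 2 ^ b = 2 ^ b * 2 ^ i := by
              rw [← Nat.mul_succ]
              congr 1
              omega
            omega)
          rw [show 2 ^ i - 1 + 1 = 2 ^ i by omega, ht0] at h4
          have h5 : (N1 P2 (2 ^ i) (node P2 b β t₀ U, (fun a => w (β + 2 ^ b * a)),
              fun a => A (β + 2 ^ b * a)) (t / 2 ^ b) : ℝ) ≤ L + cnt P2 b β L U w A t x := by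
            exact_mod_cast h4
          have h6 : (L : ℝ) ≤ L * (x / Y) := by
            have : (1 : ℝ) ≤ x / Y := by rwa [le_div_iff₀ hY0, one_mul]
            exact le_mul_of_one_le_right (by positivity) this
          calc _ ≤ (L : ℝ) + cnt P2 b β L U w A t x := h5
            _ < L + x / Y := by linarith
            _ ≤ (L + 1) * (x / Y) := by linarith
            _ ≤ (L + 1) * (2 ^ (b + 1) * 2 ^ i / Y) := by gcongr
            _ = 2 ^ i / (Y / D) := by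
                rw [hD]
                field_simp
        · intro t1 h1 t2 h2 h
          have h1' := (mem_filter.1 (mem_coe.1 h1)).2.1
          have h2' := (mem_filter.1 (mem_coe.1 h2)).2.1
          simp only at h
          rw [← Nat.mod_add_div t1 (2 ^ b), ← Nat.mod_add_div t2 (2 ^ b), h, h1', h2']
      have h2 : (#{t ∈ range (2 ^ K) | t % 2 ^ b = t₀ ∧ (cnt P2 b β L U w A t x : ℝ) < x / Y} : ℝ) ≤
          C' * 2 ^ (K - b) * ((lam i : ℝ) / (Y / D)) ^ a := le_trans (by exact_mod_cast hcard) h1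
      have hli : (lam i : ℝ) ≤ lm := by
        rw [hlm]
        exact_mod_cast lam_mono (show i ≤ Nat.log 2 x by omega)
      have h3 : ((lam i : ℝ) / (Y / D)) ^ a ≤ D ^ a * q ^ a := by
        rw [← Real.mul_rpow hD0.le hq0.le]
        apply Real.rpow_le_rpow (by positivity) _ ha.le
        rw [hq]
        calc (lam i : ℝ) / (Y / D) ≤ lm / (Y / D) := by gcongr
          _ = D * (lm / Y) := by field_simp
      have h4 : (2 : ℝ) ^ (K - b) ≤ 2 ^ K := pow_le_pow_right₀ (by norm_num) (by omega)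
      calc _ ≤ C' * 2 ^ (K - b) * ((lam i : ℝ) / (Y / D)) ^ a := h2
        _ ≤ C' * 2 ^ K * (D ^ a * q ^ a) := by gcongr
        _ = C' * D ^ a * 2 ^ K * q ^ a := by ring
        _ ≤ (C' * D ^ a + D ^ a) * 2 ^ K * q ^ a := by
            have h5 : 0 ≤ D ^ a * 2 ^ K * q ^ a := by positivity
            nlinarith

open scoped Classical in
theorem class_prob (R : ℕ) (hR : 1 ≤ R) : ∃ a : ℝ, 0 < a ∧ ∀ (U : S)
    (b β t₀ L : ℕ), β < 2 ^ b → (∃ m, coeff m (node P2 b β t₀ U) ≠ 0) →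
    ∀ (w : ℕ → ZMod 2) (A : ℕ → Prop), (Dn R fun a => A (β + 2 ^ b * a)) →
    ∃ C : ℝ, 0 < C ∧ ∀ K x : ℕ, 1 ≤ x → x < 2 ^ K → ∀ Y : ℝ, 1 ≤ Y → Y ≤ x →
      (#{t ∈ range (2 ^ K) | t % 2 ^ b = t₀ ∧ (cnt P2 b β L U w A t x : ℝ) < x / Y} : ℝ) ≤
        C * 2 ^ K * ((lam (Nat.log 2 x) : ℝ) / Y) ^ a := by
  obtain ⟨a, ha, hmain⟩ := unit_prob R hR
  refine ⟨a, ha, ?_⟩
  intro U b β t₀ L hβ hU w A hA
  obtain ⟨m, hm⟩ := hU
  obtain ⟨C', hC', hb⟩ := hmain (m + 1)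
  have hGv : Gv (m + 1) (node P2 b β t₀ U) := ⟨m, Nat.lt_succ_self m, hm⟩
  exact class_of_unit ha U b β t₀ L hβ w A hC'
    (hb (node P2 b β t₀ U) (fun a => w (β + 2 ^ b * a)) (fun a => A (β + 2 ^ b * a)) hGv hA)

/-- the number of nonzero coefficients at one scale -/
theorem unit_ld (V0 : ℕ) : ∃ C : ℝ, 0 < C ∧ ∀ U : S, Gv V0 U → ∀ K i : ℕ, i ≤ K →
    ∀ Y : ℝ, 1 ≤ Y → Y ≤ 2 ^ i →
      (#{t ∈ range (2 ^ K) | (N1 P2 (2 ^ i) (U, (fun _ => 0), fun _ => True) t : ℝ) < 2 ^ i / Y} :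
        ℝ) ≤ C * 2 ^ K * ((lam i : ℝ) / Y) ^ (1 : ℝ) := by
  obtain ⟨C, hC, hfew⟩ := few V0
  refine ⟨128 * C + 128, by positivity, ?_⟩
  intro U hU K i hiK Y hY1 hYi
  have hY0 : 0 < Y := by linarith
  rw [Real.rpow_one]
  have hlam : (1 : ℝ) ≤ lam i := by exact_mod_cast lam_pos i
  rcases Nat.lt_or_ge i 7 with hi | hi
  · have h1 : Y ≤ 128 := by
      refine hYi.trans ?_
      calc (2 : ℝ) ^ i ≤ 2 ^ 7 := pow_le_pow_right₀ (by norm_num) hi.le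
        _ = 128 := by norm_num
    have h2 : (1 : ℝ) ≤ 128 * ((lam i : ℝ) / Y) := by
      rw [mul_div_assoc', le_div_iff₀ hY0]
      nlinarith
    calc _ ≤ ((range (2 ^ K)).card : ℝ) := by exact_mod_cast card_filter_le _ _
      _ = 2 ^ K := by rw [card_range]; push_cast; rfl
      _ ≤ 2 ^ K * (128 * ((lam i : ℝ) / Y)) := le_mul_of_one_le_right (by positivity) h2
      _ ≤ (128 * C + 128) * 2 ^ K * ((lam i : ℝ) / Y) := by
          have h3 : 0 ≤ 128 * C * 2 ^ K * ((lam i : ℝ) / Y) := by positivity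
          linarith
  · obtain ⟨k, rfl⟩ : ∃ k, i = k + 7 := ⟨i - 7, by omega⟩
    obtain ⟨z, rfl⟩ : ∃ z, K = k + z := ⟨K - k, by omega⟩
    set L : List El := [(U, fun _ => 0, fun _ => True)] with hL
    have hgv : 0 < gv V0 L := by
      rw [hL, gv_cons, nv_zero, if_pos hU]
      omega
    have hL0 : ∀ x ∈ L, x.2 = (fun _ => 0, fun _ => True) := by
      intro x hx
      rw [hL, List.mem_singleton] at hx
      rw [hx]
    set B : ℝ := 2 ^ (k + 7) / Y with hB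
    have hB1 : 1 ≤ B := by rwa [hB, le_div_iff₀ hY0, one_mul]
    have hsub : #{t ∈ range (2 ^ (k + z)) |
        (N1 P2 (2 ^ (k + 7)) (U, (fun _ => 0), fun _ => True) t : ℝ) < B} ≤
        #{t ∈ range (2 ^ (k + z)) | (gv 128 (desc P2 k L (t % 2 ^ k)) : ℝ) < B} := by
      refine card_le_card fun t ht => ?_
      rw [mem_filter] at ht ⊢
      refine ⟨ht.1, lt_of_le_of_lt ?_ ht.2⟩
      rw [desc_mod]
      have h1 := gv_desc_le isP_P2 128 k L t hL0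
      have e : 2 ^ k * 128 = 2 ^ (k + 7) := by rw [pow_add]; norm_num
      rw [hL, NN_single, ← hL, e] at h1
      exact_mod_cast h1
    have hmod := card_mod (fun t => (gv 128 (desc P2 k L t) : ℝ) < B) k z
    have h3 := hfew k L hgv B hB1
    have h4 : (#{t ∈ range (2 ^ (k + z)) |
        (N1 P2 (2 ^ (k + 7)) (U, (fun _ => 0), fun _ => True) t : ℝ) < B} : ℝ) ≤
        2 ^ z * (#{t ∈ range (2 ^ k) | (gv 128 (desc P2 k L t) : ℝ) < B} : ℝ) := by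
      exact_mod_cast hsub.trans hmod
    have hlk : (lam k : ℝ) ≤ lam (k + 7) := by exact_mod_cast lam_mono (show k ≤ k + 7 by omega)
    calc _ ≤ 2 ^ z * (C * B * lam k) := h4.trans (by gcongr)
      _ ≤ 2 ^ z * (C * B * lam (k + 7)) := by gcongr
      _ = 128 * C * 2 ^ (k + z) * ((lam (k + 7) : ℝ) / Y) := by
          rw [hB, pow_add, pow_add]
          ring
      _ ≤ (128 * C + 128) * 2 ^ (k + z) * ((lam (k + 7) : ℝ) / Y) := by
          have h5 : 0 ≤ 128 * 2 ^ (k + z) * ((lam (k + 7) : ℝ) / Y) := by positivity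
          linarith

open scoped Classical in
/-- the sum over the odd residues -/
theorem prog_of_class {M m b' : ℕ} (hMm : M = 2 ^ b' * m) (hm : Odd m) {a : ℝ} (ρ L : ℕ)
    (c : Fin (L + 1) → ZMod 2) (w : ℕ → ZMod 2)
    (hcl : ∀ t₀ : ℕ, t₀ % 2 = 1 → t₀ < 2 ^ (b' + 1) → ∃ C : ℝ, 0 < C ∧ ∀ K x : ℕ, 1 ≤ x →
      x < 2 ^ K → ∀ Y : ℝ, 1 ≤ Y → Y ≤ x → (#{t ∈ range (2 ^ K) | t % 2 ^ (b' + 1) = t₀ ∧
        (cnt P2 (b' + 1) ((ρ + L) % 2 ^ (b' + 1)) L (CC c) (fun n => w (n - L))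
          (fun n => n % m = (ρ + L) % m) t x : ℝ) < x / Y} : ℝ) ≤
          C * 2 ^ K * ((lam (Nat.log 2 x) : ℝ) / Y) ^ a) :
    ∃ C : ℝ, 0 < C ∧ ∀ K x : ℕ, 1 ≤ x → x < 2 ^ K → ∀ Y : ℝ, 1 ≤ Y → Y ≤ x →
      (#{t ∈ range (2 ^ K) | t % 2 = 1 ∧ (cntP M ρ c w t x : ℝ) < x / Y} : ℝ) ≤
        C * 2 ^ K * ((lam (Nat.log 2 x) : ℝ) / Y) ^ a := by
  set b : ℕ := b' + 1 with hb
  have hP : 0 < 2 ^ b := by positivity
  have h2b : 2 ∣ 2 ^ b := dvd_pow_self 2 (by omega)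
  set β : ℕ := (ρ + L) % 2 ^ b with hβ
  have hex : ∀ t₀ : ℕ, ∃ C : ℝ, 0 < C ∧ (t₀ % 2 = 1 → t₀ < 2 ^ b → ∀ K x : ℕ, 1 ≤ x → x < 2 ^ K →
      ∀ Y : ℝ, 1 ≤ Y → Y ≤ x → (#{t ∈ range (2 ^ K) | t % 2 ^ b = t₀ ∧
        (cnt P2 b β L (CC c) (fun n => w (n - L)) (fun n => n % m = (ρ + L) % m) t x : ℝ) <
          x / Y} : ℝ) ≤ C * 2 ^ K * ((lam (Nat.log 2 x) : ℝ) / Y) ^ a) := by
    intro t₀
    by_cases h1 : t₀ % 2 = 1
    · by_cases h2 : t₀ < 2 ^ b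
      · obtain ⟨C, hC, h⟩ := hcl t₀ h1 h2
        exact ⟨C, hC, fun _ _ => h⟩
      · exact ⟨1, one_pos, fun _ h => absurd h h2⟩
    · exact ⟨1, one_pos, fun h => absurd h h1⟩
  choose Cf hCf hCf2 using hex
  refine ⟨∑ t₀ ∈ range (2 ^ b), Cf t₀, sum_pos (fun _ _ => hCf _) ⟨0, mem_range.2 hP⟩, ?_⟩
  intro K x hx1 hxK Y hY1 hYx
  have hsub : {t ∈ range (2 ^ K) | t % 2 = 1 ∧ (cntP M ρ c w t x : ℝ) < x / Y} ⊆
      ({t₀ ∈ range (2 ^ b) | t₀ % 2 = 1}).biUnion fun t₀ => {t ∈ range (2 ^ K) | t % 2 ^ b = t₀ ∧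
        (cnt P2 b β L (CC c) (fun n => w (n - L)) (fun n => n % m = (ρ + L) % m) t x : ℝ) <
          x / Y} := by
    intro t ht
    obtain ⟨h1, h2, h5⟩ := mem_filter.1 ht
    rw [mem_biUnion]
    refine ⟨t % 2 ^ b, ?_, ?_⟩
    · rw [mem_filter, mem_range]
      refine ⟨Nat.mod_lt _ hP, ?_⟩
      rw [Nat.mod_mod_of_dvd _ h2b]
      exact h2
    · rw [mem_filter]
      refine ⟨h1, rfl, lt_of_le_of_lt ?_ h5⟩
      exact_mod_cast cnt_le (ρ := ρ) hMm hm (Nat.le_succ b') c w t x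
  have h1 := (card_le_card hsub).trans card_biUnion_le
  have h2 : (0 : ℝ) ≤ 2 ^ K * ((lam (Nat.log 2 x) : ℝ) / Y) ^ a := by positivity
  calc (#{t ∈ range (2 ^ K) | t % 2 = 1 ∧ (cntP M ρ c w t x : ℝ) < x / Y} : ℝ) ≤
      ((∑ t₀ ∈ range (2 ^ b) with t₀ % 2 = 1, #{t ∈ range (2 ^ K) | t % 2 ^ b = t₀ ∧
        (cnt P2 b β L (CC c) (fun n => w (n - L)) (fun n => n % m = (ρ + L) % m) t x : ℝ) <
          x / Y} : ℕ) : ℝ) := by exact_mod_cast h1
    _ = ∑ t₀ ∈ range (2 ^ b) with t₀ % 2 = 1, (#{t ∈ range (2 ^ K) | t % 2 ^ b = t₀ ∧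
        (cnt P2 b β L (CC c) (fun n => w (n - L)) (fun n => n % m = (ρ + L) % m) t x : ℝ) <
          x / Y} : ℝ) := by
        push_cast
        rfl
    _ ≤ ∑ t₀ ∈ range (2 ^ b) with t₀ % 2 = 1,
        Cf t₀ * 2 ^ K * ((lam (Nat.log 2 x) : ℝ) / Y) ^ a := by
        refine sum_le_sum fun t₀ ht => ?_
        rw [mem_filter, mem_range] at ht
        exact hCf2 t₀ ht.2 ht.1 K x hx1 hxK Y hY1 hYx
    _ ≤ ∑ t₀ ∈ range (2 ^ b), Cf t₀ * 2 ^ K * ((lam (Nat.log 2 x) : ℝ) / Y) ^ a := by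
        refine sum_le_sum_of_subset_of_nonneg (filter_subset _ _) fun t₀ _ _ => ?_
        have := hCf t₀
        positivity
    _ = (∑ t₀ ∈ range (2 ^ b), Cf t₀) * 2 ^ K * ((lam (Nat.log 2 x) : ℝ) / Y) ^ a := by
        rw [sum_mul, sum_mul]

/-- all progressions and all patterns -/
theorem prog_prob (M : ℕ) (hM : 0 < M) : ∃ a : ℝ, 0 < a ∧ ∀ (ρ L : ℕ)
    (c : Fin (L + 1) → ZMod 2), c ≠ 0 → ∀ (w : ℕ → ZMod 2),
    ∃ C : ℝ, 0 < C ∧ ∀ K x : ℕ, 1 ≤ x → x < 2 ^ K → ∀ Y : ℝ, 1 ≤ Y → Y ≤ x →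
      (#{t ∈ range (2 ^ K) | t % 2 = 1 ∧ (cntP M ρ c w t x : ℝ) < x / Y} : ℝ) ≤
        C * 2 ^ K * ((lam (Nat.log 2 x) : ℝ) / Y) ^ a := by
  classical
  obtain ⟨b', m, hm, hMm⟩ := Nat.exists_eq_two_pow_mul_odd hM.ne'
  obtain ⟨a, ha, hmain⟩ := class_prob m hm.pos
  refine ⟨a, ha, ?_⟩
  intro ρ L c hc w
  have h := prog_of_class hMm hm ρ L c w (a := a) (fun t₀ h1 h2 =>
    hmain (CC c) (b' + 1) ((ρ + L) % 2 ^ (b' + 1)) t₀ L (Nat.mod_lt _ (by positivity))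
      (node_ne c hc (Nat.mod_lt _ (by positivity)) h1 h2) (fun n => w (n - L))
      (fun n => n % m = (ρ + L) % m) (Dn_odd hm (b' + 1) ((ρ + L) % 2 ^ (b' + 1)) (ρ + L)))
  exact h

/-- odd values in the classes modulo powers of 2 -/
theorem prog_ld (b' : ℕ) (ρ L : ℕ) (c : Fin (L + 1) → ZMod 2) (hc : c ≠ 0) :
    ∃ C : ℝ, 0 < C ∧ ∀ K x : ℕ, 1 ≤ x → x < 2 ^ K → ∀ Y : ℝ, 1 ≤ Y → Y ≤ x →
      (#{t ∈ range (2 ^ K) | t % 2 = 1 ∧ (cntP (2 ^ b') ρ c (fun _ => 0) t x : ℝ) < x / Y} : ℝ) ≤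
        C * 2 ^ K * ((lam (Nat.log 2 x) : ℝ) / Y) ^ (1 : ℝ) := by
  classical
  refine prog_of_class (M := 2 ^ b') (m := 1) (b' := b') (mul_one _).symm odd_one ρ L c
    (fun _ => 0) ?_
  intro t₀ h1 h2
  have hβ : (ρ + L) % 2 ^ (b' + 1) < 2 ^ (b' + 1) := Nat.mod_lt _ (by positivity)
  obtain ⟨m, hm⟩ := node_ne c hc hβ h1 h2
  obtain ⟨C', hC', hb⟩ := unit_ld (m + 1)
  have hA : (fun n : ℕ => n % 1 = (ρ + L) % 1) = fun _ => True := by
    funext n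
    simp [Nat.mod_one]
  rw [hA]
  exact class_of_unit one_pos (CC c) (b' + 1) ((ρ + L) % 2 ^ (b' + 1)) t₀ L hβ (fun _ => 0)
    (fun _ => True) hC' (hb (node P2 (b' + 1) ((ρ + L) % 2 ^ (b' + 1)) t₀ (CC c))
      ⟨m, Nat.lt_succ_self m, hm⟩)

end Pool.Agent.H558.KK
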