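import Pool.Agent.H558.KK.Auto2
import Pool.Graph.R_pool_sql_team_seeded_35f281b4.K7.H91.SQ.Ineq

set_option autoImplicit false

/-!
# Parts of power series modulo `2 ^ l`, and the normalised parts of the powers of `D`
-/

namespace Pool.Agent.H558.KK

open PowerSeries Pool.Agent.TH693.QQ Pool.Agent.H397R2.PP
open Pool.Agent.TH693.PP (S T E P P_mul_E)
open Pool.Agent.R836.RD Pool.Agent.K7.H91.SQ Pool.Agent.R836.RD.FINBaux

/-- the part of `f` with exponents congruent to `z` modulo `2 ^ l` -/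
noncomputable def sc (l : ℕ) (z : ℤ) (f : S) : S :=
  PowerSeries.mk fun n => if (2 ^ l : ℤ) ∣ (n : ℤ) - z then coeff n f else 0

theorem coeff_sc (l : ℕ) (z : ℤ) (f : S) (n : ℕ) :
    coeff n (sc l z f) = if (2 ^ l : ℤ) ∣ (n : ℤ) - z then coeff n f else 0 := by
  unfold sc
  rw [coeff_mk]

theorem dvd_congr {d x y : ℤ} (h : d ∣ x - y) : d ∣ x ↔ d ∣ y := by
  constructor
  · intro h'
    have := dvd_sub h' h
    rwa [sub_sub_cancel] at this
  · intro h'
    have := dvd_add h h'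
    rwa [sub_add_cancel] at this

theorem sc_congr {l : ℕ} {z z' : ℤ} (h : (2 ^ l : ℤ) ∣ z - z') (f : S) : sc l z f = sc l z' f := by
  ext n
  rw [coeff_sc, coeff_sc]
  have : (2 ^ l : ℤ) ∣ (n : ℤ) - z ↔ (2 ^ l : ℤ) ∣ (n : ℤ) - z' := by
    apply dvd_congr
    have e : (n : ℤ) - z - (n - z') = -(z - z') := by ring
    rw [e, dvd_neg]
    exact h
  simp only [this]

theorem sc_mul (l : ℕ) (z : ℤ) (f g : S) :
    sc l z (f * g) = ∑ b : Fin (2 ^ l), sc l ((b : ℕ) : ℤ) f * sc l (z - ((b : ℕ) : ℤ)) g := by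
  have hL : 0 < 2 ^ l := by positivity
  ext n
  rw [coeff_sc, map_sum]
  simp only [coeff_mul, coeff_sc]
  rw [Finset.sum_comm]
  have key : ∀ p ∈ Finset.HasAntidiagonal.antidiagonal n, ∑ b : Fin (2 ^ l),
      (if (2 ^ l : ℤ) ∣ (p.1 : ℤ) - ((b : ℕ) : ℤ) then coeff p.1 f else 0) *
        (if (2 ^ l : ℤ) ∣ (p.2 : ℤ) - (z - ((b : ℕ) : ℤ)) then coeff p.2 g else 0) =
      if (2 ^ l : ℤ) ∣ (n : ℤ) - z then coeff p.1 f * coeff p.2 g else 0 := by
    intro p hp
    rw [Finset.HasAntidiagonal.mem_antidiagonal] at hp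
    have hm := Nat.mod_lt p.1 hL
    have hd := Nat.mod_add_div p.1 (2 ^ l)
    rw [Finset.sum_eq_single ⟨p.1 % 2 ^ l, hm⟩]
    · have h1 : (2 ^ l : ℤ) ∣ (p.1 : ℤ) - ((p.1 % 2 ^ l : ℕ) : ℤ) := by
        refine ⟨(p.1 / 2 ^ l : ℕ), ?_⟩
        have : (p.1 : ℤ) = ((p.1 % 2 ^ l + 2 ^ l * (p.1 / 2 ^ l) : ℕ) : ℤ) := by rw [hd]
        conv_lhs => rw [this]
        push_cast
        ring
      rw [if_pos h1]
      have h2 : (2 ^ l : ℤ) ∣ (p.2 : ℤ) - (z - ((p.1 % 2 ^ l : ℕ) : ℤ)) ↔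
          (2 ^ l : ℤ) ∣ (n : ℤ) - z := by
        apply dvd_congr
        have e : (p.2 : ℤ) - (z - ((p.1 % 2 ^ l : ℕ) : ℤ)) - (n - z) =
            -((p.1 : ℤ) - ((p.1 % 2 ^ l : ℕ) : ℤ)) := by
          rw [← hp]
          push_cast
          ring
        rw [e, dvd_neg]
        exact h1
      simp only [h2]
      split_ifs
      · rfl
      · rw [mul_zero]
    · intro b _ hb
      rw [if_neg, zero_mul]
      intro h
      apply hb
      ext
      simp only
      have h3 : p.1 ≡ b.1 [MOD 2 ^ l] := by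
        rw [Nat.ModEq.comm, Nat.modEq_iff_dvd]
        push_cast
        exact h
      rw [h3, Nat.mod_eq_of_lt b.2]
    · intro h
      exact absurd (Finset.mem_univ _) h
  rw [Finset.sum_congr rfl key]
  split_ifs
  · rfl
  · rw [Finset.sum_const_zero]

theorem T_zero : coeff 0 T = 1 := by
  have h := congrArg constantCoeff P_mul_E
  rw [map_mul, map_one] at h
  have h1 : ∀ a b : ZMod 2, a * b = 1 → b = 1 := by decide
  have h2 := h1 _ _ h
  unfold T
  rw [coeff_zero_eq_constantCoeff_apply, map_pow, h2, one_pow]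

theorem T_pow_zero (n : ℕ) : coeff 0 (T ^ n) = 1 := by
  have h := T_zero
  rw [coeff_zero_eq_constantCoeff_apply] at h ⊢
  rw [map_pow, h, one_pow]

/-- the embedding at the point `w ^ 8` -/
noncomputable def e8 : S →+* Om := ev 1 8

theorem e8_coeff (f : S) (n : ℤ) : (e8 f).coeff n =
    if n < 0 then 0 else if 8 ∣ n.natAbs then algebraMap (ZMod 2) kk (coeff (n.natAbs / 8) f)
      else 0 := by
  unfold e8
  rw [ev_coeff' 1 (by norm_num)]
  simp only [one_pow, one_mul]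

theorem e8_inj : Function.Injective e8 := by
  rw [injective_iff_map_eq_zero]
  intro f hf
  ext n
  have h1 : (e8 f).coeff ((8 * n : ℕ) : ℤ) = 0 := by rw [hf]; rfl
  rw [e8_coeff, if_neg (by omega), if_pos (by rw [Int.natAbs_natCast]; exact Dvd.intro _ rfl),
    Int.natAbs_natCast, Nat.mul_div_cancel_left _ (by norm_num), _root_.map_eq_zero] at h1
  rw [h1, map_zero]

/-- the series `w` -/
noncomputable def Xs : Om := HahnSeries.single 1 1

theorem Xs_pow (n : ℕ) : Xs ^ n = HahnSeries.single (n : ℤ) 1 := by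
  unfold Xs
  rw [HahnSeries.single_pow, one_pow]
  congr 1
  simp

theorem coeff_Xs_mul (n : ℕ) (f : Om) (z : ℤ) : (Xs ^ n * f).coeff z = f.coeff (z - n) := by
  rw [Xs_pow]
  have := HahnSeries.coeff_single_mul_add (r := (1 : kk)) (x := f) (a := z - n) (b := (n : ℤ))
  rw [sub_add_cancel, one_mul] at this
  exact this

theorem Db_pow (n : ℕ) : (Db : S) ^ n = X ^ n * PowerSeries.expand 8 (by norm_num) (T ^ n) := by
  rw [← pow_eq_expand' 8 3 (by norm_num) (by norm_num)]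
  unfold Db T E
  rw [mul_pow]
  ring

theorem dO_pow (n : ℕ) : dO 1 1 ^ n = Xs ^ n * e8 (T ^ n) := by
  have h1 : dO 1 1 ^ n = ev 1 1 (Db ^ n) := by rw [map_pow]; rfl
  rw [h1]
  ext z
  rw [coeff_Xs_mul, e8_coeff, ev_coeff' 1 one_ne_zero]
  simp only [one_pow, one_mul, one_dvd, if_true, Nat.div_one]
  rw [Db_pow, coeff_X_pow_mul']
  by_cases h2 : z < 0
  · rw [if_pos h2, if_pos (by omega)]
  · rw [if_neg h2]
    by_cases h3 : z - n < 0
    · rw [if_pos h3, if_neg (by omega), map_zero]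
    · rw [if_neg h3, if_pos (by omega), coeff_expand]
      have h4 : z.natAbs - n = (z - n).natAbs := by omega
      rw [h4]
      split_ifs
      · rfl
      · rw [map_zero]

theorem e8_lead {f : S} (hf : coeff 0 f = 1) : Lead (e8 f) 0 := by
  apply lead_of
  · rw [e8_coeff, if_neg (by norm_num), if_pos (by norm_num)]
    simp [hf]
  · intro n hn
    rw [e8_coeff, if_pos hn]

theorem prO_coeff' (κ : ℕ) (z : ℤ) (f : Om) (n : ℤ) :
    (prO κ ((z : ℤ) : ZMod (2 ^ κ)) f).coeff n = if (2 ^ κ : ℤ) ∣ z - n then f.coeff n else 0 := by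
  rw [DEL813.prO_coeff]
  simp only [cast_eq_iff]

/-- parts of `e8 f` -/
theorem prO_e8 (l : ℕ) (z : ℤ) (f : S) :
    prO (l + 3) ((8 * z : ℤ) : ZMod (2 ^ (l + 3))) (e8 f) = e8 (sc l z f) := by
  ext n
  rw [prO_coeff', e8_coeff, e8_coeff, coeff_sc]
  by_cases h1 : n < 0
  · rw [if_pos h1, if_pos h1, ite_self]
  · rw [if_neg h1, if_neg h1]
    by_cases h2 : 8 ∣ n.natAbs
    · rw [if_pos h2, if_pos h2]
      obtain ⟨q, hq⟩ := h2
      have hn : n = 8 * (q : ℤ) := by omega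
      rw [hq, Nat.mul_div_cancel_left _ (by norm_num), hn]
      have e2 : (2 : ℤ) ^ (l + 3) = 8 * 2 ^ l := by ring
      have h3 : (2 ^ (l + 3) : ℤ) ∣ 8 * z - 8 * q ↔ (2 ^ l : ℤ) ∣ (q : ℤ) - z := by
        rw [← mul_sub, e2, mul_dvd_mul_iff_left (by norm_num), ← dvd_neg, neg_sub]
      simp only [h3]
      split_ifs
      · rfl
      · rw [map_zero]
    · rw [if_neg h2, if_neg h2, ite_self]

theorem prO_Xs (κ n : ℕ) (z : ℤ) (f : Om) :
    prO κ ((z + n : ℤ) : ZMod (2 ^ κ)) (Xs ^ n * f) = Xs ^ n * prO κ ((z : ℤ) : ZMod (2 ^ κ)) f := by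
  ext y
  rw [prO_coeff', coeff_Xs_mul, coeff_Xs_mul, prO_coeff']
  have : z + n - y = z - (y - n) := by ring
  rw [this]

/-- the parts of a power of `D` -/
theorem prO_dO (l n : ℕ) (z : ℤ) :
    prO (l + 3) ((8 * z + n : ℤ) : ZMod (2 ^ (l + 3))) (dO 1 1 ^ n) = Xs ^ n * e8 (sc l z (T ^ n)) := by
  rw [dO_pow, prO_Xs, prO_e8]

theorem Xs_ne (n : ℕ) : Xs ^ n ≠ 0 := by
  rw [Xs_pow]
  exact HahnSeries.single_ne_zero one_ne_zero

/-- the normalised parts of a power of `D` -/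
theorem Xn_dO (l n : ℕ) (z : ℤ) :
    Xn (l + 3) ((8 * z + n : ℤ) : ZMod (2 ^ (l + 3))) (dO 1 1 ^ n) =
      io' (e8 (sc l z (T ^ n))) / io' (e8 (T ^ n)) := by
  unfold Xn
  rw [prO_dO]
  conv_lhs => rw [dO_pow]
  rw [map_mul, map_mul, mul_div_mul_left]
  rw [Ne, _root_.map_eq_zero]
  exact Xs_ne n

end Pool.Agent.H558.KK
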