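import Pool.Agent.H558.KK.Dis

set_option autoImplicit false

/-!
# The probability of a small number of disagreements at one scale
-/

namespace Pool.Agent.H558.KK

open PowerSeries Finset
open Pool.Agent.K7.H72.MT hiding W few dis DD dis_stable dis_vary DD_stable DD_sum DD_block few_bad dis_le DD_le base count

theorem lam_pos (k : ℕ) : 1 ≤ lam k := Nat.one_le_two_pow

theorem lam_mono {k k' : ℕ} (h : k ≤ k') : lam k ≤ lam k' := by
  unfold lam
  have h1 : Nat.log 2 (k / 4 + 1) ≤ Nat.log 2 (k' / 4 + 1) := by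
    apply Nat.log_mono_right
    omega
  apply Nat.pow_le_pow_right (by norm_num)
  gcongr

theorem unit_prob (R : ℕ) (hR : 1 ≤ R) : ∃ a : ℝ, 0 < a ∧ ∀ V0 : ℕ, ∃ C : ℝ, 0 < C ∧
    ∀ (U : S) (w : ℕ → ZMod 2) (A : ℕ → Prop), Gv V0 U → Dn R A → ∀ K i : ℕ, i ≤ K →
      ∀ Y : ℝ, 1 ≤ Y → Y ≤ 2 ^ i →
      (#{t ∈ range (2 ^ K) | (N1 P2 (2 ^ i) (U, w, A) t : ℝ) < 2 ^ i / Y} : ℝ) ≤
        C * 2 ^ K * ((lam i : ℝ) / Y) ^ a := by
  have hRr : (1 : ℝ) ≤ R := by exact_mod_cast hR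
  set th : ℝ := (2 ^ R - 1) / 2 ^ R with hth
  have h2R : (2 : ℝ) ≤ 2 ^ R := by
    calc (2 : ℝ) = 2 ^ 1 := by norm_num
      _ ≤ 2 ^ R := pow_le_pow_right₀ (by norm_num) hR
  have hth0 : 0 < th := div_pos (by linarith) (by positivity)
  have hth1 : th < 1 := by
    rw [hth, div_lt_one (by positivity)]
    linarith
  set ll : ℝ := -Real.logb 2 th with hll
  have hll0 : 0 < ll := by
    have := Real.logb_neg (b := 2) (by norm_num) hth0 hth1
    linarith
  have hth2 : th = (2 : ℝ) ^ (-ll) := by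
    rw [hll, neg_neg, Real.rpow_logb (by norm_num) (by norm_num) hth0]
  set a : ℝ := min (1 / 2) (ll / (2 * R)) with ha
  have ha0 : 0 < a := lt_min (by norm_num) (by positivity)
  have ha1 : a ≤ 1 / 2 := min_le_left _ _
  have ha2 : a ≤ ll / (2 * R) := min_le_right _ _
  refine ⟨a, ha0, fun V0 => ?_⟩
  obtain ⟨C1, hC1, hfew⟩ := few V0
  set c0 : ℝ := 16 * R + 20 with hc0
  refine ⟨2 * C1 * (2 ^ R + 1) + 2 ^ ll + 2 ^ c0, by positivity, ?_⟩
  intro U w A hU hA K i hiK Y hY1 hYi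
  have hlam1 : (1 : ℝ) ≤ lam i := by exact_mod_cast lam_pos i
  have hY0 : 0 < Y := by linarith
  set q : ℝ := (lam i : ℝ) / Y with hq
  have hq0 : 0 < q := by positivity
  have htriv : (#{t ∈ range (2 ^ K) | (N1 P2 (2 ^ i) (U, w, A) t : ℝ) < 2 ^ i / Y} : ℝ) ≤ 2 ^ K := by
    have := card_filter_le (range (2 ^ K)) (fun t => (N1 P2 (2 ^ i) (U, w, A) t : ℝ) < 2 ^ i / Y)
    rw [card_range] at this
    exact_mod_cast this
  rcases le_or_gt ((2 : ℝ) ^ (-c0)) q with hqc | hqc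
  · -- the trivial case
    have h1 : (1 : ℝ) ≤ 2 ^ c0 * q ^ a := by
      have hc0' : 0 ≤ c0 := by positivity
      calc (1 : ℝ) ≤ (2 : ℝ) ^ (c0 - c0 * a) := by
            apply Real.one_le_rpow (by norm_num)
            nlinarith
        _ = 2 ^ c0 * ((2 : ℝ) ^ (-c0)) ^ a := by
            rw [← Real.rpow_mul (by norm_num), ← Real.rpow_add (by norm_num)]
            congr 1
            ring
        _ ≤ 2 ^ c0 * q ^ a := by gcongr
    calc _ ≤ (2 : ℝ) ^ K := htriv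
      _ ≤ 2 ^ K * (2 ^ c0 * q ^ a) := le_mul_of_one_le_right (by positivity) h1
      _ = 2 ^ c0 * 2 ^ K * q ^ a := by ring
      _ ≤ _ := by
          gcongr
          have : 0 < 2 * C1 * (2 ^ R + 1) := by positivity
          have : 0 < (2 : ℝ) ^ ll := by positivity
          linarith
  · set y : ℝ := -Real.logb 2 q with hy
    have hqy : q = (2 : ℝ) ^ (-y) := by
      rw [hy, neg_neg, Real.rpow_logb (by norm_num) (by norm_num) hq0]
    have hyc : c0 < y := by
      rw [hqy, Real.rpow_lt_rpow_left_iff (by norm_num)] at hqc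
      linarith
    have hy0 : 0 < y := by
      have : 0 < c0 := by positivity
      linarith
    have hyi : y ≤ i := by
      have h1 : (2 : ℝ) ^ (-(i : ℝ)) ≤ q := by
        rw [hq, Real.rpow_neg (by norm_num), Real.rpow_natCast, inv_eq_one_div,
          div_le_div_iff₀ (by positivity) hY0]
        nlinarith
      rw [hqy, Real.rpow_le_rpow_left_iff (by norm_num)] at h1
      linarith
    set J : ℕ := ⌊y / (2 * R)⌋₊ with hJ
    have hJle : (J : ℝ) ≤ y / (2 * R) := Nat.floor_le (by positivity)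
    have hJge : y / (2 * R) - 1 ≤ J := by
      have := (Nat.lt_floor_add_one (y / (2 * (R : ℝ)))).le
      linarith
    have hRJle : (R : ℝ) * J ≤ y / 2 := by
      calc (R : ℝ) * J ≤ R * (y / (2 * R)) := by gcongr
        _ = y / 2 := by field_simp
    have hJ7 : 7 ≤ J := by
      have h1 : (8 : ℝ) ≤ y / (2 * R) := by
        rw [le_div_iff₀ (by positivity)]
        linarith
      rw [hJ]
      apply Nat.le_floor
      push_cast
      linarith
    have hRJ7 : 7 ≤ R * J := by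
      calc 7 ≤ J := hJ7
        _ = 1 * J := (one_mul _).symm
        _ ≤ R * J := Nat.mul_le_mul_right _ hR
    have hRJi : R * J + 1 ≤ i := by
      have h1 : (R : ℝ) * J + 1 ≤ i := by linarith
      exact_mod_cast h1
    obtain ⟨k, hk⟩ : ∃ k, k + (R * J + 1) = i := ⟨i - (R * J + 1), by omega⟩
    obtain ⟨Z, hZ⟩ : ∃ Z, k + (R * J + Z) = K := ⟨K - i + 1, by omega⟩
    set B : ℕ := ⌈(2 : ℝ) ^ R * (2 ^ i / Y)⌉₊ with hB
    have hBp : (1 : ℝ) ≤ 2 ^ R * (2 ^ i / Y) := by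
      have h1 : (1 : ℝ) ≤ 2 ^ i / Y := by rwa [le_div_iff₀ hY0, one_mul]
      nlinarith
    have hB1 : (1 : ℝ) ≤ B := hBp.trans (Nat.le_ceil _)
    have hBle : (B : ℝ) ≤ (2 ^ R + 1) * (2 ^ i / Y) := by
      have h1 : (B : ℝ) ≤ 2 ^ R * (2 ^ i / Y) + 1 := (Nat.ceil_lt_add_one (by positivity)).le
      have h2 : (1 : ℝ) ≤ 2 ^ i / Y := by rwa [le_div_iff₀ hY0, one_mul]
      linarith
    have hXi : 2 ^ k * 2 ^ (R * J + 1) = 2 ^ i := by rw [← pow_add, hk]
    have hX : 128 + 2 ^ (R * J) ≤ 2 ^ (R * J + 1) := by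
      have h1 : 2 ^ 7 ≤ 2 ^ (R * J) := Nat.pow_le_pow_right (by norm_num) hRJ7
      rw [pow_succ 2 (R * J)]
      omega
    have hAD : AD R [((U, w, A) : El)] := by
      intro x hx
      rw [List.mem_singleton] at hx
      rw [hx]
      exact hA
    have hcount := count isP_P2 J Z (2 ^ (R * J + 1)) B hX k [(U, w, A)] hAD
    rw [hXi, hZ] at hcount
    have hgv : 0 < gv V0 [((U, w, A) : El)] := by
      rw [gv_cons, nv_zero, if_pos hU]
      omega
    have hf := hfew k [(U, w, A)] hgv B hB1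
    have hsub : (#{t ∈ range (2 ^ K) | (N1 P2 (2 ^ i) (U, w, A) t : ℝ) < 2 ^ i / Y} : ℝ) ≤
        (#{t ∈ range (2 ^ K) | 2 ^ R * NN P2 (2 ^ i) [(U, w, A)] t < B} : ℝ) := by
      have : #{t ∈ range (2 ^ K) | (N1 P2 (2 ^ i) (U, w, A) t : ℝ) < 2 ^ i / Y} ≤
          #{t ∈ range (2 ^ K) | 2 ^ R * NN P2 (2 ^ i) [(U, w, A)] t < B} := by
        refine card_le_card fun t ht => ?_
        rw [mem_filter] at ht ⊢
        refine ⟨ht.1, ?_⟩
        rw [NN_single]
        have h2 : (2 ^ R * N1 P2 (2 ^ i) (U, w, A) t : ℝ) < B := by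
          calc (2 ^ R * N1 P2 (2 ^ i) (U, w, A) t : ℝ) < 2 ^ R * (2 ^ i / Y) := by
                have := ht.2
                gcongr
            _ ≤ B := Nat.le_ceil _
        exact_mod_cast h2
      exact_mod_cast this
    have hcount' : (#{t ∈ range (2 ^ K) | 2 ^ R * NN P2 (2 ^ i) [(U, w, A)] t < B} : ℝ) ≤
        2 ^ (R * J + Z) * (#{t ∈ range (2 ^ k) | gv 128 (desc P2 k [(U, w, A)] t) < B} : ℝ) +
          2 ^ k * (2 ^ Z * (2 ^ R - 1) ^ J) := by
      have h1 : ((2 ^ R - 1 : ℕ) : ℝ) = 2 ^ R - 1 := by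
        rw [Nat.cast_sub Nat.one_le_two_pow]
        norm_num
      rw [← h1]
      exact_mod_cast hcount
    have hf' : (#{t ∈ range (2 ^ k) | gv 128 (desc P2 k [(U, w, A)] t) < B} : ℝ) ≤
        C1 * B * lam k := by
      have he : {t ∈ range (2 ^ k) | gv 128 (desc P2 k [(U, w, A)] t) < B} =
          {t ∈ range (2 ^ k) | (gv 128 (desc P2 k [(U, w, A)] t) : ℝ) < (B : ℝ)} := by
        ext t
        rw [mem_filter, mem_filter, Nat.cast_lt]
      rw [he]
      exact hf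
    have hlk : (lam k : ℝ) ≤ lam i := by
      exact_mod_cast lam_mono (show k ≤ i by omega)
    have hq1 : q ≤ 1 := by
      rw [hqy]
      exact Real.rpow_le_one_of_one_le_of_nonpos (by norm_num) (by linarith)
    have hRJy : (2 : ℝ) ^ (R * J) ≤ 2 ^ (y / 2) := by
      rw [← Real.rpow_natCast 2 (R * J)]
      apply Real.rpow_le_rpow_of_exponent_le (by norm_num)
      push_cast
      exact hRJle
    have hfirst : (2 : ℝ) ^ (R * J + Z) * (C1 * B * lam k) ≤
        2 * C1 * (2 ^ R + 1) * 2 ^ K * q ^ a := by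
      have e1 : (2 : ℝ) ^ (R * J + Z) * 2 ^ i = 2 ^ K * (2 * 2 ^ (R * J)) := by
        rw [← pow_succ', ← pow_add, ← pow_add]
        congr 1
        omega
      have e2 : (2 : ℝ) ^ (y / 2) * q = q ^ (1 / 2 : ℝ) := by
        rw [hqy, ← Real.rpow_mul (by norm_num), ← Real.rpow_add (by norm_num)]
        congr 1
        ring
      calc (2 : ℝ) ^ (R * J + Z) * (C1 * B * lam k) ≤
          2 ^ (R * J + Z) * (C1 * ((2 ^ R + 1) * (2 ^ i / Y)) * lam i) := by gcongr
        _ = C1 * (2 ^ R + 1) * (2 ^ (R * J + Z) * 2 ^ i) * q := by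
            rw [hq]
            ring
        _ = 2 * C1 * (2 ^ R + 1) * 2 ^ K * (2 ^ (R * J) * q) := by
            rw [e1]
            ring
        _ ≤ 2 * C1 * (2 ^ R + 1) * 2 ^ K * (2 ^ (y / 2) * q) := by gcongr
        _ = 2 * C1 * (2 ^ R + 1) * 2 ^ K * q ^ (1 / 2 : ℝ) := by rw [e2]
        _ ≤ 2 * C1 * (2 ^ R + 1) * 2 ^ K * q ^ a := by
            have := Real.rpow_le_rpow_of_exponent_ge hq0 hq1 ha1
            gcongr
    have hsecond : (2 : ℝ) ^ k * (2 ^ Z * (2 ^ R - 1) ^ J) ≤ 2 ^ ll * 2 ^ K * q ^ a := by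
      have e1 : (2 : ℝ) ^ k * (2 ^ Z * (2 ^ R - 1) ^ J) = 2 ^ K * th ^ J := by
        rw [hth, div_pow, ← hZ, pow_add (2 : ℝ) k (R * J + Z), pow_add (2 : ℝ) (R * J) Z,
          ← pow_mul]
        have h1 : ∀ a b y z : ℝ, z ≠ 0 → a * (b * y) = a * (z * b) * (y / z) := by
          intro a b y z hz
          field_simp
        exact h1 _ _ _ _ (by positivity)
      have e2 : th ^ J ≤ 2 ^ ll * q ^ a := by
        rw [hth2, hqy, ← Real.rpow_natCast, ← Real.rpow_mul (by norm_num),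
          ← Real.rpow_mul (by norm_num), ← Real.rpow_add (by norm_num)]
        apply Real.rpow_le_rpow_of_exponent_le (by norm_num)
        have h1 : ll * (y / (2 * R) - 1) ≤ ll * J := by gcongr
        have h2 : a * y ≤ ll / (2 * R) * y := by gcongr
        have h3 : ll / (2 * R) * y = ll * (y / (2 * R)) := by ring
        linarith
      rw [e1]
      calc (2 : ℝ) ^ K * th ^ J ≤ 2 ^ K * (2 ^ ll * q ^ a) := by gcongr
        _ = _ := by ring
    calc (#{t ∈ range (2 ^ K) | (N1 P2 (2 ^ i) (U, w, A) t : ℝ) < 2 ^ i / Y} : ℝ) ≤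
        2 ^ (R * J + Z) * (#{t ∈ range (2 ^ k) | gv 128 (desc P2 k [(U, w, A)] t) < B} : ℝ) +
          2 ^ k * (2 ^ Z * (2 ^ R - 1) ^ J) := hsub.trans hcount'
      _ ≤ 2 ^ (R * J + Z) * (C1 * B * lam k) + 2 ^ k * (2 ^ Z * (2 ^ R - 1) ^ J) := by
          gcongr
      _ ≤ 2 * C1 * (2 ^ R + 1) * 2 ^ K * q ^ a + 2 ^ ll * 2 ^ K * q ^ a := add_le_add hfirst hsecond
      _ = (2 * C1 * (2 ^ R + 1) + 2 ^ ll) * 2 ^ K * q ^ a := by ring
      _ ≤ _ := by
          have h1 : 0 < (2 : ℝ) ^ c0 := by positivity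
          have h2 : 2 * C1 * (2 ^ R + 1) + 2 ^ ll ≤ 2 * C1 * (2 ^ R + 1) + 2 ^ ll + 2 ^ c0 := by
            linarith
          exact mul_le_mul_of_nonneg_right (mul_le_mul_of_nonneg_right h2 (by positivity))
            (by positivity)

end Pool.Agent.H558.KK
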